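import Pool.Agent.helper36.RLower

set_option autoImplicit false
open MeasureTheory Metric Set
open scoped ENNReal

namespace Pool.Agent.helper36.R

lemma KK_ge (n : ℕ) : 1 ≤ KK n := by
  unfold KK
  have := M_ge' n
  omega

lemma KK_real (n : ℕ) : (KK n : ℝ) = 16 * (mm n : ℝ) ^ 4 := by
  unfold KK; push_cast; ring

/-- The weight attached to the `n`-th configuration. -/
noncomputable def ww (n : ℕ) (x : E2) : ℝ := wt (KK n) (ee n) (fc n) x

/-- The bound for the `A₂` product of the `n`-th weight. -/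
noncomputable def AA (n : ℕ) : ℝ := 83521 * (mm n : ℝ) ^ 4

lemma ww_locallyIntegrable (n : ℕ) : LocallyIntegrable (ww n) volume :=
  wt_locallyIntegrable (KK_ge n) (ee n) (fc n)

lemma ww_inv_locallyIntegrable (n : ℕ) : LocallyIntegrable (fun x => (ww n x)⁻¹) volume := by
  unfold ww
  simp_rw [wt_inv]
  exact wt_locallyIntegrable (KK_ge n) (fc n) (ee n)

lemma ww_pos (n : ℕ) (x : E2) : 0 < ww n x := wt_pos (KK_ge n) (ee n) (fc n) x

lemma ww_A2 (n : ℕ) (x0 : E2) {R : ℝ} (hR : 0 < R) :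
    (⨍ x in ball x0 R, ww n x) * (⨍ x in ball x0 R, (ww n x)⁻¹) ≤ AA n := by
  have hm := mm_real_ge n
  have hm0 : (0 : ℝ) < mm n := by linarith
  have h4 : (0 : ℝ) < (mm n : ℝ) ^ 4 := by positivity
  refine wt_A2 (KK_ge n) (ee n) (fc n) (D := 2 * mm n) (by linarith) (ee_sep n) (fc_sep n)
    (ef_sep n) ?_ ?_ x0 hR
  · rw [KK_real]
    unfold AA
    linarith
  · rw [KK_real]
    unfold AA
    have h1 : 1 + 72 * (16 * (mm n : ℝ) ^ 4) / (2 * (mm n : ℝ)) ^ 2 = 1 + 288 * (mm n : ℝ) ^ 2 := by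
      field_simp
      ring
    rw [h1]
    have h2 : 1 + 288 * (mm n : ℝ) ^ 2 ≤ 289 * (mm n : ℝ) ^ 2 := by nlinarith
    calc (1 + 288 * (mm n : ℝ) ^ 2) ^ 2 ≤ (289 * (mm n : ℝ) ^ 2) ^ 2 := by
          apply pow_le_pow_left₀ (by positivity) h2
      _ = 83521 * (mm n : ℝ) ^ 4 := by ring

lemma ww_core_e (n : ℕ) (i : Fin (NN n) × Fin (NN n)) (x : E2) (hx : dist x (ee n i) < rr n) :
    ww n x = KK n * 4 ^ (KK n) := by
  have hm := mm_real_ge n
  refine wt_core (KK_ge n) (ee n) (fc n) i x hx ?_ ?_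
  · intro i' hi'
    have := ee_sep n i i' hi'.symm
    linarith
  · intro k
    have := ef_sep n i k
    linarith

lemma ww_core_f (n : ℕ) (k : Fin (2 * NN n) × Fin (2 * NN n)) (x : E2)
    (hx : dist x (fc n k) < rr n) : ww n x = ((KK n : ℝ) * 4 ^ (KK n))⁻¹ := by
  have hm := mm_real_ge n
  have h1 : wt (KK n) (fc n) (ee n) x = KK n * 4 ^ (KK n) := by
    refine wt_core (KK_ge n) (fc n) (ee n) k x hx ?_ ?_
    · intro k' hk'
      have := fc_sep n k k' hk'.symm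
      linarith
    · intro i
      have := ef_sep n i k
      rw [dist_comm]
      linarith
  rw [← h1, wt_inv]
  rfl

lemma rr_sq (n : ℕ) : rr n ^ 2 * 4 ^ (KK n) = 1 := by
  unfold rr
  rw [← pow_mul, mul_comm (KK n) 2, pow_mul, ← mul_pow]
  norm_num

/-- Lower bound for the commutator on the cores. -/
lemma gg_lower {n : ℕ} {i : Fin (NN n) × Fin (NN n)} {x : E2} (hx : dist x (ee n i) < rr n)
    (hne : x ≠ ee n i) :
    KK n * (Real.pi * rr n ^ 2) * ((mm n : ℝ) ^ 2 / 128) ≤ gg n x := by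
  refine le_trans ?_ (gg_ge_sum hx hne)
  have := lattice_sum_ge n i
  have hpi := Real.pi_pos
  gcongr

/-- The lower value. -/
noncomputable def gl (n : ℕ) : ℝ := KK n * (Real.pi * rr n ^ 2) * ((mm n : ℝ) ^ 2 / 128)

lemma gl_nonneg (n : ℕ) : 0 ≤ gl n := by
  unfold gl
  have := Real.pi_pos
  positivity

lemma lintegral_f_le (n : ℕ) :
    (∫⁻ x, ENNReal.ofReal ((ff n x) ^ 2 * ww n x)) ≤
      ENNReal.ofReal ((2 * (NN n : ℝ)) ^ 2 * (Real.pi * rr n ^ 2) * ((KK n : ℝ) * 4 ^ (KK n))⁻¹) := by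
  have hK : (0 : ℝ) < KK n := by exact_mod_cast KK_ge n
  have h1 : (∫⁻ x, ENNReal.ofReal ((ff n x) ^ 2 * ww n x)) =
      ∫⁻ x in SS n, ENNReal.ofReal (((KK n : ℝ) * 4 ^ (KK n))⁻¹) := by
    rw [← lintegral_indicator (SS_meas n)]
    apply lintegral_congr
    intro x
    by_cases hx : x ∈ SS n
    · have hff : ff n x = 1 := indicator_of_mem (s := SS n) (f := fun _ => (1 : ℝ)) hx
      rw [indicator_of_mem hx, hff]
      unfold SS at hx
      rw [mem_iUnion] at hx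
      obtain ⟨k, hk⟩ := hx
      rw [ww_core_f n k x hk]
      simp
    · have hff : ff n x = 0 := indicator_of_notMem (s := SS n) (f := fun _ => (1 : ℝ)) hx
      rw [indicator_of_notMem hx, hff]
      simp
  rw [h1, setLIntegral_const]
  have h2 : volume (SS n) ≤ ENNReal.ofReal ((2 * (NN n : ℝ)) ^ 2 * (Real.pi * rr n ^ 2)) := by
    unfold SS
    refine (measure_iUnion_le _).trans ?_
    rw [tsum_fintype]
    have h3 : ∀ k : Fin (2 * NN n) × Fin (2 * NN n), volume (ball (fc n k) (rr n))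
        = ENNReal.ofReal (Real.pi * rr n ^ 2) := fun k => vol_ball _ (rr_pos' n)
    rw [Finset.sum_congr rfl (fun k _ => h3 k), Finset.sum_const, nsmul_eq_mul,
      ← ENNReal.ofReal_natCast, ← ENNReal.ofReal_mul (by positivity)]
    apply ENNReal.ofReal_le_ofReal
    rw [Finset.card_univ, Fintype.card_prod, Fintype.card_fin]
    push_cast
    apply le_of_eq
    ring
  calc ENNReal.ofReal (((KK n : ℝ) * 4 ^ (KK n))⁻¹) * volume (SS n)
      ≤ ENNReal.ofReal (((KK n : ℝ) * 4 ^ (KK n))⁻¹) *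
        ENNReal.ofReal ((2 * (NN n : ℝ)) ^ 2 * (Real.pi * rr n ^ 2)) := by gcongr
    _ = _ := by
      rw [← ENNReal.ofReal_mul (by positivity)]
      congr 1
      ring

lemma lintegral_g_ge (n : ℕ) :
    ENNReal.ofReal ((NN n : ℝ) ^ 2 * (Real.pi * rr n ^ 2) * (gl n ^ 2 * (KK n * 4 ^ (KK n)))) ≤
    (∫⁻ x, ENNReal.ofReal ((gg n x) ^ 2 * ww n x)) := by
  have hK : (0 : ℝ) < KK n := by exact_mod_cast KK_ge n
  have hdisj : Pairwise (Function.onFun Disjoint
      fun i : Fin (NN n) × Fin (NN n) => ball (ee n i) (rr n)) := by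
    intro k l hkl
    apply Metric.ball_disjoint_ball
    have h1 := ee_sep n k l hkl
    have h2 := mm_real_ge n
    have h3 := rr_le_half n
    linarith
  have h1 : (∫⁻ x in ⋃ i : Fin (NN n) × Fin (NN n), ball (ee n i) (rr n),
      ENNReal.ofReal ((gg n x) ^ 2 * ww n x)) ≤
      (∫⁻ x, ENNReal.ofReal ((gg n x) ^ 2 * ww n x)) := setLIntegral_le_lintegral _ _
  refine le_trans ?_ h1
  rw [lintegral_iUnion (fun _ => measurableSet_ball) hdisj, tsum_fintype]
  have h2 : ∀ i : Fin (NN n) × Fin (NN n),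
      ENNReal.ofReal ((Real.pi * rr n ^ 2) * (gl n ^ 2 * (KK n * 4 ^ (KK n)))) ≤
      ∫⁻ x in ball (ee n i) (rr n), ENNReal.ofReal ((gg n x) ^ 2 * ww n x) := by
    intro i
    have h3 : ENNReal.ofReal ((Real.pi * rr n ^ 2) * (gl n ^ 2 * (KK n * 4 ^ (KK n))))
        = ∫⁻ x in ball (ee n i) (rr n), ENNReal.ofReal (gl n ^ 2 * (KK n * 4 ^ (KK n))) := by
      rw [setLIntegral_const, vol_ball _ (rr_pos' n), ← ENNReal.ofReal_mul (by positivity)]
      congr 1
      ring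
    rw [h3]
    apply lintegral_mono_ae
    have hne : ∀ᵐ x ∂(volume.restrict (ball (ee n i) (rr n))), x ≠ ee n i := by
      apply ae_restrict_of_ae
      rw [ae_iff]
      simp
    filter_upwards [ae_restrict_mem measurableSet_ball, hne] with x hx hx2
    rw [mem_ball] at hx
    apply ENNReal.ofReal_le_ofReal
    rw [ww_core_e n i x hx]
    have h4 := gg_lower hx hx2
    have h5 := gl_nonneg n
    have h6 : gl n ^ 2 ≤ gg n x ^ 2 := pow_le_pow_left₀ h5 h4 2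
    exact mul_le_mul_of_nonneg_right h6 (by positivity)
  refine le_trans (le_of_eq ?_) (Finset.sum_le_sum fun i _ => h2 i)
  rw [Finset.sum_const, nsmul_eq_mul, ← ENNReal.ofReal_natCast,
    ← ENNReal.ofReal_mul (by positivity), Finset.card_univ, Fintype.card_prod, Fintype.card_fin]
  congr 1
  push_cast
  ring

/-- The final numerical contradiction. -/
lemma final_numeric (n : ℕ) (C : ℝ)
    (h : (∫⁻ x, ENNReal.ofReal ((gg n x) ^ 2 * ww n x)) ≤
      ENNReal.ofReal (C * AA n ^ 4) * (∫⁻ x, ENNReal.ofReal ((ff n x) ^ 2 * ww n x))) :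
    (mm n : ℝ) ^ 4 ≤ C * 83521 ^ 4 := by
  have hK : (0 : ℝ) < KK n := by exact_mod_cast KK_ge n
  have hpi := Real.pi_gt_three
  have hm := mm_real_ge n
  have hm0 : (0 : ℝ) < mm n := by linarith
  have hr := rr_pos n
  have hN : (0 : ℝ) < NN n := by unfold NN; positivity
  have h1 := (lintegral_g_ge n).trans (h.trans (mul_le_mul_right (lintegral_f_le n) _))
  rw [← ENNReal.ofReal_mul' (by positivity), ENNReal.ofReal_le_ofReal_iff'] at h1
  have hgl : 0 < gl n := by unfold gl; positivity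
  rcases h1 with h1 | h1
  swap
  · exfalso
    have : 0 < (NN n : ℝ) ^ 2 * (Real.pi * rr n ^ 2) * (gl n ^ 2 * (KK n * 4 ^ (KK n))) := by
      positivity
    linarith
  have h4K : (0 : ℝ) < (4 : ℝ) ^ (KK n) := by positivity
  -- simplify
  have h2 : (NN n : ℝ) ^ 2 * (Real.pi * rr n ^ 2) * (gl n ^ 2 * (KK n * 4 ^ (KK n)) ^ 2) ≤
      (NN n : ℝ) ^ 2 * (Real.pi * rr n ^ 2) * (4 * (C * AA n ^ 4)) := by
    have h3 := mul_le_mul_of_nonneg_right h1
      (show (0 : ℝ) ≤ KK n * 4 ^ (KK n) by positivity)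
    have h4 : C * AA n ^ 4 * ((2 * (NN n : ℝ)) ^ 2 * (Real.pi * rr n ^ 2) *
        ((KK n : ℝ) * 4 ^ (KK n))⁻¹) * (KK n * 4 ^ (KK n))
        = (NN n : ℝ) ^ 2 * (Real.pi * rr n ^ 2) * (4 * (C * AA n ^ 4)) := by
      field_simp
      ring
    rw [h4] at h3
    refine le_trans (le_of_eq ?_) h3
    ring
  have h5 : gl n ^ 2 * (KK n * 4 ^ (KK n)) ^ 2 ≤ 4 * (C * AA n ^ 4) :=
    le_of_mul_le_mul_left h2 (by positivity)
  have h6 : gl n * (KK n * 4 ^ (KK n)) = 2 * Real.pi * (mm n : ℝ) ^ 10 := by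
    unfold gl
    have h7 := rr_sq n
    calc KK n * (Real.pi * rr n ^ 2) * ((mm n : ℝ) ^ 2 / 128) * (KK n * 4 ^ (KK n))
        = (KK n : ℝ) ^ 2 * Real.pi * ((mm n : ℝ) ^ 2 / 128) * (rr n ^ 2 * 4 ^ (KK n)) := by ring
      _ = (16 * (mm n : ℝ) ^ 4) ^ 2 * Real.pi * ((mm n : ℝ) ^ 2 / 128) := by
          rw [h7, KK_real]; ring
      _ = 2 * Real.pi * (mm n : ℝ) ^ 10 := by ring
  have h7 : (2 * Real.pi * (mm n : ℝ) ^ 10) ^ 2 ≤ 4 * (C * AA n ^ 4) := by
    rw [← h6, mul_pow]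
    exact h5
  unfold AA at h7
  have h8 : (mm n : ℝ) ^ 16 * (Real.pi ^ 2 * (mm n : ℝ) ^ 4) ≤ (mm n : ℝ) ^ 16 * (C * 83521 ^ 4) := by
    nlinarith
  have h9 : Real.pi ^ 2 * (mm n : ℝ) ^ 4 ≤ C * 83521 ^ 4 :=
    le_of_mul_le_mul_left h8 (by positivity)
  have h10 : (mm n : ℝ) ^ 4 ≤ Real.pi ^ 2 * (mm n : ℝ) ^ 4 := by
    have : (1 : ℝ) ≤ Real.pi ^ 2 := by nlinarith
    have h4 : (0 : ℝ) < (mm n : ℝ) ^ 4 := by positivity
    nlinarith
  linarith

end Pool.Agent.helper36.R
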