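import Mathlib

/-!
Compound matrices (matrices of `k × k` minors) and their compatibility with real powers.
-/

namespace Pool.Agent.helper36.DetIneq

open Matrix Polynomial
open scoped MatrixOrder ComplexOrder

section diag

variable {ι : Type*} [Fintype ι] [DecidableEq ι]

/-- The algebra homomorphism `v ↦ V * diagonal v * Vᴴ` for a unitary matrix `V`. -/
noncomputable def conjDiag (V : Matrix ι ι ℂ) (hV : Vᴴ * V = 1) :
    (ι → ℂ) →ₐ[ℝ] Matrix ι ι ℂ where
  toFun v := V * diagonal v * Vᴴ
  map_one' := by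
    change V * diagonal (fun _ => 1) * Vᴴ = 1
    rw [diagonal_one, mul_one, mul_eq_one_comm.mp hV]
  map_mul' v w := by
    have : V * diagonal v * Vᴴ * (V * diagonal w * Vᴴ) =
        V * diagonal v * (Vᴴ * V) * diagonal w * Vᴴ := by simp only [mul_assoc]
    rw [this, hV, mul_one, mul_assoc V (diagonal v), diagonal_mul_diagonal]
    rfl
  map_zero' := by
    simp
  map_add' v w := by
    change V * diagonal (fun i => v i + w i) * Vᴴ = _
    rw [← diagonal_add, mul_add, add_mul]
  commutes' r := by
    have : (algebraMap ℝ (ι → ℂ) r) = fun _ => (r : ℂ) := by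
      ext i; simp
    rw [this]
    have h2 : diagonal (fun _ : ι => (r : ℂ)) = (r : ℂ) • (1 : Matrix ι ι ℂ) := by
      rw [smul_one_eq_diagonal]
    rw [h2, mul_smul_comm, mul_one, smul_mul_assoc, mul_eq_one_comm.mp hV]
    rw [Algebra.algebraMap_eq_smul_one]
    ext i j
    simp

lemma conjDiag_apply (V : Matrix ι ι ℂ) (hV : Vᴴ * V = 1) (v : ι → ℂ) :
    conjDiag V hV v = V * diagonal v * Vᴴ := rfl

lemma cfc_conj_diag (V : Matrix ι ι ℂ) (hV : Vᴴ * V = 1) (d : ι → ℝ) (f : ℝ → ℝ) :
    cfc f (V * diagonal (fun i => (d i : ℂ)) * Vᴴ) =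
      V * diagonal (fun i => (f (d i) : ℂ)) * Vᴴ := by
  set A : Matrix ι ι ℂ := V * diagonal (fun i => (d i : ℂ)) * Vᴴ with hA
  have hAs : IsSelfAdjoint A := by
    rw [IsSelfAdjoint, star_eq_conjTranspose, hA, conjTranspose_mul, conjTranspose_mul,
      conjTranspose_conjTranspose, diagonal_conjTranspose, mul_assoc]
    congr 3
    ext i
    simp
  classical
  set S : Finset ℝ := (Matrix.finite_real_spectrum (A := A)).toFinset ∪ Finset.univ.image d with hS
  set P : ℝ[X] := Lagrange.interpolate S id f with hP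
  have hPe : ∀ x ∈ S, P.eval x = f x := fun x hx =>
    Lagrange.eval_interpolate_at_node (v := id) f (Set.injOn_id _) hx
  have h1 : cfc f A = cfc P.eval A := by
    refine cfc_congr ?_
    intro x hx
    refine (hPe x ?_).symm
    rw [hS, Finset.mem_union]
    left
    simpa using hx
  rw [h1, cfc_polynomial P A hAs]
  have h2 : A = conjDiag V hV (fun i => (d i : ℂ)) := rfl
  rw [h2, Polynomial.aeval_algHom_apply, conjDiag_apply]
  congr 2
  ext i j
  by_cases hij : i = j
  · subst hij
    simp only [diagonal_apply_eq]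
    have h3 : aeval (fun i => (d i : ℂ)) P i = aeval ((d i : ℂ)) P := by
      have := Polynomial.aeval_algHom_apply (Pi.evalAlgHom ℝ (fun _ : ι => ℂ) i)
        (fun i => (d i : ℂ)) P
      simpa using this.symm
    rw [h3]
    have h4 : aeval ((d i : ℂ)) P = ((P.eval (d i) : ℝ) : ℂ) := by
      have := Polynomial.aeval_algebraMap_apply ℂ (d i) P
      simpa using this
    rw [h4, hPe]
    rw [hS, Finset.mem_union]
    right
    exact Finset.mem_image_of_mem _ (Finset.mem_univ i)
  · simp [diagonal_apply_ne _ hij]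

/-- Real powers of a positive semidefinite matrix given in diagonalised form. -/
lemma rpow_conj_diag (V : Matrix ι ι ℂ) (hV : Vᴴ * V = 1) (d : ι → ℝ) (hd : ∀ i, 0 ≤ d i)
    (x : ℝ) :
    (V * diagonal (fun i => (d i : ℂ)) * Vᴴ) ^ x =
      V * diagonal (fun i => ((d i ^ x : ℝ) : ℂ)) * Vᴴ := by
  have hpos : 0 ≤ V * diagonal (fun i => (d i : ℂ)) * Vᴴ := by
    rw [nonneg_iff_posSemidef]
    apply PosSemidef.mul_mul_conjTranspose_same
    rw [posSemidef_diagonal_iff]
    intro i
    exact_mod_cast hd i
  rw [CFC.rpow_eq_cfc_real hpos]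
  exact cfc_conj_diag V hV d (fun t => t ^ x)

end diag

section compound

variable {n : ℕ}

/-- The `k`-th compound matrix: the matrix of all `k × k` minors. -/
noncomputable def compound (k : ℕ) (M : Matrix (Fin n) (Fin n) ℂ) :
    Matrix (Set.powersetCard (Fin n) k) (Set.powersetCard (Fin n) k) ℂ :=
  Matrix.of fun s t => (M.submatrix (Set.powersetCard.ofFinEmbEquiv.symm s)
    (Set.powersetCard.ofFinEmbEquiv.symm t)).det

lemma compound_eq_toMatrix (k : ℕ) (M : Matrix (Fin n) (Fin n) ℂ) :
    compound k M = LinearMap.toMatrix ((Pi.basisFun ℂ (Fin n)).exteriorPower k)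
      ((Pi.basisFun ℂ (Fin n)).exteriorPower k) (exteriorPower.map k (Matrix.toLin' M)) := by
  ext s t
  rw [LinearMap.toMatrix_apply, exteriorPower.basis_apply, exteriorPower.map_apply_ιMulti_family,
    exteriorPower.basis_repr_apply, exteriorPower.ιMulti_family,
    exteriorPower.ιMultiDual_apply_ιMulti, ← Matrix.det_transpose]
  unfold compound
  simp only [Matrix.of_apply]
  congr 1
  ext i j
  simp

lemma compound_mul (k : ℕ) (M N : Matrix (Fin n) (Fin n) ℂ) :
    compound k (M * N) = compound k M * compound k N := by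
  rw [compound_eq_toMatrix, compound_eq_toMatrix, compound_eq_toMatrix, Matrix.toLin'_mul,
    exteriorPower.map_comp, LinearMap.toMatrix_comp _ ((Pi.basisFun ℂ (Fin n)).exteriorPower k)]

lemma compound_one (k : ℕ) : compound k (1 : Matrix (Fin n) (Fin n) ℂ) = 1 := by
  rw [compound_eq_toMatrix, Matrix.toLin'_one, exteriorPower.map_id, LinearMap.toMatrix_id]

lemma compound_conjTranspose (k : ℕ) (M : Matrix (Fin n) (Fin n) ℂ) :
    compound k Mᴴ = (compound k M)ᴴ := by
  ext s t
  simp only [compound, Matrix.of_apply, Matrix.conjTranspose_apply, ← Matrix.det_conjTranspose]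
  rfl


lemma compound_diagonal (k : ℕ) (v : Fin n → ℂ) :
    compound k (diagonal v) = diagonal (fun s => ∏ i : Fin k,
      v (Set.powersetCard.ofFinEmbEquiv.symm s i)) := by
  ext s t
  by_cases hst : s = t
  · subst hst
    simp only [compound, Matrix.of_apply, diagonal_apply_eq]
    rw [submatrix_diagonal _ _ (Set.powersetCard.ofFinEmbEquiv.symm s).injective, det_diagonal]
    rfl
  · rw [diagonal_apply_ne _ hst]
    simp only [compound, Matrix.of_apply]
    obtain ⟨i, his, hit⟩ := (Set.powersetCard.exists_mem_notMem_iff_ne s t).mp hst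
    obtain ⟨a, rfl⟩ := (Set.powersetCard.mem_range_ofFinEmbEquiv_symm_iff_mem s i).mpr his
    apply Matrix.det_eq_zero_of_row_eq_zero a
    intro j
    rw [submatrix_apply, diagonal_apply_ne]
    intro h
    apply hit
    rw [h]
    exact (Set.powersetCard.mem_range_ofFinEmbEquiv_symm_iff_mem t _).mp ⟨j, rfl⟩

/-- Spectral decomposition with sorted eigenvalues. -/
lemma exists_diag (A : Matrix (Fin n) (Fin n) ℂ) (hA : A.PosSemidef) :
    ∃ V : Matrix (Fin n) (Fin n) ℂ, Vᴴ * V = 1 ∧ ∃ d : Fin n → ℝ, (∀ i, 0 ≤ d i) ∧ Antitone d ∧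
      A = V * diagonal (fun i => (d i : ℂ)) * Vᴴ := by
  set U : Matrix (Fin n) (Fin n) ℂ := hA.isHermitian.eigenvectorUnitary.1 with hU
  set e : Fin n → ℝ := hA.isHermitian.eigenvalues with he
  have hUU : Uᴴ * U = 1 := by
    have := hA.isHermitian.eigenvectorUnitary.2
    rw [Matrix.mem_unitaryGroup_iff'] at this
    exact this
  have hAe : A = U * diagonal (fun i => (e i : ℂ)) * Uᴴ := by
    have := hA.isHermitian.spectral_theorem
    rw [Unitary.conjStarAlgAut_apply] at this
    exact this
  set σ : Equiv.Perm (Fin n) := Tuple.sort (fun i => - e i) with hσ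
  have hmono : Monotone ((fun i => - e i) ∘ σ) := Tuple.monotone_sort _
  refine ⟨U.submatrix id σ, ?_, e ∘ σ, ?_, ?_, ?_⟩
  · ext i j
    rw [conjTranspose_submatrix, Matrix.mul_apply]
    simp only [submatrix_apply, id_eq]
    have := congrFun (congrFun hUU (σ i)) (σ j)
    rw [Matrix.mul_apply] at this
    rw [this]
    simp [Matrix.one_apply]
  · intro i
    exact hA.eigenvalues_nonneg _
  · intro i j hij
    have := hmono hij
    simp only [Function.comp_apply] at this ⊢
    linarith
  · rw [hAe]
    ext i j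
    rw [Matrix.mul_apply, Matrix.mul_apply]
    simp only [mul_diagonal, submatrix_apply, id_eq, Function.comp_apply, conjTranspose_apply]
    exact (Equiv.sum_comp σ (fun x => U i x * (e x : ℂ) * star (U j x))).symm

lemma compound_conj (k : ℕ) (V D : Matrix (Fin n) (Fin n) ℂ) :
    compound k (V * D * Vᴴ) = compound k V * compound k D * (compound k V)ᴴ := by
  rw [compound_mul, compound_mul, compound_conjTranspose]

lemma compound_unitary (k : ℕ) (V : Matrix (Fin n) (Fin n) ℂ) (hV : Vᴴ * V = 1) :
    (compound k V)ᴴ * compound k V = 1 := by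
  rw [← compound_conjTranspose, ← compound_mul, hV, compound_one]

lemma compound_diag_real (k : ℕ) (d : Fin n → ℝ) :
    compound k (diagonal (fun i => (d i : ℂ))) = diagonal (fun s => ((∏ i : Fin k,
      d (Set.powersetCard.ofFinEmbEquiv.symm s i) : ℝ) : ℂ)) := by
  rw [compound_diagonal]
  congr 1
  ext s
  push_cast
  rfl

/-- Compounds commute with real powers on positive semidefinite matrices. -/
lemma compound_rpow (k : ℕ) (A : Matrix (Fin n) (Fin n) ℂ) (hA : A.PosSemidef) (x : ℝ) :
    compound k (A ^ x) = (compound k A) ^ x := by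
  obtain ⟨V, hV, d, hd, -, rfl⟩ := exists_diag A hA
  rw [rpow_conj_diag V hV d hd x, compound_conj, compound_conj, compound_diag_real,
    compound_diag_real, rpow_conj_diag _ (compound_unitary k V hV) _
    (fun s => Finset.prod_nonneg fun i _ => hd _)]
  congr 3
  ext s
  congr 1
  rw [Real.finsetProd_rpow _ _ (fun i _ => hd _)]

lemma compound_posSemidef (k : ℕ) (A : Matrix (Fin n) (Fin n) ℂ) (hA : A.PosSemidef) :
    (compound k A).PosSemidef := by
  obtain ⟨V, hV, d, hd, -, rfl⟩ := exists_diag A hA
  rw [compound_conj, compound_diag_real]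
  apply PosSemidef.mul_mul_conjTranspose_same
  rw [posSemidef_diagonal_iff]
  intro s
  exact_mod_cast Finset.prod_nonneg fun i _ => hd _

lemma compound_isUnit (k : ℕ) (A : Matrix (Fin n) (Fin n) ℂ) (hA : IsUnit A) :
    IsUnit (compound k A) := by
  obtain ⟨u, rfl⟩ := hA
  refine ⟨⟨compound k u, compound k (↑u⁻¹ : Matrix _ _ ℂ), ?_, ?_⟩, rfl⟩
  · rw [← compound_mul, Units.mul_inv, compound_one]
  · rw [← compound_mul, Units.inv_mul, compound_one]

lemma compound_isStrictlyPositive (k : ℕ) (A : Matrix (Fin n) (Fin n) ℂ)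
    (hA : IsStrictlyPositive A) : IsStrictlyPositive (compound k A) := by
  refine IsStrictlyPositive.iff_of_unital.mpr ⟨?_, compound_isUnit k A hA.isUnit⟩
  rw [nonneg_iff_posSemidef]
  exact compound_posSemidef k A (nonneg_iff_posSemidef.mp hA.nonneg)

end compound

end Pool.Agent.helper36.DetIneq
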