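import Mathlib

/-!
A weak log-majorisation inequality: if `∏_{i<k} b i ≤ ∏_{i<k} a i` for all `k ≤ n` and `b` is
antitone, then `∏ (1 + b i) ≤ ∏ (1 + a i)`.
-/

namespace Pool.Agent.helper36.DetIneq

open Finset

lemma abel_aux (c δ : ℕ → ℝ) (n : ℕ) (hcmono : ∀ i, i + 1 < n → c (i + 1) ≤ c i)
    (hδ : ∀ k ≤ n, 0 ≤ ∑ i ∈ range k, δ i) :
    ∀ m, m + 1 ≤ n → c m * ∑ i ∈ range (m + 1), δ i ≤ ∑ i ∈ range (m + 1), c i * δ i := by
  intro m
  induction m with
  | zero => intro _; simp
  | succ m ih =>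
    intro hm
    have h1 := ih (by omega)
    rw [sum_range_succ _ (m + 1), sum_range_succ (fun i => c i * δ i) (m + 1), mul_add]
    have h2 : c (m + 1) * ∑ i ∈ range (m + 1), δ i ≤ c m * ∑ i ∈ range (m + 1), δ i :=
      mul_le_mul_of_nonneg_right (hcmono m (by omega)) (hδ (m + 1) (by omega))
    linarith

lemma abel (c δ : ℕ → ℝ) (n : ℕ) (hc : ∀ i < n, 0 ≤ c i)
    (hcmono : ∀ i, i + 1 < n → c (i + 1) ≤ c i)
    (hδ : ∀ k ≤ n, 0 ≤ ∑ i ∈ range k, δ i) : 0 ≤ ∑ i ∈ range n, c i * δ i := by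
  rcases Nat.eq_zero_or_pos n with h | h
  · subst h; simp
  · obtain ⟨m, rfl⟩ : ∃ m, n = m + 1 := ⟨n - 1, by omega⟩
    exact (mul_nonneg (hc m (by omega)) (hδ (m + 1) le_rfl)).trans
      (abel_aux c δ (m + 1) hcmono hδ m le_rfl)

lemma log_aux (a b : ℝ) (ha : 0 < a) (hb : 0 < b) :
    b / (1 + b) * (Real.log a - Real.log b) ≤ Real.log (1 + a) - Real.log (1 + b) := by
  have h1b : 0 < 1 + b := by linarith
  have h1a : 0 < 1 + a := by linarith
  have h := Real.geom_mean_le_arith_mean2_weighted (w₁ := 1 / (1 + b)) (w₂ := b / (1 + b))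
    (p₁ := 1) (p₂ := a / b) (by positivity) (by positivity) (by positivity) (by positivity)
    (by field_simp)
  rw [Real.one_rpow, one_mul] at h
  have h2 : 1 / (1 + b) * 1 + b / (1 + b) * (a / b) = (1 + a) / (1 + b) := by
    field_simp
  rw [h2] at h
  have h3 := Real.log_le_log (by positivity) h
  rw [Real.log_rpow (by positivity), Real.log_div h1a.ne' h1b.ne', Real.log_div ha.ne' hb.ne'] at h3
  exact h3

theorem prod_one_add_le (a b : ℕ → ℝ) (n : ℕ) (ha : ∀ i < n, 0 < a i) (hb : ∀ i < n, 0 < b i)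
    (hbmono : ∀ i, i + 1 < n → b (i + 1) ≤ b i)
    (h : ∀ k ≤ n, ∏ i ∈ range k, b i ≤ ∏ i ∈ range k, a i) :
    ∏ i ∈ range n, (1 + b i) ≤ ∏ i ∈ range n, (1 + a i) := by
  have hA : ∀ i ∈ range n, 0 < 1 + a i := fun i hi => by
    have := ha i (mem_range.mp hi); linarith
  have hB : ∀ i ∈ range n, 0 < 1 + b i := fun i hi => by
    have := hb i (mem_range.mp hi); linarith
  rw [← Real.log_le_log_iff (prod_pos hB) (prod_pos hA),
    Real.log_prod (fun i hi => (hB i hi).ne'),
    Real.log_prod (fun i hi => (hA i hi).ne'), ← sub_nonneg, ← sum_sub_distrib]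
  have h1 : 0 ≤ ∑ i ∈ range n, b i / (1 + b i) * (Real.log (a i) - Real.log (b i)) := by
    refine abel (fun i => b i / (1 + b i)) (fun i => Real.log (a i) - Real.log (b i)) n ?_ ?_ ?_
    · intro i hi
      have := hb i hi
      positivity
    · intro i hi
      have h1 := hb i (by omega)
      have h2 := hb (i + 1) hi
      have h3 := hbmono i hi
      rw [div_le_div_iff₀ (by linarith) (by linarith)]
      nlinarith
    · intro k hk
      rw [sum_sub_distrib, sub_nonneg, ← Real.log_prod, ← Real.log_prod]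
      · refine Real.log_le_log (prod_pos fun i hi => ?_) (h k hk)
        exact hb i (by have := mem_range.mp hi; omega)
      · exact fun i hi => (ha i (by have := mem_range.mp hi; omega)).ne'
      · exact fun i hi => (hb i (by have := mem_range.mp hi; omega)).ne'
  refine h1.trans (sum_le_sum fun i hi => ?_)
  exact log_aux _ _ (ha i (mem_range.mp hi)) (hb i (mem_range.mp hi))

/-- The version for functions on `Fin n`. -/
theorem prod_one_add_le_fin {n : ℕ} (a b : Fin n → ℝ) (ha : ∀ i, 0 < a i) (hb : ∀ i, 0 < b i)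
    (hbmono : Antitone b)
    (h : ∀ k (hk : k ≤ n), ∏ i : Fin k, b (Fin.castLE hk i) ≤ ∏ i : Fin k, a (Fin.castLE hk i)) :
    ∏ i, (1 + b i) ≤ ∏ i, (1 + a i) := by
  set a' : ℕ → ℝ := fun i => if hi : i < n then a ⟨i, hi⟩ else 1 with ha'
  set b' : ℕ → ℝ := fun i => if hi : i < n then b ⟨i, hi⟩ else 1 with hb'
  have key := prod_one_add_le a' b' n ?_ ?_ ?_ ?_
  · rw [← Fin.prod_univ_eq_prod_range, ← Fin.prod_univ_eq_prod_range] at key
    simpa [ha', hb'] using key
  · intro i hi; simp only [ha', dif_pos hi]; exact ha _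
  · intro i hi; simp only [hb', dif_pos hi]; exact hb _
  · intro i hi
    simp only [hb', dif_pos hi, dif_pos (show i < n by omega)]
    exact hbmono (by simp [Fin.le_def])
  · intro k hk
    have := h k hk
    rw [← Fin.prod_univ_eq_prod_range, ← Fin.prod_univ_eq_prod_range]
    have e1 : ∀ i : Fin k, a' i = a (Fin.castLE hk i) := by
      intro i
      simp only [ha', dif_pos (show (i : ℕ) < n by omega)]
      rfl
    have e2 : ∀ i : Fin k, b' i = b (Fin.castLE hk i) := by
      intro i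
      simp only [hb', dif_pos (show (i : ℕ) < n by omega)]
      rfl
    simp only [e1, e2]
    exact this

end Pool.Agent.helper36.DetIneq
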