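import Pool.Agent.helper36.LamOne
import Pool.Agent.helper36.Compound
import Pool.Agent.helper36.Karamata

/-!
The determinant inequality for positive definite matrices.
-/

namespace Pool.Agent.helper36.DetIneq

open Matrix
open scoped MatrixOrder ComplexOrder Matrix.Norms.L2Operator

section norms

variable {ι : Type*} [Fintype ι] [DecidableEq ι]

lemma norm_conj_diag (V : Matrix ι ι ℂ) (hV : Vᴴ * V = 1) (v : ι → ℂ) :
    ‖V * diagonal v * Vᴴ‖ = ‖v‖ := by
  have hVu : V ∈ unitary (Matrix ι ι ℂ) := by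
    rw [Unitary.mem_iff, star_eq_conjTranspose]
    exact ⟨hV, mul_eq_one_comm.mp hV⟩
  have hVu' : Vᴴ ∈ unitary (Matrix ι ι ℂ) := by
    rw [← star_eq_conjTranspose]; exact Unitary.star_mem hVu
  have h1 := CStarRing.norm_mem_unitary_mul (diagonal v * Vᴴ) hVu
  have h2 := CStarRing.norm_mul_mem_unitary (diagonal v) hVu'
  rw [mul_assoc, h1, h2, l2_opNorm_diagonal]

end norms

variable {n : ℕ}

/-- The first `k` indices. -/
noncomputable def firstIdx {k : ℕ} (hk : k ≤ n) : Set.powersetCard (Fin n) k :=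
  Set.powersetCard.ofFinEmbEquiv (Fin.castLEOrderEmb hk)

lemma prod_firstIdx {k : ℕ} (hk : k ≤ n) (d : Fin n → ℝ) :
    ∏ i : Fin k, d (Set.powersetCard.ofFinEmbEquiv.symm (firstIdx hk) i) =
      ∏ i : Fin k, d (Fin.castLE hk i) := by
  rw [firstIdx, Equiv.symm_apply_apply]
  rfl

lemma le_orderEmb {k : ℕ} (hk : k ≤ n) (f : Fin k ↪o Fin n) (i : Fin k) :
    Fin.castLE hk i ≤ f i := by
  rw [Fin.le_def]
  simp only [Fin.val_castLE]
  obtain ⟨i, hi⟩ := i
  induction i with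
  | zero => simp
  | succ i ih =>
    have h1 := ih (by omega)
    have h2 : f ⟨i, by omega⟩ < f ⟨i + 1, hi⟩ := f.strictMono (by simp [Fin.lt_def])
    have h3 : ((f ⟨i, by omega⟩ : Fin n) : ℕ) < (f ⟨i + 1, hi⟩ : Fin n) := h2
    simp only at h1 ⊢
    omega

lemma prod_le_of_compound_norm_le (V W : Matrix (Fin n) (Fin n) ℂ) (hV : Vᴴ * V = 1)
    (hW : Wᴴ * W = 1) (a b : Fin n → ℝ) (ha : ∀ i, 0 ≤ a i) (hb : ∀ i, 0 ≤ b i)
    (hamono : Antitone a) {k : ℕ} (hk : k ≤ n)
    (h : ‖compound k (W * diagonal (fun i => (b i : ℂ)) * Wᴴ)‖ ≤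
      ‖compound k (V * diagonal (fun i => (a i : ℂ)) * Vᴴ)‖) :
    ∏ i : Fin k, b (Fin.castLE hk i) ≤ ∏ i : Fin k, a (Fin.castLE hk i) := by
  rw [compound_conj, compound_conj, compound_diag_real, compound_diag_real,
    norm_conj_diag _ (compound_unitary k W hW), norm_conj_diag _ (compound_unitary k V hV)] at h
  have h1 : ∏ i : Fin k, b (Fin.castLE hk i) ≤
      ‖(fun s : Set.powersetCard (Fin n) k =>
        ((∏ i : Fin k, b (Set.powersetCard.ofFinEmbEquiv.symm s i) : ℝ) : ℂ))‖ := by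
    have h2 := norm_le_pi_norm (fun s : Set.powersetCard (Fin n) k =>
        ((∏ i : Fin k, b (Set.powersetCard.ofFinEmbEquiv.symm s i) : ℝ) : ℂ)) (firstIdx hk)
    rw [prod_firstIdx, Complex.norm_real, Real.norm_of_nonneg
      (Finset.prod_nonneg fun i _ => hb _)] at h2
    exact h2
  refine (h1.trans h).trans ?_
  rw [pi_norm_le_iff_of_nonneg (Finset.prod_nonneg fun i _ => ha _)]
  intro s
  rw [Complex.norm_real, Real.norm_of_nonneg (Finset.prod_nonneg fun i _ => ha _)]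
  exact Finset.prod_le_prod (fun i _ => ha _) fun i _ => hamono (le_orderEmb hk _ i)

lemma det_one_add_conj_diag (V : Matrix (Fin n) (Fin n) ℂ) (hV : Vᴴ * V = 1) (a : Fin n → ℝ) :
    (1 + V * diagonal (fun i => (a i : ℂ)) * Vᴴ).det = ((∏ i, (1 + a i) : ℝ) : ℂ) := by
  have hV' : V * Vᴴ = 1 := mul_eq_one_comm.mp hV
  have h1 : 1 + V * diagonal (fun i => (a i : ℂ)) * Vᴴ =
      V * diagonal (fun i => (1 + (a i : ℂ))) * Vᴴ := by
    rw [← diagonal_add, diagonal_one, mul_add, add_mul, mul_one, hV']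
  rw [h1, det_mul, det_mul, mul_comm V.det, mul_assoc, ← det_mul, hV', det_one, mul_one,
    det_diagonal]
  push_cast
  rfl

/-- Weak log-majorisation in terms of compounds implies the determinant inequality. -/
theorem det_one_add_le (P Q : Matrix (Fin n) (Fin n) ℂ) (hP : P.PosDef) (hQ : Q.PosDef)
    (h : ∀ k, k ≤ n → ‖compound k Q‖ ≤ ‖compound k P‖) :
    (1 + Q).det ≤ (1 + P).det := by
  obtain ⟨V, hV, a, ha, hamono, hPe⟩ := exists_diag P hP.posSemidef
  obtain ⟨W, hW, b, hb, hbmono, hQe⟩ := exists_diag Q hQ.posSemidef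
  have hpos : ∀ (V : Matrix (Fin n) (Fin n) ℂ) (hV : Vᴴ * V = 1) (a : Fin n → ℝ)
      (_ : ∀ i, 0 ≤ a i), (V * diagonal (fun i => (a i : ℂ)) * Vᴴ).PosDef → ∀ i, 0 < a i := by
    intro V hV a ha hPD
    have hdet := hPD.det_pos
    have hV' : V * Vᴴ = 1 := mul_eq_one_comm.mp hV
    rw [det_mul, det_mul, mul_comm V.det, mul_assoc, ← det_mul, hV', det_one, mul_one,
      det_diagonal] at hdet
    intro i
    refine lt_of_le_of_ne (ha i) fun h0 => ?_
    rw [Finset.prod_eq_zero (Finset.mem_univ i) (by rw [← h0]; simp)] at hdet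
    exact lt_irrefl _ hdet
  have ha' : ∀ i, 0 < a i := hpos V hV a ha (hPe ▸ hP)
  have hb' : ∀ i, 0 < b i := hpos W hW b hb (hQe ▸ hQ)
  rw [hPe, hQe, det_one_add_conj_diag V hV, det_one_add_conj_diag W hW]
  have := prod_one_add_le_fin a b ha' hb' hbmono ?_
  · exact_mod_cast this
  · intro k hk
    apply prod_le_of_compound_norm_le V W hV hW a b ha hb hamono hk
    rw [← hPe, ← hQe]
    exact h k hk

/-- The comparison of compounds. -/
theorem compound_norm_le (A B : Matrix (Fin n) (Fin n) ℂ) (hA : IsStrictlyPositive A)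
    (hB : IsStrictlyPositive B) (q : ℝ) (hq0 : 0 ≤ q) (hq1 : q ≤ 1) (k : ℕ) :
    ‖compound k (A ^ (-(1 - q)) * B ^ (2 * q) * A ^ (-(1 - q)))‖ ≤
      ‖compound k (A ^ (-1 : ℝ) * (B * (A * A) * B) ^ q * A ^ (-1 : ℝ))‖ := by
  have hA' : A.PosSemidef := nonneg_iff_posSemidef.mp hA.nonneg
  have hB' : B.PosSemidef := nonneg_iff_posSemidef.mp hB.nonneg
  have hY : (B * (A * A) * B).PosSemidef := by
    have h1 : B * (A * A) * B = (A * B)ᴴ * (A * B) := by
      rw [conjTranspose_mul, hA'.isHermitian.eq, hB'.isHermitian.eq]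
      simp only [mul_assoc]
    rw [h1]
    exact posSemidef_conjTranspose_mul_self _
  rw [compound_mul, compound_mul, compound_rpow k A hA', compound_rpow k B hB',
    compound_mul, compound_mul, compound_rpow k A hA', compound_rpow k _ hY,
    compound_mul, compound_mul, compound_mul]
  exact lam_one (compound k A) (compound k B) (compound_isStrictlyPositive k A hA)
    (compound_isStrictlyPositive k B hB) q hq0 hq1

/-- Powers of the modulus. -/
lemma abs_rpow (X : Matrix (Fin n) (Fin n) ℂ) (p : ℝ) (hp : 0 ≤ p) :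
    (CFC.abs X) ^ p = (star X * X) ^ (p / 2) := by
  have h0 : 0 ≤ star X * X := star_mul_self_nonneg X
  rw [CFC.abs, CFC.sqrt_eq_rpow, CFC.rpow_rpow_of_exponent_nonneg _ _ _ (by norm_num) hp h0]
  congr 1; ring

lemma rpow_det_mul (A : Matrix (Fin n) (Fin n) ℂ) (hA : IsStrictlyPositive A) (x y : ℝ)
    (hxy : x + y = 2) : (A ^ x).det * (A ^ y).det = (A ^ 2).det := by
  rw [← det_mul, ← CFC.rpow_add hA.isUnit, hxy]
  congr 1
  have := CFC.rpow_natCast A 2 hA.nonneg
  exact_mod_cast this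

/-- The determinant inequality for positive definite matrices. -/
theorem det_ineq_posDef (A B : Matrix (Fin n) (Fin n) ℂ) (hA : IsStrictlyPositive A)
    (hB : IsStrictlyPositive B) (p : ℝ) (hp0 : 0 ≤ p) (hp2 : p ≤ 2) :
    0 ≤ (A ^ 2 + A ^ p * B ^ p).det ∧
      (A ^ 2 + A ^ p * B ^ p).det ≤ (A ^ 2 + (CFC.abs (A * B)) ^ p).det := by
  have hA' : A.PosSemidef := nonneg_iff_posSemidef.mp hA.nonneg
  have hB' : B.PosSemidef := nonneg_iff_posSemidef.mp hB.nonneg
  set q := p / 2 with hq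
  have hq0 : 0 ≤ q := by positivity
  have hq1 : q ≤ 1 := by rw [hq]; linarith
  have hpq : p = 2 * q := by rw [hq]; ring
  set Y := B * (A * A) * B with hYdef
  have hYs : star (A * B) * (A * B) = Y := by
    rw [star_mul, hA.nonneg.star_eq, hB.nonneg.star_eq, hYdef]
    simp only [mul_assoc]
  have hYpos : IsStrictlyPositive Y := by
    have h1 : IsStrictlyPositive (A * A) := by
      have := hA.rpow A 2
      rwa [rpow_two' A hA] at this
    exact IsStrictlyPositive.conjugate_of_isUnit_of_isSelfAdjoint _ _ hB.isUnit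
      hB.nonneg.isSelfAdjoint h1
  set P := A ^ (-1 : ℝ) * Y ^ q * A ^ (-1 : ℝ) with hP
  set Q := A ^ (-(1 - q)) * B ^ (2 * q) * A ^ (-(1 - q)) with hQ
  have hPpos : IsStrictlyPositive P :=
    IsStrictlyPositive.conjugate_of_isUnit_of_isSelfAdjoint _ _ (hA.rpow A _).isUnit
      (hA.rpow A _).nonneg.isSelfAdjoint (hYpos.rpow Y _)
  have hQpos : IsStrictlyPositive Q :=
    IsStrictlyPositive.conjugate_of_isUnit_of_isSelfAdjoint _ _ (hA.rpow A _).isUnit
      (hA.rpow A _).nonneg.isSelfAdjoint (hB.rpow B _)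
  have hPQ : (1 + Q).det ≤ (1 + P).det :=
    det_one_add_le P Q (isStrictlyPositive_iff_posDef.mp hPpos)
      (isStrictlyPositive_iff_posDef.mp hQpos)
      fun k _ => compound_norm_le A B hA hB q hq0 hq1 k
  -- rewrite the two sides
  have hAA : ∀ x y : ℝ, x + y = 2 → A ^ x * A ^ y = A ^ 2 := by
    intro x y hxy
    rw [← CFC.rpow_add hA.isUnit, hxy]
    have := CFC.rpow_natCast A 2 hA.nonneg
    exact_mod_cast this
  have hcancel : ∀ x : ℝ, A ^ x * A ^ (-x) = 1 := fun x => CFC.rpow_mul_rpow_neg x hA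
  have hcancel' : ∀ x : ℝ, A ^ (-x) * A ^ x = 1 := fun x => CFC.rpow_neg_mul_rpow x hA
  have hL : A ^ 2 + A ^ p * B ^ p = A ^ (1 + q) * (1 + Q) * A ^ (1 - q) := by
    rw [mul_add, add_mul, mul_one, hAA _ _ (by ring)]
    congr 1
    have e1 : A ^ (1 + q) * A ^ (-(1 - q)) = A ^ p := by
      rw [← CFC.rpow_add hA.isUnit, hpq]; congr 1; ring
    calc A ^ p * B ^ p = (A ^ (1 + q) * A ^ (-(1 - q))) * B ^ (2 * q) *
          (A ^ (-(1 - q)) * A ^ (1 - q)) := by rw [e1, hcancel', mul_one, ← hpq]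
      _ = A ^ (1 + q) * Q * A ^ (1 - q) := by rw [hQ]; simp only [mul_assoc]
  have hR : A ^ 2 + (CFC.abs (A * B)) ^ p = A ^ (1 : ℝ) * (1 + P) * A ^ (1 : ℝ) := by
    rw [mul_add, add_mul, mul_one, hAA _ _ (by norm_num), abs_rpow _ p hp0, hYs]
    congr 1
    calc Y ^ (p / 2) = (A ^ (1 : ℝ) * A ^ (-1 : ℝ)) * Y ^ q * (A ^ (-1 : ℝ) * A ^ (1 : ℝ)) := by
          rw [hcancel, hcancel', mul_one, one_mul]
      _ = A ^ (1 : ℝ) * P * A ^ (1 : ℝ) := by rw [hP]; simp only [mul_assoc]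
  have hdL : (A ^ 2 + A ^ p * B ^ p).det = (A ^ 2).det * (1 + Q).det := by
    rw [hL, det_mul, det_mul, ← rpow_det_mul A hA (1 + q) (1 - q) (by ring)]; ring
  have hdR : (A ^ 2 + (CFC.abs (A * B)) ^ p).det = (A ^ 2).det * (1 + P).det := by
    rw [hR, det_mul, det_mul, ← rpow_det_mul A hA 1 1 (by norm_num)]; ring
  have hdet0 : 0 ≤ (A ^ 2).det := by
    rw [sq]
    have h1 : (A * A).PosSemidef := by
      have := posSemidef_conjTranspose_mul_self A
      rwa [hA'.isHermitian.eq] at this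
    exact h1.det_nonneg
  have hQ0 : 0 ≤ (1 + Q).det :=
    (PosSemidef.one.add (isStrictlyPositive_iff_posDef.mp hQpos).posSemidef).det_nonneg
  rw [hdL, hdR]
  exact ⟨mul_nonneg hdet0 hQ0, mul_le_mul_of_nonneg_left hPQ hdet0⟩

end Pool.Agent.helper36.DetIneq
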