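import Pool.Agent.helper36.NormIneq

/-!
The comparison of largest eigenvalues: for strictly positive `A`, `B` and `0 ≤ q ≤ 1`,
`‖A ^ (-(1 - q)) * B ^ (2 * q) * A ^ (-(1 - q))‖ ≤ ‖A ^ (-1) * (B * (A * A) * B) ^ q * A ^ (-1)‖`.
-/

namespace Pool.Agent.helper36.DetIneq

open CFC

variable {R : Type*} [CStarAlgebra R] [PartialOrder R] [StarOrderedRing R]

/-- `‖x ^ u * y ^ (2 * v) * x ^ u‖ = ‖x ^ u * y ^ v‖ ^ 2`. -/
lemma norm_sandwich (x y : R) (hy : IsStrictlyPositive y) (u v : ℝ) :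
    ‖x ^ u * y ^ (2 * v) * x ^ u‖ = ‖x ^ u * y ^ v‖ ^ 2 := by
  have : x ^ u * y ^ (2 * v) * x ^ u = (x ^ u * y ^ v) * star (x ^ u * y ^ v) := by
    rw [star_mul, star_rpow, star_rpow, two_mul, rpow_add hy.isUnit]
    simp only [mul_assoc]
  rw [this, CStarRing.norm_self_mul_star, sq]

lemma rpow_two' (x : R) (hx : IsStrictlyPositive x) : x ^ (2 : ℝ) = x * x := by
  have : (2 : ℝ) = 1 + 1 := by norm_num
  rw [this, rpow_add hx.isUnit, rpow_one x hx.nonneg]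

lemma norm_swap (x y : R) (u v : ℝ) : ‖x ^ u * y ^ v‖ = ‖y ^ v * x ^ u‖ := by
  rw [← norm_star, star_mul, star_rpow, star_rpow]

theorem lam_one (A B : R) (hA : IsStrictlyPositive A) (hB : IsStrictlyPositive B) (q : ℝ)
    (hq0 : 0 ≤ q) (hq1 : q ≤ 1) :
    ‖A ^ (-(1 - q)) * B ^ (2 * q) * A ^ (-(1 - q))‖ ≤
      ‖A ^ (-1 : ℝ) * (B * (A * A) * B) ^ q * A ^ (-1 : ℝ)‖ := by
  have hAinv : A * A ^ (-1 : ℝ) = 1 := by
    have := rpow_mul_rpow_neg (a := A) 1 hA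
    rwa [rpow_one A hA.nonneg] at this
  have hAinv' : A ^ (-1 : ℝ) * A = 1 := by
    have := rpow_neg_mul_rpow (a := A) 1 hA
    rwa [rpow_one A hA.nonneg] at this
  have hY : IsStrictlyPositive (B * (A * A) * B) := by
    have h1 : IsStrictlyPositive (A * A) := by
      have := hA.rpow A 2
      rwa [rpow_two' A hA] at this
    exact IsStrictlyPositive.conjugate_of_isUnit_of_isSelfAdjoint _ _ hB.isUnit
      hB.nonneg.isSelfAdjoint h1
  set Y := B * (A * A) * B with hYdef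
  have hBinv' : B ^ (-1 : ℝ) * B = 1 := by
    have := rpow_neg_mul_rpow (a := B) 1 hB
    rwa [rpow_one B hB.nonneg] at this
  have hYinv : Y * Y ^ (-1 : ℝ) = 1 := by
    have := rpow_mul_rpow_neg (a := Y) 1 hY
    rwa [rpow_one Y hY.nonneg] at this
  have hA2 : A ^ (-2 : ℝ) = A ^ (-1 : ℝ) * A ^ (-1 : ℝ) := by
    rw [← rpow_add hA.isUnit]; norm_num
  -- `B * Y⁻¹ * B = A ^ (-2)`
  have hBYB : B * Y ^ (-1 : ℝ) * B = A ^ (-2 : ℝ) := by
    have h1 : (A * A) * (B * Y ^ (-1 : ℝ)) = B ^ (-1 : ℝ) := by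
      calc (A * A) * (B * Y ^ (-1 : ℝ)) = (B ^ (-1 : ℝ) * B) * ((A * A) * (B * Y ^ (-1 : ℝ))) := by
            rw [hBinv', one_mul]
        _ = B ^ (-1 : ℝ) * (Y * Y ^ (-1 : ℝ)) := by rw [hYdef]; simp only [mul_assoc]
        _ = B ^ (-1 : ℝ) := by rw [hYinv, mul_one]
    calc B * Y ^ (-1 : ℝ) * B
        = A ^ (-1 : ℝ) * (A ^ (-1 : ℝ) * A) * A * (B * Y ^ (-1 : ℝ) * B) := by
          rw [hAinv', mul_one, hAinv', one_mul]
      _ = A ^ (-1 : ℝ) * A ^ (-1 : ℝ) * (((A * A) * (B * Y ^ (-1 : ℝ))) * B) := by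
          simp only [mul_assoc]
      _ = A ^ (-2 : ℝ) := by rw [h1, hBinv', mul_one, hA2]
  rcases hq0.eq_or_lt with h0 | h0
  · rw [← h0]
    simp only [sub_zero, mul_zero]
    rw [rpow_zero B hB.nonneg, rpow_zero Y hY.nonneg]
  rcases hq1.eq_or_lt with h1 | h1
  · rw [h1]
    simp only [sub_self, neg_zero, mul_one]
    rw [rpow_zero A hA.nonneg, rpow_one Y hY.nonneg, one_mul, mul_one, rpow_two' B hB]
    have e1 : A ^ (-1 : ℝ) * Y * A ^ (-1 : ℝ) =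
        star (A * B * A ^ (-1 : ℝ)) * (A * B * A ^ (-1 : ℝ)) := by
      rw [star_mul, star_mul, star_rpow, hA.nonneg.star_eq, hB.nonneg.star_eq, hYdef]
      simp only [mul_assoc]
    rw [e1, CStarRing.norm_star_mul_self]
    refine norm_le_of_conj (B * B) ?_ (Units.mk A (A ^ (-1 : ℝ)) hAinv hAinv') _ _ ?_
    · rw [IsSelfAdjoint, star_mul, hB.nonneg.star_eq]
    · simp only [Units.inv_mk]
      calc A * (B * B) * A ^ (-1 : ℝ) = A * B * 1 * (B * A ^ (-1 : ℝ)) := by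
            simp only [mul_assoc, one_mul]
        _ = A * B * (A ^ (-1 : ℝ) * A) * (B * A ^ (-1 : ℝ)) := by rw [hAinv']
        _ = _ := by simp only [mul_assoc]
  -- the main case `0 < q < 1`
  set s := 1 / (1 - q) with hs
  have h1q : 0 < 1 - q := by linarith
  have hs1 : 1 < s := by
    rw [hs, lt_div_iff₀ h1q]; linarith
  have hs0 : 0 < s := by linarith
  have hsq : s * (1 - q) = 1 := by
    rw [hs]; field_simp
  set C := Y ^ (-(1 - q) / 2) with hC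
  have hCpos : IsStrictlyPositive C := hY.rpow Y _
  have hexp : -(1 - q) / 2 ≠ 0 := by
    apply ne_of_lt; linarith
  have hCs : C ^ s = Y ^ (-1 / 2 : ℝ) := by
    rw [hC, rpow_rpow Y _ _ hexp hY]
    congr 1
    linear_combination (-1 / 2 : ℝ) * hsq
  have hC1s : C ^ (1 - s) = Y ^ (q / 2) := by
    rw [hC, rpow_rpow Y _ _ hexp hY]
    congr 1
    linear_combination (1 / 2 : ℝ) * hsq
  have hmain := main_norm C B hCpos hB s hs1.le
  rw [hCs, hC1s] at hmain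
  -- left-hand side
  have hL : ‖A ^ (-(1 - q)) * B ^ (2 * q) * A ^ (-(1 - q))‖ = ‖A ^ (-(1 - q)) * B ^ q‖ ^ 2 :=
    norm_sandwich A B hB _ _
  -- Cordes
  have hcordes : ‖A ^ (-(1 - q)) * B ^ q‖ ≤ ‖A ^ (-1 : ℝ) * B ^ (s - 1)‖ ^ (1 / s) := by
    have := cordes (A ^ (-1 : ℝ)) (B ^ (s - 1)) (hA.rpow A _) (hB.rpow B _) (1 / s)
      (by positivity) (by rw [div_le_one hs0]; exact hs1.le)
    rw [rpow_rpow A _ _ (by norm_num) hA, rpow_rpow B _ _ (by linarith) hB] at this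
    have hsinv : 1 / s = 1 - q := by rw [hs, one_div_one_div]
    have e1 : (-1 : ℝ) * (1 / s) = -(1 - q) := by
      rw [hsinv]; ring
    have e2 : (s - 1) * (1 / s) = q := by
      rw [hsinv]; linear_combination hsq
    rwa [e1, e2] at this
  -- `‖A⁻¹ * B ^ (s - 1)‖ = ‖Y ^ (-1/2) * B ^ s‖`
  have hsame : ‖A ^ (-1 : ℝ) * B ^ (s - 1)‖ ^ 2 = ‖Y ^ (-1 / 2 : ℝ) * B ^ s‖ ^ 2 := by
    rw [norm_swap, ← norm_sandwich B A hA, norm_swap Y B, ← norm_sandwich B Y hY]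
    have e1 : (2 : ℝ) * -1 = -2 := by norm_num
    have e2 : (2 : ℝ) * (-1 / 2) = -1 := by norm_num
    rw [e1, e2, ← hBYB]
    have e3 : B ^ s = B ^ (s - 1) * B := by
      conv_rhs => rw [← rpow_one B hB.nonneg]
      rw [rpow_one B hB.nonneg]
      nth_rewrite 3 [← rpow_one B hB.nonneg]
      rw [← rpow_add hB.isUnit]; congr 1; ring
    have e4 : B ^ s = B * B ^ (s - 1) := by
      nth_rewrite 2 [← rpow_one B hB.nonneg]
      rw [← rpow_add hB.isUnit]; congr 1; ring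
    have : B ^ s * Y ^ (-1 : ℝ) * B ^ s = B ^ (s - 1) * B * Y ^ (-1 : ℝ) * (B * B ^ (s - 1)) := by
      rw [← e3, ← e4]
    rw [this]
    simp only [mul_assoc]
  have hsame' : ‖A ^ (-1 : ℝ) * B ^ (s - 1)‖ = ‖Y ^ (-1 / 2 : ℝ) * B ^ s‖ := by
    have := (sq_eq_sq₀ (norm_nonneg _) (norm_nonneg _)).mp hsame
    exact this
  -- right-hand side
  have hR : ‖A ^ (-1 : ℝ) * Y ^ q * A ^ (-1 : ℝ)‖ = ‖Y ^ (-1 / 2 : ℝ) * B * Y ^ (q / 2)‖ ^ 2 := by
    have e0 : q = 2 * (q / 2) := by ring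
    have h3 : ‖A ^ (-1 : ℝ) * Y ^ q * A ^ (-1 : ℝ)‖ = ‖A ^ (-1 : ℝ) * Y ^ (q / 2)‖ ^ 2 := by
      conv_lhs => rw [e0]
      exact norm_sandwich A Y hY _ _
    rw [h3, norm_swap, ← norm_sandwich Y A hA]
    have e1 : (2 : ℝ) * -1 = -2 := by norm_num
    rw [e1, ← hBYB]
    have e2 : Y ^ (q / 2) * (B * Y ^ (-1 : ℝ) * B) * Y ^ (q / 2) =
        star (Y ^ (-1 / 2 : ℝ) * B * Y ^ (q / 2)) * (Y ^ (-1 / 2 : ℝ) * B * Y ^ (q / 2)) := by
      have e3 : Y ^ (-1 : ℝ) = Y ^ (-1 / 2 : ℝ) * Y ^ (-1 / 2 : ℝ) := by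
        rw [← rpow_add hY.isUnit]; norm_num
      rw [star_mul, star_mul, star_rpow, star_rpow, hB.nonneg.star_eq, e3]
      simp only [mul_assoc]
    rw [e2, CStarRing.norm_star_mul_self, sq]
  rw [hL, hR]
  set N := ‖Y ^ (-1 / 2 : ℝ) * B * Y ^ (q / 2)‖ with hN
  have hN0 : 0 ≤ N := norm_nonneg _
  have hfin : ‖A ^ (-(1 - q)) * B ^ q‖ ≤ N := by
    calc ‖A ^ (-(1 - q)) * B ^ q‖ ≤ ‖A ^ (-1 : ℝ) * B ^ (s - 1)‖ ^ (1 / s) := hcordes
      _ = ‖Y ^ (-1 / 2 : ℝ) * B ^ s‖ ^ (1 / s) := by rw [hsame']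
      _ ≤ (N ^ s) ^ (1 / s) := Real.rpow_le_rpow (norm_nonneg _) hmain (by positivity)
      _ = N := by
        rw [← Real.rpow_mul hN0, mul_one_div_cancel hs0.ne', Real.rpow_one]
  exact pow_le_pow_left₀ (norm_nonneg _) hfin 2

end Pool.Agent.helper36.DetIneq
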