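import Mathlib

/-!
Norm inequalities in a unital C-star algebra used for the determinant inequality:
for strictly positive `a`, `b` and `s ≥ 1`,
`‖a ^ s * b ^ s‖ ≤ ‖a ^ s * b * a ^ (1 - s)‖ ^ s`.
-/

namespace Pool.Agent.helper36.DetIneq

open CFC

variable {R : Type*} [CStarAlgebra R] [PartialOrder R] [StarOrderedRing R]

lemma star_rpow (a : R) (x : ℝ) : star (a ^ x) = a ^ x :=
  (CFC.rpow_nonneg (a := a) (y := x)).star_eq

lemma norm_comm_aux (a b : R) (hb : IsSelfAdjoint b) (x y : ℝ) :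
    ‖a ^ x * b * a ^ y‖ = ‖a ^ y * b * a ^ x‖ := by
  rw [← norm_star, star_mul, star_mul, star_rpow, star_rpow, hb.star_eq, mul_assoc]

omit [PartialOrder R] [StarOrderedRing R] in
/-- For a self-adjoint `h`, and `p * q` similar to `h`, the norm of `h` is at most `‖p‖ * ‖q‖`. -/
lemma norm_le_of_conj (h : R) (hh : IsSelfAdjoint h) (u : Rˣ) (p q : R)
    (hpq : (u : R) * h * (↑u⁻¹ : R) = p * q) : ‖h‖ ≤ ‖p‖ * ‖q‖ := by
  rcases subsingleton_or_nontrivial R with hs | hn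
  · have : h = 0 := Subsingleton.elim _ _
    rw [this, norm_zero]
    positivity
  have h1 : spectralRadius ℂ (p * q) = spectralRadius ℂ h := by
    unfold spectralRadius
    rw [← hpq, spectrum.units_conjugate]
  have h2 : spectralRadius ℂ (p * q) ≤ ‖p * q‖₊ := spectrum.spectralRadius_le_nnnorm _
  rw [h1, hh.spectralRadius_eq_nnnorm] at h2
  have h3 : ‖h‖₊ ≤ ‖p * q‖₊ := by exact_mod_cast h2
  have h4 : ‖h‖ ≤ ‖p * q‖ := by exact_mod_cast h3
  exact h4.trans (norm_mul_le _ _)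

lemma key (a b : R) (ha : IsStrictlyPositive a) (hb : IsSelfAdjoint b) (x y c : ℝ) :
    ‖a ^ x * b * a ^ y‖ ^ 2 ≤
      ‖a ^ (x + c) * b * a ^ (y - c)‖ * ‖a ^ (x - c) * b * a ^ (y + c)‖ := by
  have hu := ha.isUnit
  have e1 : ‖a ^ x * b * a ^ y‖ ^ 2 = ‖a ^ x * b * a ^ y * (a ^ y * b * a ^ x)‖ := by
    have : (a ^ y * b * a ^ x) = star (a ^ x * b * a ^ y) := by
      rw [star_mul, star_mul, star_rpow, star_rpow, hb.star_eq, mul_assoc]
    rw [this, CStarRing.norm_self_mul_star, sq]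
  rw [e1, norm_comm_aux a b hb (x - c) (y + c)]
  refine norm_le_of_conj _ ?_ (Units.mk (a ^ c) (a ^ (-c)) (rpow_mul_rpow_neg c ha)
    (rpow_neg_mul_rpow c ha)) _ _ ?_
  · rw [IsSelfAdjoint]
    simp only [star_mul, star_rpow, hb.star_eq, mul_assoc]
  · simp only [Units.inv_mk]
    have e2 : a ^ (x + c) = a ^ c * a ^ x := by rw [← rpow_add hu, add_comm]
    have e3 : a ^ (x - c) = a ^ x * a ^ (-c) := by rw [← rpow_add hu, sub_eq_add_neg]
    have e4 : a ^ y * a ^ y = a ^ (y - c) * a ^ (y + c) := by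
      rw [← rpow_add hu, ← rpow_add hu]; congr 1; ring
    rw [e2, e3]
    calc a ^ c * (a ^ x * b * a ^ y * (a ^ y * b * a ^ x)) * a ^ (-c)
        = a ^ c * a ^ x * b * (a ^ y * a ^ y) * b * (a ^ x * a ^ (-c)) := by
          simp only [mul_assoc]
      _ = a ^ c * a ^ x * b * (a ^ (y - c) * a ^ (y + c)) * b * (a ^ x * a ^ (-c)) := by rw [e4]
      _ = a ^ c * a ^ x * b * a ^ (y - c) * (a ^ (y + c) * b * (a ^ x * a ^ (-c))) := by
          simp only [mul_assoc]

/-- A uniform bound for `‖a ^ x‖` for `|x| ≤ L`. -/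
lemma norm_rpow_bound (a : R) (ha : IsStrictlyPositive a) (L : ℝ) :
    ∃ M : ℝ, ∀ x : ℝ, |x| ≤ L → ‖a ^ x‖ ≤ M := by
  have hpos : ∀ (a : R), IsStrictlyPositive a → ∀ x : ℝ, 0 ≤ x → x ≤ L →
      ‖a ^ x‖ ≤ max ‖(1 : R)‖ ((max 1 ‖a‖) ^ L) := by
    intro a ha x hx0 hxL
    rcases hx0.eq_or_lt with h | h
    · rw [← h, rpow_zero a ha.nonneg]; exact le_max_left _ _
    · rw [norm_rpow a h ha.nonneg]
      refine le_max_of_le_right ?_
      calc ‖a‖ ^ x ≤ (max 1 ‖a‖) ^ x :=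
            Real.rpow_le_rpow (norm_nonneg _) (le_max_right _ _) hx0
        _ ≤ (max 1 ‖a‖) ^ L := Real.rpow_le_rpow_of_exponent_le (le_max_left _ _) hxL
  have hinv : IsStrictlyPositive (a ^ (-1 : ℝ)) := ha.rpow a (-1)
  refine ⟨max (max ‖(1 : R)‖ ((max 1 ‖a‖) ^ L)) (max ‖(1 : R)‖ ((max 1 ‖a ^ (-1 : ℝ)‖) ^ L)), ?_⟩
  intro x hx
  rcases le_total 0 x with h | h
  · exact le_max_of_le_left (hpos a ha x h (by rwa [abs_of_nonneg h] at hx))
  · have e : a ^ x = (a ^ (-1 : ℝ)) ^ (-x) := by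
      rw [rpow_rpow a (-1) (-x) (by norm_num) ha]; congr 1; ring
    rw [e]
    exact le_max_of_le_right (hpos _ hinv (-x) (by linarith) (by rwa [abs_of_nonpos h] at hx))

/-- Monotonicity: `x ↦ ‖a ^ x * b * a ^ (1 - x)‖` is largest at the ends of `[1 - s, s]`. -/
lemma norm_le_endpoint (a b : R) (ha : IsStrictlyPositive a) (hb : IsSelfAdjoint b)
    (s : ℝ) (x : ℝ) (hx1 : 1 - s ≤ x) (hx2 : x ≤ s) :
    ‖a ^ x * b * a ^ (1 - x)‖ ≤ ‖a ^ s * b * a ^ (1 - s)‖ := by
  obtain ⟨M, hM⟩ := norm_rpow_bound a ha (|s| + 1)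
  set F : ℝ → ℝ := fun x => ‖a ^ x * b * a ^ (1 - x)‖ with hF
  have hM0 : 0 ≤ M := (norm_nonneg _).trans (hM 0 (by rw [_root_.abs_zero]; positivity))
  have hbdd : ∀ x ∈ Set.Icc (1 - s) s, F x ≤ M * ‖b‖ * M := by
    intro x hx
    have hs1 : |x| ≤ |s| + 1 := by
      rw [abs_le]
      constructor
      · have := hx.1
        have h2 := le_abs_self s
        linarith
      · have := hx.2
        have h2 := le_abs_self s
        linarith
    have hs2 : |1 - x| ≤ |s| + 1 := by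
      rw [abs_le]
      constructor
      · have := hx.2
        have h2 := le_abs_self s
        linarith
      · have := hx.1
        have h2 := le_abs_self s
        linarith
    calc F x ≤ ‖a ^ x * b‖ * ‖a ^ (1 - x)‖ := norm_mul_le _ _
      _ ≤ (‖a ^ x‖ * ‖b‖) * ‖a ^ (1 - x)‖ := by gcongr; exact norm_mul_le _ _
      _ ≤ M * ‖b‖ * M := by gcongr; exacts [hM x hs1, hM _ hs2]
  have hsym : ∀ x, F (1 - x) = F x := by
    intro x
    simp only [hF]
    rw [norm_comm_aux a b hb]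
    congr 2
    ring_nf
  set S : Set ℝ := F '' Set.Icc (1 - s) s with hS
  have hSb : BddAbove S := ⟨M * ‖b‖ * M, by rintro _ ⟨x, hx, rfl⟩; exact hbdd x hx⟩
  have hxI : x ∈ Set.Icc (1 - s) s := ⟨hx1, hx2⟩
  have hsI : s ∈ Set.Icc (1 - s) s := ⟨hx1.trans hx2, le_rfl⟩
  have hle : ∀ y ∈ Set.Icc (1 - s) s, F y ≤ sSup S := fun y hy => le_csSup hSb ⟨y, hy, rfl⟩
  have hF0 : ∀ y, 0 ≤ F y := fun y => norm_nonneg _
  -- the product bound
  have hprod : ∀ y ∈ Set.Icc (1 - s) s, F y ^ 2 ≤ F s * sSup S := by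
    intro y hy
    rcases le_total y (1 / 2) with h | h
    · -- nearest end is `1 - s`
      have hk := key a b ha hb y (1 - y) (y - (1 - s))
      have e1 : (y + (y - (1 - s))) ∈ Set.Icc (1 - s) s := ⟨by linarith [hy.1], by linarith [hy.1]⟩
      have e2 : ‖a ^ (y + (y - (1 - s))) * b * a ^ (1 - y - (y - (1 - s)))‖
          = F (y + (y - (1 - s))) := by
        simp only [hF]; congr 3; ring
      have e3 : ‖a ^ (y - (y - (1 - s))) * b * a ^ (1 - y + (y - (1 - s)))‖ = F s := by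
        rw [← hsym s]; simp only [hF]; congr 3
        · congr 1; ring
        · ring
      rw [e2, e3] at hk
      calc F y ^ 2 ≤ F (y + (y - (1 - s))) * F s := hk
        _ ≤ sSup S * F s := mul_le_mul_of_nonneg_right (hle _ e1) (hF0 s)
        _ = F s * sSup S := mul_comm _ _
    · have hk := key a b ha hb y (1 - y) (s - y)
      have e1 : (y - (s - y)) ∈ Set.Icc (1 - s) s := ⟨by linarith [hy.2], by linarith [hy.2]⟩
      have e2 : ‖a ^ (y + (s - y)) * b * a ^ (1 - y - (s - y))‖ = F s := by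
        simp only [hF]; congr 3
        · congr 1; ring
        · ring
      have e3 : ‖a ^ (y - (s - y)) * b * a ^ (1 - y + (s - y))‖ = F (y - (s - y)) := by
        simp only [hF]; congr 3; ring
      rw [e2, e3] at hk
      calc F y ^ 2 ≤ F s * F (y - (s - y)) := hk
        _ ≤ F s * sSup S := mul_le_mul_of_nonneg_left (hle _ e1) (hF0 s)
  have hSne : S.Nonempty := ⟨F s, s, hsI, rfl⟩
  have hS0 : 0 ≤ sSup S := (hF0 s).trans (hle s hsI)
  have hfin : sSup S ≤ F s := by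
    by_contra hcon
    push Not at hcon
    have hpos : 0 < sSup S := (hF0 s).trans_lt hcon
    -- `sqrt (F s * sSup S) < sSup S`
    have hlt : F s * sSup S < sSup S * sSup S := by gcongr
    have hub : sSup S ≤ Real.sqrt (F s * sSup S) := by
      apply csSup_le hSne
      rintro _ ⟨y, hy, rfl⟩
      exact Real.le_sqrt_of_sq_le (hprod y hy)
    have : Real.sqrt (F s * sSup S) < sSup S := by
      rw [Real.sqrt_lt' hpos, sq]; exact hlt
    linarith
  exact (hle x hxI).trans hfin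

/-- Real powers of scalar multiples. -/
lemma smul_rpow (a : R) (ha : IsStrictlyPositive a) (r : ℝ) (hr : 0 < r) (t : ℝ) :
    (r • a) ^ t = (r ^ t) • a ^ t := by
  have h0 : 0 ≤ a := ha.nonneg
  have h1 : 0 ≤ r • a := smul_nonneg hr.le h0
  have hsp : ∀ x ∈ spectrum ℝ a, 0 < x := fun x hx => ha.spectrum_pos hx
  rw [rpow_eq_cfc_real h1, rpow_eq_cfc_real h0]
  have e : r • a = cfc (fun x : ℝ => r * x) a := by
    rw [cfc_const_mul r (fun x => x) a, cfc_id' ℝ a]
  rw [e, ← cfc_comp' (fun x : ℝ => x ^ t) (fun x : ℝ => r * x) a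
    (hg := by
      apply ContinuousOn.rpow_const continuousOn_id
      rintro _ ⟨x, hx, rfl⟩
      exact Or.inl (mul_pos hr (hsp x hx)).ne')]
  rw [← cfc_const_mul (r ^ t) (fun x => x ^ t) a
    (by
      apply ContinuousOn.rpow_const continuousOn_id
      intro x hx
      exact Or.inl (hsp x hx).ne')]
  refine cfc_congr ?_
  intro x hx
  simp only
  rw [Real.mul_rpow hr.le (hsp x hx).le]

lemma sandwich_le_one {a b : R} (hb : IsStrictlyPositive b) (t : ℝ)
    (h : a ≤ b ^ (-(2 * t))) : b ^ t * a * b ^ t ≤ 1 := by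
  have h1 := (IsSelfAdjoint.of_nonneg (rpow_nonneg (a := b) (y := t))).conjugate_le_conjugate h
  refine h1.trans (le_of_eq ?_)
  rw [← rpow_add hb.isUnit, ← rpow_add hb.isUnit, ← rpow_zero b hb.nonneg]
  congr 1; ring

/-- The Cordes inequality. -/
lemma cordes (a b : R) (ha : IsStrictlyPositive a) (hb : IsStrictlyPositive b) (t : ℝ)
    (ht0 : 0 ≤ t) (ht1 : t ≤ 1) : ‖a ^ t * b ^ t‖ ≤ ‖a * b‖ ^ t := by
  rcases subsingleton_or_nontrivial R with hs | hn
  · rw [Subsingleton.elim (a ^ t * b ^ t) 0, norm_zero]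
    positivity
  have hN : 0 < ‖a * b‖ := by
    rw [norm_pos_iff]
    exact (ha.isUnit.mul hb.isUnit).ne_zero
  set N := ‖a * b‖ with hNdef
  -- `a ^ 2 ≤ N ^ 2 • b ^ (-2)`
  have h1 : b * (a * a) * b ≤ algebraMap ℝ R (N ^ 2) := by
    have := CStarAlgebra.star_mul_le_algebraMap_norm_sq (a := a * b)
    rw [star_mul, ha.nonneg.star_eq, hb.nonneg.star_eq] at this
    calc b * (a * a) * b = b * a * (a * b) := by simp only [mul_assoc]
      _ ≤ _ := this
  have hbb : b ^ (-1 : ℝ) * b = 1 := by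
    have := rpow_neg_mul_rpow (a := b) 1 hb
    rwa [rpow_one b hb.nonneg] at this
  have hbb' : b * b ^ (-1 : ℝ) = 1 := by
    have := rpow_mul_rpow_neg (a := b) 1 hb
    rwa [rpow_one b hb.nonneg] at this
  have h2 : a ^ (2 : ℝ) ≤ (N ^ 2) • b ^ (-2 : ℝ) := by
    have h3 := (IsSelfAdjoint.of_nonneg (rpow_nonneg (a := b) (y := -1))).conjugate_le_conjugate h1
    have e1 : b ^ (-1 : ℝ) * (b * (a * a) * b) * b ^ (-1 : ℝ) = a ^ (2 : ℝ) := by
      calc b ^ (-1 : ℝ) * (b * (a * a) * b) * b ^ (-1 : ℝ)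
          = (b ^ (-1 : ℝ) * b) * (a * a) * (b * b ^ (-1 : ℝ)) := by simp only [mul_assoc]
        _ = a * a := by rw [hbb, hbb', one_mul, mul_one]
        _ = a ^ (2 : ℝ) := by
          have : (2 : ℝ) = 1 + 1 := by norm_num
          rw [this, rpow_add ha.isUnit, rpow_one a ha.nonneg]
    have e2 : b ^ (-1 : ℝ) * algebraMap ℝ R (N ^ 2) * b ^ (-1 : ℝ) = (N ^ 2) • b ^ (-2 : ℝ) := by
      rw [Algebra.algebraMap_eq_smul_one, mul_smul_comm, smul_mul_assoc, mul_one,
        ← rpow_add hb.isUnit]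
      norm_num
    rwa [e1, e2] at h3
  rcases ht0.eq_or_lt with h | h
  · rw [← h, rpow_zero a ha.nonneg, rpow_zero b hb.nonneg, mul_one, norm_one, Real.rpow_zero]
  have h3 : (a ^ (2 : ℝ)) ^ t ≤ ((N ^ 2) • b ^ (-2 : ℝ)) ^ t := rpow_le_rpow ⟨ht0, ht1⟩ h2
  rw [rpow_rpow a 2 t (by norm_num) ha, smul_rpow _ (hb.rpow b (-2)) _ (by positivity),
    rpow_rpow b (-2) t (by norm_num) hb] at h3
  have h4 : b ^ t * a ^ (2 * t) * b ^ t ≤ algebraMap ℝ R ((N ^ 2) ^ t) := by
    have h5 := (IsSelfAdjoint.of_nonneg (rpow_nonneg (a := b) (y := t))).conjugate_le_conjugate h3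
    refine h5.trans (le_of_eq ?_)
    rw [mul_smul_comm, smul_mul_assoc, ← rpow_add hb.isUnit, ← rpow_add hb.isUnit,
      Algebra.algebraMap_eq_smul_one, ← rpow_zero b hb.nonneg]
    congr 2; ring
  have h5 : star (a ^ t * b ^ t) * (a ^ t * b ^ t) = b ^ t * a ^ (2 * t) * b ^ t := by
    rw [star_mul, star_rpow, star_rpow, two_mul, rpow_add ha.isUnit]
    simp only [mul_assoc]
  have h6 : ‖a ^ t * b ^ t‖ * ‖a ^ t * b ^ t‖ ≤ (N ^ 2) ^ t := by
    rw [← CStarRing.norm_star_mul_self, h5]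
    refine (CStarAlgebra.norm_le_iff_le_algebraMap _ (by positivity) ?_).mpr h4
    rw [← h5]; exact star_mul_self_nonneg _
  have h7 : (N ^ 2) ^ t = (N ^ t) * (N ^ t) := by
    rw [sq, Real.mul_rpow hN.le hN.le]
  rw [h7] at h6
  exact abs_le_of_sq_le_sq' (by rw [sq, sq]; exact h6) (by positivity) |>.2

/-- The main norm inequality. -/
theorem main_norm (a b : R) (ha : IsStrictlyPositive a) (hb : IsStrictlyPositive b) (s : ℝ)
    (hs : 1 ≤ s) : ‖a ^ s * b ^ s‖ ≤ ‖a ^ s * b * a ^ (1 - s)‖ ^ s := by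
  set K := ‖a ^ s * b * a ^ (1 - s)‖ with hK
  have hK0 : 0 ≤ K := norm_nonneg _
  have hmono : ∀ x, 1 ≤ x → x ≤ s → ‖a ^ x * b * a ^ (1 - x)‖ ≤ K := fun x h1 h2 =>
    norm_le_endpoint a b ha hb.nonneg.isSelfAdjoint s x (by linarith) h2
  have h1K : ‖a * b‖ ≤ K := by
    have := hmono 1 le_rfl hs
    rwa [sub_self, rpow_zero a ha.nonneg, rpow_one a ha.nonneg, mul_one] at this
  -- induction on the integer part
  have hind : ∀ m : ℕ, ∀ t : ℝ, 0 ≤ t → t < 1 → t + m ≤ s →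
      ‖a ^ (t + m) * b ^ (t + m)‖ ≤ K ^ (t + m) := by
    intro m
    induction m with
    | zero =>
      intro t ht0 ht1 _
      simp only [Nat.cast_zero, add_zero]
      exact (cordes a b ha hb t ht0 ht1.le).trans (Real.rpow_le_rpow (norm_nonneg _) h1K ht0)
    | succ m ih =>
      intro t ht0 ht1 hts
      have hts' : t + m ≤ s := by push_cast at hts; linarith
      have h2 := ih t ht0 ht1 hts'
      have e : a ^ (t + (m + 1 : ℕ)) * b ^ (t + (m + 1 : ℕ)) =
          (a ^ (t + m + 1) * b * a ^ (1 - (t + m + 1))) * (a ^ (t + m) * b ^ (t + m)) := by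
        have e1 : t + ((m + 1 : ℕ) : ℝ) = t + m + 1 := by push_cast; ring
        have e2 : b ^ (t + m + 1) = b * b ^ (t + m) := by
          rw [add_comm (t + (m : ℝ)) 1, rpow_add hb.isUnit, rpow_one b hb.nonneg]
        have e3 : a ^ (1 - (t + m + 1)) * a ^ (t + m) = 1 := by
          rw [← rpow_add ha.isUnit, ← rpow_zero a ha.nonneg]; congr 1; ring
        rw [e1, e2]
        calc a ^ (t + m + 1) * (b * b ^ (t + m)) = a ^ (t + m + 1) * b * 1 * b ^ (t + m) := by
              simp only [mul_assoc, one_mul]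
          _ = a ^ (t + m + 1) * b * (a ^ (1 - (t + m + 1)) * a ^ (t + m)) * b ^ (t + m) := by
              rw [e3]
          _ = _ := by simp only [mul_assoc]
      rw [e]
      have hm0 : (0 : ℝ) ≤ m := Nat.cast_nonneg m
      calc ‖(a ^ (t + m + 1) * b * a ^ (1 - (t + m + 1))) * (a ^ (t + m) * b ^ (t + m))‖
          ≤ ‖a ^ (t + m + 1) * b * a ^ (1 - (t + m + 1))‖ * ‖a ^ (t + m) * b ^ (t + m)‖ :=
            norm_mul_le _ _
        _ ≤ K * K ^ (t + m) := by
            gcongr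
            exact hmono _ (by linarith) (by push_cast at hts; linarith)
        _ = K ^ (t + (m + 1 : ℕ)) := by
            rcases (add_nonneg ht0 hm0).eq_or_lt with h | h
            · rw [← h, Real.rpow_zero, mul_one]
              have : t + ((m + 1 : ℕ) : ℝ) = 1 := by push_cast; linarith
              rw [this, Real.rpow_one]
            · have : t + ((m + 1 : ℕ) : ℝ) = 1 + (t + m) := by push_cast; ring
              rw [this, Real.rpow_add_of_nonneg hK0 zero_le_one h.le, Real.rpow_one]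
  have hfl : (Int.fract s) + (⌊s⌋₊ : ℝ) = s := by
    have h0 : (0 : ℝ) ≤ s := by linarith
    have : ((⌊s⌋₊ : ℕ) : ℝ) = ((⌊s⌋ : ℤ) : ℝ) := by
      exact_mod_cast (Int.natCast_floor_eq_floor h0)
    rw [this, Int.fract_add_floor]
  have := hind ⌊s⌋₊ (Int.fract s) (Int.fract_nonneg s) (Int.fract_lt_one s) hfl.le
  rwa [hfl] at this

end Pool.Agent.helper36.DetIneq
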