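import Mathlib

set_option autoImplicit false
open MeasureTheory Metric Set

namespace Pool.Agent.helper36.R

/-- The Euclidean plane. -/
abbrev E2 := EuclideanSpace ℝ (Fin 2)

lemma vol_ball (x : E2) {r : ℝ} (hr : 0 ≤ r) :
    volume (ball x r) = ENNReal.ofReal (Real.pi * r ^ 2) := by
  rw [EuclideanSpace.volume_ball_fin_two, ← ENNReal.ofReal_pow hr,
    ← ENNReal.ofReal_mul (by positivity), mul_comm]

lemma vol_ball_real (x : E2) {r : ℝ} (hr : 0 ≤ r) :
    volume.real (ball x r) = Real.pi * r ^ 2 := by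
  rw [Measure.real, vol_ball x hr, ENNReal.toReal_ofReal (by positivity)]

lemma vol_ball_ne_top (x : E2) (r : ℝ) : volume (ball x r) ≠ ⊤ :=
  measure_ball_lt_top.ne

lemma average_ball (x : E2) {r : ℝ} (hr : 0 < r) (u : E2 → ℝ) :
    (⨍ y in ball x r, u y) = (∫ y in ball x r, u y) / (Real.pi * r ^ 2) := by
  rw [MeasureTheory.average_eq, smul_eq_mul, measureReal_restrict_apply_univ,
    vol_ball_real x hr.le, div_eq_inv_mul]

/-- Averages over a ball of a bounded function. -/
lemma average_le_of_le (x : E2) {r : ℝ} (hr : 0 < r) (u : E2 → ℝ) (c : ℝ)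
    (hc : 0 ≤ c) (h : ∀ y ∈ ball x r, u y ≤ c) :
    (⨍ y in ball x r, u y) ≤ c := by
  have hpos : 0 < Real.pi * r ^ 2 := by positivity
  rw [average_ball x hr, div_le_iff₀ hpos]
  by_cases hi : IntegrableOn u (ball x r)
  · have h1 : (∫ y in ball x r, u y) ≤ ∫ y in ball x r, c := by
      apply setIntegral_mono_on hi _ measurableSet_ball h
      exact integrableOn_const (vol_ball_ne_top x r)
    rw [setIntegral_const, vol_ball_real x hr.le, smul_eq_mul] at h1
    linarith
  · rw [integral_undef hi]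
    positivity

lemma packing {ι : Type*} (s : Finset ι) (p : ι → E2) (x0 : E2) {D T : ℝ} (hD : 0 < D)
    (hT : 0 ≤ T)
    (hsep : ∀ i ∈ s, ∀ j ∈ s, i ≠ j → D ≤ dist (p i) (p j))
    (hnear : ∀ i ∈ s, dist (p i) x0 < T) :
    (s.card : ℝ) * (D / 2) ^ 2 ≤ (T + D / 2) ^ 2 := by
  have hdisj : (s : Set ι).PairwiseDisjoint (fun i => ball (p i) (D / 2)) := by
    intro i hi j hj hij
    apply Metric.ball_disjoint_ball
    have := hsep i hi j hj hij
    linarith
  have h1 : volume (⋃ i ∈ s, ball (p i) (D / 2)) = ∑ i ∈ s, volume (ball (p i) (D / 2)) :=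
    measure_biUnion_finset hdisj (fun i _ => measurableSet_ball)
  have h2 : (⋃ i ∈ s, ball (p i) (D / 2)) ⊆ ball x0 (T + D / 2) := by
    intro y hy
    simp only [mem_iUnion, exists_prop] at hy
    obtain ⟨i, hi, hy⟩ := hy
    rw [mem_ball] at hy ⊢
    have := dist_triangle y (p i) x0
    have := hnear i hi
    linarith
  have h3 := measure_mono (μ := volume) h2
  rw [h1] at h3
  have h4 : ∀ i ∈ s, volume (ball (p i) (D / 2)) = ENNReal.ofReal (Real.pi * (D / 2) ^ 2) :=
    fun i _ => vol_ball _ (by positivity)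
  rw [Finset.sum_congr rfl h4, Finset.sum_const, nsmul_eq_mul,
    vol_ball _ (by positivity), ← ENNReal.ofReal_natCast, ← ENNReal.ofReal_mul (by positivity),
    ENNReal.ofReal_le_ofReal_iff (by positivity)] at h3
  have hpi := Real.pi_pos
  have h5 : Real.pi * ((s.card : ℝ) * (D / 2) ^ 2) ≤ Real.pi * (T + D / 2) ^ 2 := by
    linarith
  exact le_of_mul_le_mul_left h5 hpi

/-- A point of the plane with given coordinates. -/
noncomputable def pt (a b : ℝ) : E2 := !₂[a, b]

@[simp] lemma pt_zero (a b : ℝ) : (pt a b) 0 = a := by simp [pt]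
@[simp] lemma pt_one (a b : ℝ) : (pt a b) 1 = b := by simp [pt]

lemma norm_sq_E2 (x : E2) : ‖x‖ ^ 2 = x 0 ^ 2 + x 1 ^ 2 := by
  rw [EuclideanSpace.norm_sq_eq]
  simp [Fin.sum_univ_two]

lemma abs_coord_le (x : E2) (i : Fin 2) : |x i| ≤ ‖x‖ := by
  have := EuclideanSpace.norm_eq x
  rw [← Real.norm_eq_abs]
  exact PiLp.norm_apply_le x i

lemma norm_le_add (x : E2) : ‖x‖ ≤ |x 0| + |x 1| := by
  have h : ‖x‖ ^ 2 ≤ (|x 0| + |x 1|) ^ 2 := by
    rw [norm_sq_E2, add_sq, sq_abs, sq_abs]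
    have : 0 ≤ 2 * |x 0| * |x 1| := by positivity
    linarith
  exact le_of_sq_le_sq h (by positivity) |>.trans le_rfl

end Pool.Agent.helper36.R
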