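import Pool.Agent.helper36.RBasic

set_option autoImplicit false
open MeasureTheory Metric Set
open scoped ENNReal

namespace Pool.Agent.helper36.R

/-- The tail of the number of dyadic scales at which `x` is close to `p`. -/
noncomputable def tail (i : ℕ) (p x : E2) : ℝ≥0∞ :=
  ∑' j : ℕ, (ball p ((1 / 2) ^ (j + i + 1))).indicator (fun _ => (1 : ℝ≥0∞)) x

lemma half_pow_le' {i j : ℕ} (h : i ≤ j) : ((1 : ℝ) / 2) ^ j ≤ (1 / 2) ^ i :=
  pow_le_pow_of_le_one (by norm_num) (by norm_num) h

lemma tail_meas (i : ℕ) (p : E2) : Measurable (tail i p) := by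
  unfold tail
  exact Measurable.tsum fun j => measurable_const.indicator measurableSet_ball

lemma tail_far {i : ℕ} {p x : E2} (h : 1 / 2 ≤ dist x p) : tail i p x = 0 := by
  unfold tail
  rw [ENNReal.tsum_eq_zero]
  intro j
  apply indicator_of_notMem
  rw [mem_ball, not_lt]
  have := half_pow_le' (show 1 ≤ j + i + 1 by omega)
  rw [pow_one] at this
  exact this.trans h

lemma tail_split (i : ℕ) (p x : E2) :
    tail 0 p x = (∑ j ∈ Finset.range i,
      (ball p ((1 / 2) ^ (j + 1))).indicator (fun _ => (1 : ℝ≥0∞)) x) + tail i p x := by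
  unfold tail
  have h := Summable.sum_add_tsum_nat_add' (f := fun j : ℕ =>
    (ball p ((1 / 2) ^ (j + 1))).indicator (fun _ => (1 : ℝ≥0∞)) x) (k := i) ENNReal.summable
  simp only [add_zero]
  rw [← h]

lemma tail_zero_eq {i : ℕ} {p x : E2} (h : dist x p < (1 / 2) ^ i) :
    tail 0 p x = i + tail i p x := by
  rw [tail_split i p x]
  congr 1
  rw [Finset.sum_congr rfl (g := fun _ => (1 : ℝ≥0∞))]
  · simp
  · intro j hj
    apply indicator_of_mem (s := ball p ((1 / 2) ^ (j + 1))) (f := fun _ => (1 : ℝ≥0∞))
    rw [mem_ball]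
    exact h.trans_le (half_pow_le' (by have := Finset.mem_range.1 hj; omega))

lemma tail_ge {K : ℕ} {p x : E2} (h : dist x p < (1 / 2) ^ K) : (K : ℝ≥0∞) ≤ tail 0 p x := by
  rw [tail_zero_eq h]
  exact le_self_add

lemma tail_eq_zero_of_le {i : ℕ} {p x : E2} (h : (1 / 2) ^ (i + 1) ≤ dist x p) :
    tail i p x = 0 := by
  unfold tail
  rw [ENNReal.tsum_eq_zero]
  intro j
  apply indicator_of_notMem
  rw [mem_ball, not_lt]
  exact (half_pow_le' (by omega)).trans h

lemma sum_ind_le (i : ℕ) (p x : E2) : (∑ j ∈ Finset.range i,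
      (ball p ((1 / 2) ^ (j + 1))).indicator (fun _ => (1 : ℝ≥0∞)) x) ≤ i := by
  calc (∑ j ∈ Finset.range i,
      (ball p ((1 / 2) ^ (j + 1))).indicator (fun _ => (1 : ℝ≥0∞)) x)
      ≤ ∑ j ∈ Finset.range i, (1 : ℝ≥0∞) := by
        apply Finset.sum_le_sum
        intro j _
        exact indicator_le_self _ _ x
    _ = i := by simp

lemma tail_ne_top {p x : E2} (h : x ≠ p) : tail 0 p x ≠ ⊤ := by
  have hd : 0 < dist x p := dist_pos.2 h
  obtain ⟨i, hi⟩ := exists_pow_lt_of_lt_one hd (show (1 / 2 : ℝ) < 1 by norm_num)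
  have hi' : (1 / 2 : ℝ) ^ (i + 1) ≤ dist x p := (half_pow_le' (by omega)).trans hi.le
  rw [tail_split i p x, tail_eq_zero_of_le hi', add_zero]
  exact ne_top_of_le_ne_top (ENNReal.natCast_ne_top i) (sum_ind_le i p x)

/-- Comparison of the number of scales. -/
lemma tail_compare {p x y : E2} (h : dist y p < 4 * dist x p) :
    tail 0 p x ≤ 2 + tail 0 p y := by
  have h1 : tail 0 p x ≤ 2 + tail 2 p x := by
    rw [tail_split 2 p x]
    gcongr
    simpa using sum_ind_le 2 p x
  refine h1.trans ?_
  gcongr
  unfold tail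
  apply ENNReal.tsum_le_tsum
  intro j
  by_cases hx : x ∈ ball p ((1 / 2) ^ (j + 2 + 1))
  · have hy : y ∈ ball p ((1 / 2) ^ (j + 0 + 1)) := by
      rw [mem_ball] at hx ⊢
      have : (1 / 2 : ℝ) ^ (j + 2 + 1) = (1 / 2) ^ (j + 0 + 1) / 4 := by ring
      rw [this] at hx
      linarith
    rw [indicator_of_mem hx, indicator_of_mem hy]
  · rw [indicator_of_notMem hx]
    exact zero_le

lemma lintegral_tail_le (i : ℕ) (p x0 : E2) (R : ℝ) :
    (∫⁻ x in ball x0 R, tail i p x) ≤ ENNReal.ofReal (4 / 3 * Real.pi * (1 / 4) ^ (i + 1)) := by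
  unfold tail
  rw [lintegral_tsum]
  · have h1 : ∀ j : ℕ, (∫⁻ x in ball x0 R,
        (ball p ((1 / 2) ^ (j + i + 1))).indicator (fun _ => (1 : ℝ≥0∞)) x)
        ≤ ENNReal.ofReal (Real.pi * (1 / 4) ^ (i + 1) * (1 / 4) ^ j) := by
      intro j
      rw [lintegral_indicator measurableSet_ball, Measure.restrict_restrict measurableSet_ball]
      simp only [lintegral_const, one_mul, Measure.restrict_apply MeasurableSet.univ, univ_inter]
      refine (measure_mono inter_subset_left).trans ?_
      rw [vol_ball p (by positivity)]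
      apply ENNReal.ofReal_le_ofReal
      have : (((1 : ℝ) / 2) ^ (j + i + 1)) ^ 2 = (1 / 4) ^ (i + 1) * (1 / 4) ^ j := by
        rw [← pow_mul, mul_comm (j + i + 1) 2, pow_mul]
        norm_num [pow_add]
        ring
      rw [this]
      linarith [Real.pi_pos]
    refine (ENNReal.tsum_le_tsum h1).trans ?_
    rw [← ENNReal.ofReal_tsum_of_nonneg]
    · apply ENNReal.ofReal_le_ofReal
      rw [tsum_mul_left, tsum_geometric_of_lt_one (by norm_num) (by norm_num)]
      have := Real.pi_pos
      have h4 : (0 : ℝ) < (1 / 4) ^ (i + 1) := by positivity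
      norm_num
      nlinarith
    · intro j; positivity
    · exact (summable_geometric_of_lt_one (by norm_num) (by norm_num)).mul_left _
  · intro j
    exact (measurable_const.indicator measurableSet_ball).aemeasurable

/-- The lattice `4ℤ²`. -/
noncomputable def lat (a : ℤ × ℤ) : E2 := pt (4 * a.1) (4 * a.2)

lemma lat_sep {a a' : ℤ × ℤ} (h : a ≠ a') : 4 ≤ dist (lat a) (lat a') := by
  rw [dist_eq_norm]
  have key : ∀ u v : ℤ, u ≠ v → (4 : ℝ) ≤ |4 * (u : ℝ) - 4 * v| := by
    intro u v huv
    have h1 : (1 : ℝ) ≤ |((u - v : ℤ) : ℝ)| := by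
      rw [← Int.cast_abs]
      exact_mod_cast Int.one_le_abs (sub_ne_zero.2 huv)
    have h2 : 4 * (u : ℝ) - 4 * v = 4 * ((u - v : ℤ) : ℝ) := by push_cast; ring
    rw [h2, abs_mul]
    norm_num
    push_cast at h1
    linarith
  by_cases h1 : a.1 = a'.1
  · have h2 : a.2 ≠ a'.2 := fun h2 => h (Prod.ext h1 h2)
    have h3 := abs_coord_le (lat a - lat a') 1
    refine le_trans ?_ h3
    simp only [lat, PiLp.sub_apply, pt_one]
    exact key _ _ h2
  · have h3 := abs_coord_le (lat a - lat a') 0
    refine le_trans ?_ h3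
    simp only [lat, PiLp.sub_apply, pt_zero]
    exact key _ _ h1

/-- The `BMO` symbol, as an extended nonnegative function. -/
noncomputable def bE (x : E2) : ℝ≥0∞ := ∑' a : ℤ × ℤ, tail 0 (lat a) x

/-- The `BMO` symbol. -/
noncomputable def b (x : E2) : ℝ := (bE x).toReal

lemma bE_meas : Measurable bE := by
  unfold bE
  exact Measurable.tsum fun a => tail_meas 0 _

lemma b_meas : Measurable b := bE_meas.ennreal_toReal

lemma bE_near {x : E2} {a : ℤ × ℤ} (h : dist x (lat a) < 7 / 2) : bE x = tail 0 (lat a) x := by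
  unfold bE
  apply tsum_eq_single a
  intro a' ha'
  apply tail_far
  have h1 := lat_sep ha'
  have h2 := dist_triangle (lat a') x (lat a)
  rw [dist_comm (lat a') x] at h2
  linarith

lemma bE_far {x : E2} (h : ∀ a, 1 / 2 ≤ dist x (lat a)) : bE x = 0 := by
  unfold bE
  rw [ENNReal.tsum_eq_zero]
  intro a
  exact tail_far (h a)

lemma b_far {x : E2} (h : ∀ a, 1 / 2 ≤ dist x (lat a)) : b x = 0 := by
  unfold b
  rw [bE_far h, ENNReal.toReal_zero]

lemma b_nonneg (x : E2) : 0 ≤ b x := ENNReal.toReal_nonneg

lemma bE_ne_top {x : E2} (h : ∀ a, x ≠ lat a) : bE x ≠ ⊤ := by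
  by_cases h1 : ∃ a, dist x (lat a) < 1 / 2
  · obtain ⟨a, ha⟩ := h1
    rw [bE_near (show dist x (lat a) < 7 / 2 by linarith)]
    exact tail_ne_top (h a)
  · push Not at h1
    rw [bE_far h1]
    exact ENNReal.zero_ne_top

lemma b_ge {x : E2} {a : ℤ × ℤ} {K : ℕ} (hK : dist x (lat a) < (1 / 2) ^ K) (hx : x ≠ lat a) :
    (K : ℝ) ≤ b x := by
  have h1 : dist x (lat a) < 7 / 2 := by
    have := half_pow_le' (Nat.zero_le K)
    rw [pow_zero] at this
    linarith
  have h2 : (K : ℝ≥0∞) ≤ bE x := by
    rw [bE_near h1]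
    exact tail_ge hK
  have h3 : bE x ≠ ⊤ := by
    rw [bE_near h1]
    exact tail_ne_top hx
  unfold b
  have := ENNReal.toReal_mono h3 h2
  simpa using this

lemma lintegral_bE_le (x0 : E2) {R : ℝ} (hR : 0 < R) :
    (∫⁻ x in ball x0 R, bE x) ≤ ENNReal.ofReal (Real.pi * (R + 5 / 2) ^ 2 / 12) := by
  classical
  unfold bE
  rw [lintegral_tsum fun a => (tail_meas 0 (lat a)).aemeasurable]
  have h1 : ∀ a : ℤ × ℤ, (∫⁻ x in ball x0 R, tail 0 (lat a) x)
      ≤ if dist (lat a) x0 < R + 1 / 2 then ENNReal.ofReal (Real.pi / 3) else 0 := by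
    intro a
    split_ifs with h
    · refine (lintegral_tail_le 0 (lat a) x0 R).trans ?_
      apply ENNReal.ofReal_le_ofReal
      norm_num
      linarith
    · rw [not_lt] at h
      rw [setLIntegral_congr_fun measurableSet_ball (g := fun _ => 0)]
      · simp
      · intro x hx
        rw [mem_ball] at hx
        have := dist_triangle (lat a) x x0
        rw [dist_comm (lat a) x] at this
        simp only
        exact tail_far (by linarith)
  refine (ENNReal.tsum_le_tsum h1).trans ?_
  apply ENNReal.summable.tsum_le_of_sum_le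
  intro s
  rw [← Finset.sum_filter, Finset.sum_const, nsmul_eq_mul]
  have hpack := packing (s.filter fun a => dist (lat a) x0 < R + 1 / 2) lat x0
    (D := 4) (T := R + 1 / 2) (by norm_num) (by linarith)
    (fun i _ j _ hij => lat_sep hij) (fun i hi => (Finset.mem_filter.1 hi).2)
  rw [← ENNReal.ofReal_natCast, ← ENNReal.ofReal_mul (by positivity)]
  apply ENNReal.ofReal_le_ofReal
  have hpi := Real.pi_pos
  nlinarith

lemma b_integrable (x0 : E2) {R : ℝ} (hR : 0 < R) : IntegrableOn b (ball x0 R) := by
  unfold b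
  apply integrable_toReal_of_lintegral_ne_top bE_meas.aemeasurable
  exact ne_top_of_le_ne_top ENNReal.ofReal_ne_top (lintegral_bE_le x0 hR)

lemma b_locallyIntegrable : LocallyIntegrable b volume := by
  intro x
  exact ⟨ball x 1, ball_mem_nhds x one_pos, b_integrable x one_pos⟩

/-- Oscillation from an arbitrary centre value. -/
lemma osc_le {u : E2 → ℝ} (x0 : E2) {R : ℝ} (hR : 0 < R) (hu : IntegrableOn u (ball x0 R))
    (c M : ℝ) (h : (∫ x in ball x0 R, |u x - c|) ≤ M * (Real.pi * R ^ 2)) :
    (⨍ y in ball x0 R, |u y - ⨍ z in ball x0 R, u z|) ≤ 2 * M := by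
  have hpi := Real.pi_pos
  have hv : 0 < Real.pi * R ^ 2 := by positivity
  have hc : IntegrableOn (fun _ : E2 => c) (ball x0 R) :=
    integrableOn_const (vol_ball_ne_top x0 R)
  set a := ⨍ z in ball x0 R, u z with ha
  have ha2 : a * (Real.pi * R ^ 2) = ∫ z in ball x0 R, u z := by
    rw [ha, average_ball x0 hR]; field_simp
  have ha' : IntegrableOn (fun _ : E2 => a) (ball x0 R) :=
    integrableOn_const (vol_ball_ne_top x0 R)
  have h1 : |c - a| * (Real.pi * R ^ 2) ≤ M * (Real.pi * R ^ 2) := by
    refine le_trans ?_ h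
    have h2 : (a - c) * (Real.pi * R ^ 2) = ∫ x in ball x0 R, (u x - c) := by
      rw [integral_sub hu hc, setIntegral_const, vol_ball_real x0 hR.le, smul_eq_mul, ← ha2]
      ring
    have h3 : |(a - c) * (Real.pi * R ^ 2)| ≤ ∫ x in ball x0 R, |u x - c| := by
      rw [h2]
      exact abs_integral_le_integral_abs
    rw [abs_mul, abs_of_pos hv, abs_sub_comm] at h3
    exact h3
  rw [average_ball x0 hR, div_le_iff₀ hv]
  have h4 : (∫ y in ball x0 R, |u y - a|) ≤ ∫ y in ball x0 R, (|u y - c| + |c - a|) := by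
    apply setIntegral_mono_on (hu.sub ha').abs ((hu.sub hc).abs.add _) measurableSet_ball
    · intro x _
      exact abs_sub_le _ _ _
    · exact integrableOn_const (vol_ball_ne_top x0 R)
  have h5 : (∫ y in ball x0 R, (|u y - c| + |c - a|))
      = (∫ y in ball x0 R, |u y - c|) + |c - a| * (Real.pi * R ^ 2) := by
    have hk : Integrable (fun _ : E2 => |c - a|) (volume.restrict (ball x0 R)) :=
      integrableOn_const (vol_ball_ne_top x0 R)
    have hj : Integrable (fun y : E2 => |u y - c|) (volume.restrict (ball x0 R)) :=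
      (hu.sub hc).abs
    rw [integral_add hj hk, setIntegral_const, vol_ball_real x0 hR.le, smul_eq_mul]
    ring
  linarith

lemma toReal_sub_le {u v t : ℝ≥0∞} (ht : t ≠ ⊤) (h : u ≤ t + v) (hv : v ≠ ⊤) :
    u.toReal ≤ t.toReal + v.toReal := by
  rw [← ENNReal.toReal_add ht hv]
  exact ENNReal.toReal_mono (ENNReal.add_ne_top.2 ⟨ht, hv⟩) h

lemma b_bmo (x0 : E2) {R : ℝ} (hR : 0 < R) :
    (⨍ y in ball x0 R, |b y - ⨍ z in ball x0 R, b z|) ≤ 24 := by
  have hpi := Real.pi_pos
  have hv : 0 < Real.pi * R ^ 2 := by positivity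
  have hb := b_integrable x0 hR
  -- it suffices to find a centre value
  suffices h : ∃ c : ℝ, (∫ x in ball x0 R, |b x - c|) ≤ 12 * (Real.pi * R ^ 2) by
    obtain ⟨c, hc⟩ := h
    have := osc_le x0 hR hb c 12 hc
    linarith
  by_cases hbig : 1 / 4 ≤ R
  · refine ⟨0, ?_⟩
    have h1 : (∫ x in ball x0 R, |b x - 0|) = (∫⁻ x in ball x0 R, bE x).toReal := by
      rw [← integral_toReal bE_meas.aemeasurable]
      · apply integral_congr_ae
        filter_upwards with x
        rw [sub_zero, abs_of_nonneg (b_nonneg x)]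
        rfl
      · apply ae_lt_top bE_meas
        exact ne_top_of_le_ne_top ENNReal.ofReal_ne_top (lintegral_bE_le x0 hR)
    rw [h1]
    have h2 := ENNReal.toReal_mono ENNReal.ofReal_ne_top (lintegral_bE_le x0 hR)
    rw [ENNReal.toReal_ofReal (by positivity)] at h2
    refine h2.trans ?_
    have h3 : (R + 5 / 2) ^ 2 ≤ (11 * R) ^ 2 := by
      apply pow_le_pow_left₀ (by linarith)
      linarith
    nlinarith
  · rw [not_le] at hbig
    by_cases hnear : ∃ a, dist (lat a) x0 < R + 1 / 2
    · obtain ⟨a, ha⟩ := hnear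
      set p := lat a with hp
      have hbp : ∀ x ∈ ball x0 R, bE x = tail 0 p x := by
        intro x hx
        apply bE_near
        rw [mem_ball] at hx
        have := dist_triangle_right x (lat a) x0
        linarith
      by_cases hfar : 2 * R ≤ dist x0 p
      · -- far case
        refine ⟨b x0, ?_⟩
        have hx0p : x0 ≠ p := by
          intro h
          rw [h, dist_self] at hfar
          linarith
        have h1 : ∀ x ∈ ball x0 R, |b x - b x0| ≤ 2 := by
          intro x hx
          have hbx := hbp x hx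
          have hbx0 := hbp x0 (mem_ball_self hR)
          rw [mem_ball] at hx
          have h2 : dist x p ≤ dist x x0 + dist x0 p := dist_triangle _ _ _
          have h3 : dist x0 p ≤ dist x x0 + dist x p := by
            rw [dist_comm x x0]; exact dist_triangle _ _ _
          have hxp : x ≠ p := by
            intro h
            rw [h, dist_self] at h3
            rw [h] at hx
            linarith
          have h4 := tail_compare (p := p) (x := x) (y := x0) (by linarith)
          have h5 := tail_compare (p := p) (x := x0) (y := x) (by linarith)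
          have h6 := toReal_sub_le (by norm_num) h4 (tail_ne_top hx0p)
          have h7 := toReal_sub_le (by norm_num) h5 (tail_ne_top hxp)
          have h8 : (2 : ℝ≥0∞).toReal = 2 := by norm_num
          rw [h8] at h6 h7
          unfold b
          rw [hbx, hbx0, abs_le]
          constructor <;> linarith
        have h2 : (∫ x in ball x0 R, |b x - b x0|) ≤ ∫ x in ball x0 R, (2 : ℝ) := by
          apply setIntegral_mono_on _ _ measurableSet_ball h1
          · exact (hb.sub (integrableOn_const (vol_ball_ne_top x0 R))).abs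
          · exact integrableOn_const (vol_ball_ne_top x0 R)
        rw [setIntegral_const, vol_ball_real x0 hR.le, smul_eq_mul] at h2
        linarith
      · -- near case
        rw [not_le] at hfar
        have h3R : (0 : ℝ) < 3 * R := by linarith
        have hex : ∃ i : ℕ, (1 / 2 : ℝ) ^ (i + 1) < 3 * R := by
          obtain ⟨n, hn⟩ := exists_pow_lt_of_lt_one h3R (show (1 / 2 : ℝ) < 1 by norm_num)
          exact ⟨n, (half_pow_le' (by omega)).trans_lt hn⟩
        classical
        set i := Nat.find hex with hi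
        have hi1 : (1 / 2 : ℝ) ^ (i + 1) < 3 * R := Nat.find_spec hex
        have hi2 : 3 * R ≤ (1 / 2 : ℝ) ^ i := by
          by_cases h0 : i = 0
          · rw [h0, pow_zero]; linarith
          · obtain ⟨j, hj⟩ := Nat.exists_eq_succ_of_ne_zero h0
            have := Nat.find_min hex (m := j) (by omega)
            rw [hj]
            exact not_lt.1 this
        have hsplit : ∀ x ∈ ball x0 R, bE x = i + tail i p x := by
          intro x hx
          rw [hbp x hx]
          apply tail_zero_eq
          rw [mem_ball] at hx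
          have := dist_triangle x x0 p
          linarith
        refine ⟨i, ?_⟩
        have hT := lintegral_tail_le i p x0 R
        have hTfin : (∫⁻ x in ball x0 R, tail i p x) ≠ ⊤ :=
          ne_top_of_le_ne_top ENNReal.ofReal_ne_top hT
        have h1 : (∫ x in ball x0 R, |b x - i|) = (∫⁻ x in ball x0 R, tail i p x).toReal := by
          have hfin : ∀ᵐ x ∂(volume.restrict (ball x0 R)), tail i p x < ⊤ :=
            ae_lt_top (tail_meas i p) hTfin
          rw [← integral_toReal (tail_meas i p).aemeasurable hfin]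
          apply integral_congr_ae
          filter_upwards [hfin, ae_restrict_mem measurableSet_ball] with x hx hx2
          unfold b
          rw [hsplit x hx2, ENNReal.toReal_add (ENNReal.natCast_ne_top i) hx.ne,
            ENNReal.toReal_natCast, add_sub_cancel_left, abs_of_nonneg ENNReal.toReal_nonneg]
        rw [h1]
        have h2 := ENNReal.toReal_mono ENNReal.ofReal_ne_top hT
        rw [ENNReal.toReal_ofReal (by positivity)] at h2
        refine h2.trans ?_
        have h4 : (1 / 4 : ℝ) ^ (i + 1) = ((1 / 2) ^ (i + 1)) ^ 2 := by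
          rw [← pow_mul, mul_comm (i + 1) 2, pow_mul]; norm_num
        have h5 : ((1 / 2 : ℝ) ^ (i + 1)) ^ 2 ≤ (3 * R) ^ 2 :=
          pow_le_pow_left₀ (by positivity) hi1.le 2
        rw [h4]
        nlinarith
    · push Not at hnear
      refine ⟨0, ?_⟩
      have h1 : ∀ x ∈ ball x0 R, |b x - 0| = 0 := by
        intro x hx
        rw [mem_ball] at hx
        rw [b_far, sub_zero, abs_zero]
        intro a
        have := dist_triangle (lat a) x x0
        have := hnear a
        rw [dist_comm x]
        linarith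
      rw [setIntegral_congr_fun measurableSet_ball h1]
      simp
      positivity

end Pool.Agent.helper36.R
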