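import Pool.Agent.helper36.RBasic

set_option autoImplicit false
open MeasureTheory Metric Set
open scoped ENNReal

namespace Pool.Agent.helper36.R

/-- The open cone over the ball of radius `r` around `z`. -/
def Cone (z : E2) (r : ℝ) : Set E2 := {v | ∃ t : ℝ, 0 < t ∧ ‖t • v - z‖ < r}

lemma Cone_isOpen (z : E2) (r : ℝ) : IsOpen (Cone z r) := by
  have : Cone z r = ⋃ t ∈ Ioi (0 : ℝ), {v : E2 | ‖t • v - z‖ < r} := by
    ext v
    simp [Cone]
  rw [this]
  apply isOpen_biUnion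
  intro t _
  apply isOpen_lt _ continuous_const
  fun_prop

lemma Cone_smul {z : E2} {r s : ℝ} (hs : 0 < s) (v : E2) : s • v ∈ Cone z r ↔ v ∈ Cone z r := by
  constructor
  · rintro ⟨t, ht, h⟩
    exact ⟨t * s, by positivity, by rwa [mul_smul]⟩
  · rintro ⟨t, ht, h⟩
    refine ⟨t / s, by positivity, ?_⟩
    rw [smul_smul, div_mul_cancel₀ _ hs.ne']
    exact h

lemma mem_Cone_of_near {z u : E2} {r : ℝ} (h : ‖u - z‖ < r) : u ∈ Cone z r :=
  ⟨1, one_pos, by rwa [one_smul]⟩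

/-- The strip containing the bounded part of a thin cone. -/
def Strip (k r : ℝ) : Set E2 := {y | |y 0| < 2 ∧ |y 1 - k * y 0| < r}

lemma volume_Strip_le (k : ℝ) {r : ℝ} (hr : 0 ≤ r) : volume (Strip k r) ≤ ENNReal.ofReal (8 * r) := by
  set S : Set (ℝ × ℝ) := regionBetween (fun x => k * x - r) (fun x => k * x + r) (Ioo (-2) 2)
    with hS
  have hSm : MeasurableSet S :=
    measurableSet_regionBetween (by fun_prop) (by fun_prop) measurableSet_Ioo
  have hmp1 := EuclideanSpace.volume_preserving_symm_measurableEquiv_toLp (Fin 2)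
  have hmp2 := volume_preserving_finTwoArrow ℝ
  have hmp := hmp2.comp hmp1
  have h1 : Strip k r ⊆
      (MeasurableEquiv.finTwoArrow (α := ℝ) ∘ (MeasurableEquiv.toLp 2 (Fin 2 → ℝ)).symm) ⁻¹' S := by
    intro y hy
    obtain ⟨h1, h2⟩ := hy
    rw [abs_lt] at h1 h2
    simp only [mem_preimage, Function.comp, hS, regionBetween, mem_ofPred_eq]
    refine ⟨⟨?_, ?_⟩, ?_, ?_⟩
    · exact h1.1
    · exact h1.2
    · change k * y 0 - r < y 1
      linarith
    · change y 1 < k * y 0 + r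
      linarith
  have h2 : volume ((MeasurableEquiv.finTwoArrow (α := ℝ) ∘
      (MeasurableEquiv.toLp 2 (Fin 2 → ℝ)).symm) ⁻¹' S) = volume S :=
    hmp.measure_preimage hSm.nullMeasurableSet
  refine (measure_mono h1).trans ?_
  rw [h2, hS, Measure.volume_eq_prod, volume_regionBetween_eq_lintegral (by fun_prop) (by fun_prop)
    measurableSet_Ioo]
  have h3 : ∀ y : ℝ, ((fun x => k * x + r) - fun x => k * x - r) y = 2 * r := by
    intro y; simp only [Pi.sub_apply]; ring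
  simp_rw [h3]
  rw [lintegral_const, Measure.restrict_apply MeasurableSet.univ, univ_inter, Real.volume_Ioo,
    ← ENNReal.ofReal_mul (by positivity)]
  apply ENNReal.ofReal_le_ofReal
  linarith

lemma Cone_inter_subset {z : E2} {r : ℝ} (hr : 0 < r) (hr1 : r ≤ 1) (hz : 4 ≤ |z 0|) :
    Cone z r ∩ {y | ‖y‖ < 2} ⊆ Strip (z 1 / z 0) r := by
  rintro v ⟨⟨t, ht, h⟩, hv⟩
  simp only [mem_ofPred_eq] at hv
  have hz0 : z 0 ≠ 0 := by
    intro h0; rw [h0, abs_zero] at hz; linarith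
  have hznorm : 4 ≤ ‖z‖ := hz.trans (abs_coord_le z 0)
  set e := t • v - z with he
  have htv : t • v = z + e := by rw [he]; abel
  refine ⟨(abs_coord_le v 0).trans_lt hv, ?_⟩
  -- t > ‖z‖ / 4
  have h1 : ‖z‖ - r ≤ t * ‖v‖ := by
    have h2 : ‖z‖ ≤ ‖t • v‖ + ‖e‖ := by
      have : z = t • v - e := by rw [htv]; abel
      calc ‖z‖ = ‖t • v - e‖ := by rw [← this]
        _ ≤ ‖t • v‖ + ‖e‖ := norm_sub_le _ _
    rw [norm_smul, Real.norm_eq_abs, abs_of_pos ht] at h2
    linarith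
  have h2 : ‖z‖ / 4 < t := by
    by_contra hcon
    rw [not_lt] at hcon
    have : t * ‖v‖ ≤ ‖z‖ / 4 * 2 := by
      apply mul_le_mul hcon hv.le (norm_nonneg _) (by positivity)
    linarith
  have hv0 : t * v 0 = z 0 + e 0 := by
    have := congrArg (fun w : E2 => w 0) htv
    simpa using this
  have hv1 : t * v 1 = z 1 + e 1 := by
    have := congrArg (fun w : E2 => w 1) htv
    simpa using this
  have h3 : t * z 0 * (v 1 - z 1 / z 0 * v 0) = e 1 * z 0 - z 1 * e 0 := by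
    have : t * z 0 * (v 1 - z 1 / z 0 * v 0) = z 0 * (t * v 1) - z 1 * (t * v 0) := by
      field_simp
    rw [this, hv0, hv1]; ring
  have h4 : |e 1 * z 0 - z 1 * e 0| ≤ ‖e‖ * ‖z‖ := by
    apply abs_le_of_sq_le_sq _ (by positivity)
    rw [mul_pow, norm_sq_E2, norm_sq_E2]
    nlinarith [sq_nonneg (e 0 * z 0 + e 1 * z 1)]
  have h5 : t * |z 0| * |v 1 - z 1 / z 0 * v 0| ≤ ‖e‖ * ‖z‖ := by
    rw [← h3, abs_mul, abs_mul, abs_of_pos ht] at h4
    exact h4
  by_contra hcon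
  rw [not_lt] at hcon
  have h6 : ‖z‖ / 4 * 4 * r < t * |z 0| * |v 1 - z 1 / z 0 * v 0| := by
    have h7 : ‖z‖ / 4 * 4 < t * |z 0| := by
      apply mul_lt_mul h2 hz (by norm_num) ht.le
    calc ‖z‖ / 4 * 4 * r < t * |z 0| * r := by gcongr
      _ ≤ t * |z 0| * |v 1 - z 1 / z 0 * v 0| := by gcongr
  have h8 : ‖e‖ * ‖z‖ < r * ‖z‖ := by
    apply mul_lt_mul_of_pos_right h (by linarith)
  linarith

lemma volume_Cone_le {z : E2} {r : ℝ} (hr : 0 < r) (hr1 : r ≤ 1) (hz : 4 ≤ |z 0|) :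
    volume (Cone z r ∩ {y | ‖y‖ < 2}) ≤ ENNReal.ofReal (8 * r) :=
  (measure_mono (Cone_inter_subset hr hr1 hz)).trans (volume_Strip_le _ hr.le)

/-! ### Parameters -/

/-- The spacing parameter. -/
def mm (n : ℕ) : ℕ := 2 * n + 3
/-- The depth of the peaks. -/
def KK (n : ℕ) : ℕ := 16 * (mm n) ^ 4
/-- The radius of the cores. -/
noncomputable def rr (n : ℕ) : ℝ := (1 / 2) ^ (KK n)
/-- The size of the grid. -/
def NN (n : ℕ) : ℕ := 2 ^ ((mm n) ^ 4)

/-- Differences of grid points. -/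
noncomputable def zz (n : ℕ) (a c : ℤ) : E2 :=
  pt (2 * mm n * (2 * a - 1)) (2 * mm n * (2 * c - 1))

/-- The set of directions. -/
def UU : Set E2 := ⋃ n : ℕ, ⋃ q ∈ (Finset.Icc (-(2 * NN n : ℤ)) (2 * NN n)) ×ˢ
  (Finset.Icc (-(2 * NN n : ℤ)) (2 * NN n)), Cone (zz n q.1 q.2) (2 * rr n)

lemma UU_isOpen : IsOpen UU := by
  unfold UU
  apply isOpen_iUnion
  intro n
  apply isOpen_biUnion
  intro q _
  exact Cone_isOpen _ _

lemma UU_smul {s : ℝ} (hs : 0 < s) (v : E2) : s • v ∈ UU ↔ v ∈ UU := by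
  unfold UU
  simp only [mem_iUnion, Cone_smul hs]

lemma mm_ge (n : ℕ) : 3 ≤ mm n := by unfold mm; omega

lemma zz_zero_ge (n : ℕ) (a c : ℤ) : 4 ≤ |zz n a c 0| := by
  simp only [zz, pt_zero]
  have h1 : (1 : ℝ) ≤ |2 * (a : ℝ) - 1| := by
    have h2 : (2 * (a : ℝ) - 1) = ((2 * a - 1 : ℤ) : ℝ) := by push_cast; ring
    rw [h2, ← Int.cast_abs]
    exact_mod_cast Int.one_le_abs (by omega)
  have h3 : (3 : ℝ) ≤ mm n := by exact_mod_cast mm_ge n
  rw [abs_mul, abs_of_nonneg (by positivity)]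
  nlinarith

lemma rr_pos (n : ℕ) : 0 < rr n := by unfold rr; positivity

lemma M_ge (n : ℕ) : n + 1 ≤ (mm n) ^ 4 := by
  have h1 : mm n ≤ (mm n) ^ 4 := Nat.le_self_pow (by norm_num) _
  have : n + 1 ≤ mm n := by unfold mm; omega
  omega

lemma M_ge' (n : ℕ) : 81 ≤ (mm n) ^ 4 := by
  have := Nat.pow_le_pow_left (mm_ge n) 4
  simpa using this

lemma rr_le (n : ℕ) : 2 * rr n ≤ 1 := by
  unfold rr
  have h1 : 1 ≤ KK n := by
    unfold KK
    have := M_ge' n
    omega
  have : (1 / 2 : ℝ) ^ KK n ≤ (1 / 2) ^ 1 :=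
    pow_le_pow_of_le_one (by norm_num) (by norm_num) h1
  linarith

lemma level_bound (n : ℕ) : (4 * (NN n : ℝ) + 1) ^ 2 * (16 * rr n) ≤ (1 / 2) ^ (n + 1) := by
  set M := (mm n) ^ 4 with hM
  have hM1 : n + 1 ≤ M := M_ge n
  have hM2 : 81 ≤ M := M_ge' n
  have h1 : (4 * (NN n : ℝ) + 1) ≤ 2 ^ (M + 3) := by
    unfold NN
    rw [← hM]
    push_cast
    have : (1 : ℝ) ≤ 2 ^ M := one_le_pow₀ (by norm_num)
    have h2 : (2 : ℝ) ^ (M + 3) = 8 * 2 ^ M := by ring
    rw [h2]; linarith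
  have h3 : (4 * (NN n : ℝ) + 1) ^ 2 ≤ (2 ^ (M + 3)) ^ 2 := by
    apply pow_le_pow_left₀ (by positivity) h1
  have h4 : rr n = (1 / 2) ^ (16 * M) := by unfold rr KK; rw [hM]
  calc (4 * (NN n : ℝ) + 1) ^ 2 * (16 * rr n) ≤ (2 ^ (M + 3)) ^ 2 * (16 * rr n) := by
        have := rr_pos n
        gcongr
    _ = 2 ^ (2 * M + 10) * (1 / 2) ^ (16 * M) := by rw [h4]; ring
    _ = 2 ^ (2 * M + 10) * ((1 / 2) ^ (2 * M + 10) * (1 / 2) ^ (14 * M - 10)) := by
        rw [← pow_add]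
        congr 2
        omega
    _ = (1 / 2) ^ (14 * M - 10) := by
        rw [← mul_assoc, ← mul_pow]; norm_num
    _ ≤ (1 / 2) ^ (n + 1) := pow_le_pow_of_le_one (by norm_num) (by norm_num) (by omega)

lemma volume_UU_le : volume (UU ∩ {y | ‖y‖ < 2}) ≤ 1 := by
  unfold UU
  rw [iUnion_inter]
  refine (measure_iUnion_le _).trans ?_
  have h1 : ∀ n : ℕ, volume ((⋃ q ∈ (Finset.Icc (-(2 * NN n : ℤ)) (2 * NN n)) ×ˢ
      (Finset.Icc (-(2 * NN n : ℤ)) (2 * NN n)), Cone (zz n q.1 q.2) (2 * rr n)) ∩ {y | ‖y‖ < 2})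
      ≤ ENNReal.ofReal ((1 / 2) ^ (n + 1)) := by
    intro n
    rw [iUnion₂_inter]
    refine (measure_biUnion_finset_le _ _).trans ?_
    have h2 : ∀ q ∈ (Finset.Icc (-(2 * NN n : ℤ)) (2 * NN n)) ×ˢ
      (Finset.Icc (-(2 * NN n : ℤ)) (2 * NN n)),
      volume (Cone (zz n q.1 q.2) (2 * rr n) ∩ {y | ‖y‖ < 2}) ≤ ENNReal.ofReal (8 * (2 * rr n)) := by
      intro q _
      exact volume_Cone_le (by have := rr_pos n; positivity) (rr_le n) (zz_zero_ge n _ _)
    refine (Finset.sum_le_sum h2).trans ?_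
    rw [Finset.sum_const, nsmul_eq_mul, ← ENNReal.ofReal_natCast,
      ← ENNReal.ofReal_mul (by positivity)]
    apply ENNReal.ofReal_le_ofReal
    refine le_trans (le_of_eq ?_) (level_bound n)
    rw [Finset.card_product, Int.card_Icc]
    have h3 : ((2 * NN n : ℤ) + 1 - (-(2 * NN n : ℤ))).toNat = 4 * NN n + 1 := by omega
    rw [h3]
    push_cast
    ring
  refine (ENNReal.tsum_le_tsum h1).trans ?_
  rw [← ENNReal.ofReal_tsum_of_nonneg (fun n => by positivity)]
  · have h2 : ∑' n : ℕ, ((1 : ℝ) / 2) ^ (n + 1) = 1 := by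
      simp_rw [pow_succ]
      rw [tsum_mul_right, tsum_geometric_two]
      norm_num
    rw [h2]
    simp
  · have h3 : Summable (fun n : ℕ => (1 / 2 : ℝ) * (1 / 2) ^ n) :=
      (summable_geometric_of_lt_one (by norm_num) (by norm_num)).mul_left (1 / 2)
    refine h3.congr (fun n => ?_)
    rw [pow_succ]; ring

/-- The annulus. -/
def Ann : Set E2 := {y | 1 < ‖y‖ ∧ ‖y‖ < 2}

lemma Ann_meas : MeasurableSet Ann := by
  unfold Ann
  apply MeasurableSet.inter
  · exact measurableSet_lt measurable_const measurable_norm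
  · exact measurableSet_lt measurable_norm measurable_const

lemma volume_Ann : volume.real Ann = 3 * Real.pi := by
  have h1 : Ann = ball (0 : E2) 2 \ closedBall 0 1 := by
    ext y
    simp only [Ann, mem_ofPred_eq, mem_sdiff, mem_ball, dist_zero_right, mem_closedBall, not_le]
    tauto
  rw [h1, measureReal_sdiff (closedBall_subset_ball (by norm_num)) measurableSet_closedBall
    (vol_ball_ne_top (0 : E2) 2)]
  rw [vol_ball_real 0 (by norm_num)]
  have : volume.real (closedBall (0 : E2) 1) = Real.pi := by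
    rw [Measure.real, EuclideanSpace.volume_closedBall_fin_two]
    simp [ENNReal.toReal_ofReal Real.pi_pos.le]
  rw [this]; ring

lemma Ann_ne_top : volume Ann ≠ ⊤ := by
  apply ne_top_of_le_ne_top (vol_ball_ne_top (0 : E2) 2)
  apply measure_mono
  intro y hy
  simpa using hy.2

/-- measure of the part of the annulus in `UU` -/
noncomputable def sU : ℝ := volume.real (UU ∩ Ann)

lemma sU_nonneg : 0 ≤ sU := measureReal_nonneg

lemma sU_le : sU ≤ 1 := by
  unfold sU
  have h1 : volume (UU ∩ Ann) ≤ 1 := by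
    refine le_trans (measure_mono ?_) volume_UU_le
    intro y hy
    exact ⟨hy.1, hy.2.2⟩
  have := ENNReal.toReal_mono (by norm_num) h1
  simpa [Measure.real] using this

/-- The constant making the kernel mean zero. -/
noncomputable def cc : ℝ := sU / (3 * Real.pi - sU)

/-- The rough kernel. -/
noncomputable def Om (v : E2) : ℝ := UU.indicator (fun _ => 1 + cc) v - cc

lemma Om_meas : Measurable Om :=
  (measurable_const.indicator UU_isOpen.measurableSet).sub_const _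

lemma Om_of_mem {v : E2} (h : v ∈ UU) : Om v = 1 := by
  unfold Om
  rw [indicator_of_mem h]; ring

lemma Om_bounded : ∃ M : ℝ, ∀ y, |Om y| ≤ M := by
  refine ⟨1 + |cc|, fun y => ?_⟩
  unfold Om
  by_cases h : y ∈ UU
  · rw [indicator_of_mem h]
    have : 1 + cc - cc = 1 := by ring
    rw [this, abs_one]
    linarith [abs_nonneg cc]
  · rw [indicator_of_notMem h, zero_sub, abs_neg]
    linarith

lemma Om_smul {s : ℝ} (hs : 0 < s) (v : E2) : Om (s • v) = Om v := by
  unfold Om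
  congr 1
  by_cases h : v ∈ UU
  · rw [indicator_of_mem h, indicator_of_mem ((UU_smul hs v).2 h)]
  · rw [indicator_of_notMem h, indicator_of_notMem (fun h' => h ((UU_smul hs v).1 h'))]

lemma Om_mean_zero :
    (∫ y in {y : E2 | 1 < ‖y‖ ∧ ‖y‖ < 2}, Om (‖y‖⁻¹ • y)) = 0 := by
  have h1 : (∫ y in Ann, Om (‖y‖⁻¹ • y)) = ∫ y in Ann, Om y := by
    apply setIntegral_congr_fun Ann_meas
    intro y hy
    have : 0 < ‖y‖ := by linarith [hy.1]
    exact Om_smul (by positivity) y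
  change (∫ y in Ann, Om (‖y‖⁻¹ • y)) = 0
  rw [h1]
  have hic : Integrable (fun _ : E2 => cc) (volume.restrict Ann) :=
    integrableOn_const Ann_ne_top
  have hic' : Integrable (fun _ : E2 => 1 + cc) (volume.restrict Ann) :=
    integrableOn_const Ann_ne_top
  have h2 : (∫ y in Ann, Om y) = (1 + cc) * sU - cc * (3 * Real.pi) := by
    unfold Om
    rw [integral_sub (hic'.indicator UU_isOpen.measurableSet) hic,
      integral_indicator UU_isOpen.measurableSet,
      Measure.restrict_restrict UU_isOpen.measurableSet, setIntegral_const, setIntegral_const,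
      volume_Ann, smul_eq_mul, smul_eq_mul]
    unfold sU
    ring
  rw [h2]
  unfold cc
  have h3 : 0 < 3 * Real.pi - sU := by
    have := Real.pi_gt_three
    have := sU_le
    linarith
  field_simp
  ring

end Pool.Agent.helper36.R
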