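import Pool.Agent.helper36.RWeight

set_option autoImplicit false
open MeasureTheory Metric Set

namespace Pool.Agent.helper36.R

variable {I J : Type*} [Fintype I] [Fintype J]

/-- The sum of all peaks centred at `e i`, plus one. -/
noncomputable def P (K : ℕ) (e : I → E2) (x : E2) : ℝ := 1 + ∑ i, (W K (e i) x - 1)

lemma P_ge_one {K : ℕ} (hK : 1 ≤ K) (e : I → E2) (x : E2) : 1 ≤ P K e x := by
  unfold P
  have : 0 ≤ ∑ i, (W K (e i) x - 1) := Finset.sum_nonneg fun i _ => by
    have := W_ge_one hK (e i) x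
    linarith
  linarith

lemma P_meas (K : ℕ) (e : I → E2) : Measurable (P K e) := by
  unfold P
  exact measurable_const.add (Finset.measurable_sum _ fun i _ => (W_meas K (e i)).sub_const 1)

lemma P_integrable (K : ℕ) (e : I → E2) (x0 : E2) (R : ℝ) :
    IntegrableOn (P K e) (ball x0 R) := by
  unfold P
  refine Integrable.add (integrableOn_const (vol_ball_ne_top x0 R)) ?_
  exact integrable_finsetSum _ fun i _ => (W_integrable K (e i) x0 R).sub
    (integrableOn_const (vol_ball_ne_top x0 R))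

lemma P_eq_one {K : ℕ} (hK : 1 ≤ K) (e : I → E2) (x : E2) (h : ∀ i, 1 / 2 ≤ dist x (e i)) :
    P K e x = 1 := by
  unfold P
  rw [Finset.sum_eq_zero]
  · ring
  · intro i _
    rw [W_far hK (h i)]; ring

lemma P_eq_W {K : ℕ} (hK : 1 ≤ K) (e : I → E2) (x : E2) (i : I)
    (h : ∀ i', i' ≠ i → 1 / 2 ≤ dist x (e i')) :
    P K e x = W K (e i) x := by
  unfold P
  rw [Finset.sum_eq_single i]
  · ring
  · intro i' _ hi'
    rw [W_far hK (h i' hi')]; ring
  · intro h; exact absurd (Finset.mem_univ i) h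

/-- For big balls, the average of `P` is small by packing. -/
lemma P_average_le {K : ℕ} (hK : 1 ≤ K) (e : I → E2) {D : ℝ} (hD : 6 ≤ D)
    (hsep : ∀ i j, i ≠ j → D ≤ dist (e i) (e j)) (x0 : E2) {R : ℝ} (hR : D < 2 * R + 1) :
    (⨍ x in ball x0 R, P K e x) ≤ 1 + 72 * K / D ^ 2 := by
  classical
  have hpi := Real.pi_pos
  have hR0 : 0 < R := by linarith
  set s := Finset.univ.filter (fun i => dist (e i) x0 < R + 1 / 2) with hs
  have hpack : (s.card : ℝ) * (D / 2) ^ 2 ≤ (R + 1 / 2 + D / 2) ^ 2 := by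
    apply packing s e x0 (by linarith) (by linarith)
    · intro i _ j _ hij; exact hsep i j hij
    · intro i hi; exact (Finset.mem_filter.1 hi).2
  have hcard : (s.card : ℝ) ≤ 36 * R ^ 2 / D ^ 2 := by
    rw [le_div_iff₀ (by positivity)]
    have h1 : (R + 1 / 2 + D / 2) ^ 2 ≤ (3 * R) ^ 2 := by
      apply pow_le_pow_left₀ (by linarith)
      linarith
    nlinarith
  have h1 : (∫ x in ball x0 R, P K e x) =
      Real.pi * R ^ 2 + ∑ i, ∫ x in ball x0 R, (W K (e i) x - 1) := by
    unfold P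
    have hc : Integrable (fun _ : E2 => (1 : ℝ)) (volume.restrict (ball x0 R)) :=
      integrableOn_const (vol_ball_ne_top x0 R)
    have hi : ∀ i, Integrable (fun x => W K (e i) x - 1) (volume.restrict (ball x0 R)) :=
      fun i => (W_integrable K (e i) x0 R).sub hc
    rw [integral_add hc (integrable_finsetSum _ fun i _ => hi i),
      integral_finsetSum _ (fun i _ => hi i),
      setIntegral_const, vol_ball_real x0 hR0.le, smul_eq_mul, mul_one]
  have h2 : ∑ i, (∫ x in ball x0 R, (W K (e i) x - 1))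
      = ∑ i ∈ s, (∫ x in ball x0 R, (W K (e i) x - 1)) := by
    symm
    apply Finset.sum_subset (Finset.subset_univ s)
    intro i _ hi
    have hi' : R + 1 / 2 ≤ dist (e i) x0 := by
      by_contra hcon
      exact hi (Finset.mem_filter.2 ⟨Finset.mem_univ i, not_le.1 hcon⟩)
    rw [setIntegral_congr_fun measurableSet_ball (g := fun _ => (0 : ℝ))]
    · simp
    · intro x hx
      rw [mem_ball] at hx
      have := dist_triangle (e i) x x0
      rw [dist_comm (e i) x] at this
      simp only [W_far hK (show 1 / 2 ≤ dist x (e i) by linarith)]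
      ring
  have h3 : ∑ i ∈ s, (∫ x in ball x0 R, (W K (e i) x - 1)) ≤ ∑ i ∈ s, 2 * Real.pi * K :=
    Finset.sum_le_sum fun i _ => W_integral_le hK (e i) x0 R
  rw [Finset.sum_const, nsmul_eq_mul] at h3
  have h4 : (s.card : ℝ) * (2 * Real.pi * K) ≤ 36 * R ^ 2 / D ^ 2 * (2 * Real.pi * K) := by
    gcongr
  rw [average_ball x0 hR0, div_le_iff₀ (by positivity), h1, h2]
  have h5 : (1 + 72 * K / D ^ 2) * (Real.pi * R ^ 2)
      = Real.pi * R ^ 2 + 36 * R ^ 2 / D ^ 2 * (2 * Real.pi * K) := by ring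
  rw [h5]
  linarith

/-- The weight. -/
noncomputable def wt (K : ℕ) (e : I → E2) (f : J → E2) (x : E2) : ℝ := P K e x / P K f x

lemma wt_inv (K : ℕ) (e : I → E2) (f : J → E2) (x : E2) :
    (wt K e f x)⁻¹ = wt K f e x := by
  unfold wt; rw [inv_div]

lemma wt_meas (K : ℕ) (e : I → E2) (f : J → E2) : Measurable (wt K e f) :=
  (P_meas K e).div (P_meas K f)

lemma wt_pos {K : ℕ} (hK : 1 ≤ K) (e : I → E2) (f : J → E2) (x : E2) : 0 < wt K e f x :=
  div_pos (by linarith [P_ge_one hK e x]) (by linarith [P_ge_one hK f x])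

lemma wt_le {K : ℕ} (hK : 1 ≤ K) (e : I → E2) (f : J → E2) (x : E2) : wt K e f x ≤ P K e x :=
  div_le_self (by linarith [P_ge_one hK e x]) (P_ge_one hK f x)

lemma wt_integrable {K : ℕ} (hK : 1 ≤ K) (e : I → E2) (f : J → E2) (x0 : E2) (R : ℝ) :
    IntegrableOn (wt K e f) (ball x0 R) := by
  apply Integrable.mono (P_integrable K e x0 R) (wt_meas K e f).aestronglyMeasurable
  filter_upwards with x
  rw [Real.norm_eq_abs, Real.norm_eq_abs, abs_of_pos (wt_pos hK e f x),
    abs_of_pos (by linarith [P_ge_one hK e x])]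
  exact wt_le hK e f x

lemma locallyIntegrable_of_balls {u : E2 → ℝ} (h : ∀ x : E2, IntegrableOn u (ball x 1)) :
    LocallyIntegrable u volume := by
  intro x
  exact ⟨ball x 1, ball_mem_nhds x one_pos, h x⟩

lemma wt_locallyIntegrable {K : ℕ} (hK : 1 ≤ K) (e : I → E2) (f : J → E2) :
    LocallyIntegrable (wt K e f) volume :=
  locallyIntegrable_of_balls fun x => wt_integrable hK e f x 1

lemma average_mono_ball {u v : E2 → ℝ} (x0 : E2) {R : ℝ} (hR : 0 < R)
    (hu : IntegrableOn u (ball x0 R)) (hv : IntegrableOn v (ball x0 R)) (h : ∀ x, u x ≤ v x) :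
    (⨍ x in ball x0 R, u x) ≤ (⨍ x in ball x0 R, v x) := by
  rw [average_ball x0 hR, average_ball x0 hR]
  have h1 := setIntegral_mono_on hu hv measurableSet_ball (fun x _ => h x)
  exact div_le_div_of_nonneg_right h1 (by positivity)

lemma average_congr_ball {u v : E2 → ℝ} (x0 : E2) {R : ℝ} (hR : 0 < R)
    (h : ∀ x ∈ ball x0 R, u x = v x) :
    (⨍ x in ball x0 R, u x) = (⨍ x in ball x0 R, v x) := by
  rw [average_ball x0 hR, average_ball x0 hR, setIntegral_congr_fun measurableSet_ball h]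

lemma average_nonneg_ball {u : E2 → ℝ} (x0 : E2) {R : ℝ} (hR : 0 < R) (h : ∀ x, 0 ≤ u x) :
    0 ≤ (⨍ x in ball x0 R, u x) := by
  rw [average_ball x0 hR]
  exact div_nonneg (setIntegral_nonneg measurableSet_ball fun x _ => h x) (by positivity)

/-- If only the peak at `e i` is near the ball. -/
lemma wt_A2_one {K : ℕ} (hK : 1 ≤ K) (e : I → E2) (f : J → E2) (x0 : E2) {R : ℝ} (hR : 0 < R)
    (i : I) (he : ∀ i', i' ≠ i → R + 1 / 2 ≤ dist (e i') x0)
    (hf : ∀ k, R + 1 / 2 ≤ dist (f k) x0) :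
    (⨍ x in ball x0 R, wt K e f x) * (⨍ x in ball x0 R, wt K f e x) ≤ 81 * K := by
  have hdist : ∀ x ∈ ball x0 R, ∀ p : E2, R + 1 / 2 ≤ dist p x0 → 1 / 2 ≤ dist x p := by
    intro x hx p hp
    rw [mem_ball] at hx
    have := dist_triangle p x x0
    rw [dist_comm p x] at this
    linarith
  have h1 : (⨍ x in ball x0 R, wt K e f x) = (⨍ x in ball x0 R, W K (e i) x) := by
    apply average_congr_ball x0 hR
    intro x hx
    unfold wt
    rw [P_eq_one hK f x (fun k => hdist x hx _ (hf k)),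
      P_eq_W hK e x i (fun i' hi' => hdist x hx _ (he i' hi')), div_one]
  have h2 : (⨍ x in ball x0 R, wt K f e x) = (⨍ x in ball x0 R, (W K (e i) x)⁻¹) := by
    apply average_congr_ball x0 hR
    intro x hx
    unfold wt
    rw [P_eq_one hK f x (fun k => hdist x hx _ (hf k)),
      P_eq_W hK e x i (fun i' hi' => hdist x hx _ (he i' hi')), one_div]
  rw [h1, h2]
  exact W_A2_single hK (e i) x0 hR

lemma wt_A2 {K : ℕ} (hK : 1 ≤ K) (e : I → E2) (f : J → E2) {D A : ℝ} (hD : 6 ≤ D)
    (hee : ∀ i j, i ≠ j → D ≤ dist (e i) (e j))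
    (hff : ∀ i j, i ≠ j → D ≤ dist (f i) (f j))
    (hef : ∀ i j, D ≤ dist (e i) (f j))
    (hA1 : 81 * K ≤ A) (hA2 : (1 + 72 * K / D ^ 2) ^ 2 ≤ A) (x0 : E2) {R : ℝ} (hR : 0 < R) :
    (⨍ x in ball x0 R, wt K e f x) * (⨍ x in ball x0 R, (wt K e f x)⁻¹) ≤ A := by
  have hK1 : (1 : ℝ) ≤ K := by exact_mod_cast hK
  simp_rw [wt_inv]
  by_cases hbig : D < 2 * R + 1
  · have h1 : (⨍ x in ball x0 R, wt K e f x) ≤ 1 + 72 * K / D ^ 2 :=
      (average_mono_ball x0 hR (wt_integrable hK e f x0 R) (P_integrable K e x0 R)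
        (wt_le hK e f)).trans (P_average_le hK e hD hee x0 hbig)
    have h2 : (⨍ x in ball x0 R, wt K f e x) ≤ 1 + 72 * K / D ^ 2 :=
      (average_mono_ball x0 hR (wt_integrable hK f e x0 R) (P_integrable K f x0 R)
        (wt_le hK f e)).trans (P_average_le hK f hD hff x0 hbig)
    refine le_trans ?_ hA2
    rw [sq]
    apply mul_le_mul h1 h2 _ (by positivity)
    exact average_nonneg_ball x0 hR fun x => (wt_pos hK f e x).le
  · rw [not_lt] at hbig
    have hnear : ∀ p q : E2, D ≤ dist p q → dist p x0 < R + 1 / 2 → R + 1 / 2 ≤ dist q x0 := by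
      intro p q hpq hp
      have := dist_triangle_right p q x0
      linarith
    by_cases hE : ∃ i, dist (e i) x0 < R + 1 / 2
    · obtain ⟨i, hi⟩ := hE
      refine (wt_A2_one hK e f x0 hR i ?_ ?_).trans hA1
      · intro i' hi'
        exact hnear (e i) (e i') (hee i i' hi'.symm) hi
      · intro k
        exact hnear (e i) (f k) (hef i k) hi
    · by_cases hF : ∃ k, dist (f k) x0 < R + 1 / 2
      · obtain ⟨k, hk⟩ := hF
        rw [mul_comm]
        refine (wt_A2_one hK f e x0 hR k ?_ ?_).trans hA1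
        · intro k' hk'
          exact hnear (f k) (f k') (hff k k' hk'.symm) hk
        · intro i
          exact hnear (f k) (e i) (by rw [dist_comm]; exact hef i k) hk
      · push Not at hE hF
        have hdist : ∀ x ∈ ball x0 R, ∀ p : E2, R + 1 / 2 ≤ dist p x0 → 1 / 2 ≤ dist x p := by
          intro x hx p hp
          rw [mem_ball] at hx
          have := dist_triangle p x x0
          rw [dist_comm p x] at this
          linarith
        have h1 : (⨍ x in ball x0 R, wt K e f x) ≤ 1 := by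
          apply average_le_of_le x0 hR _ 1 zero_le_one
          intro x hx
          unfold wt
          rw [P_eq_one hK f x (fun k => hdist x hx _ (hF k)),
            P_eq_one hK e x (fun k => hdist x hx _ (hE k)), div_one]
        have h2 : (⨍ x in ball x0 R, wt K f e x) ≤ 1 := by
          apply average_le_of_le x0 hR _ 1 zero_le_one
          intro x hx
          unfold wt
          rw [P_eq_one hK f x (fun k => hdist x hx _ (hF k)),
            P_eq_one hK e x (fun k => hdist x hx _ (hE k)), div_one]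
        have h3 : (0 : ℝ) ≤ (⨍ x in ball x0 R, wt K f e x) :=
          average_nonneg_ball x0 hR fun x => (wt_pos hK f e x).le
        calc (⨍ x in ball x0 R, wt K e f x) * (⨍ x in ball x0 R, wt K f e x)
            ≤ 1 * 1 := mul_le_mul h1 h2 h3 (by norm_num)
          _ ≤ A := by linarith

/-- On the core of `e i`, the weight is `K 4^K`. -/
lemma wt_core {K : ℕ} (hK : 1 ≤ K) (e : I → E2) (f : J → E2) (i : I) (x : E2)
    (hx : dist x (e i) < (1 / 2) ^ K) (he : ∀ i', i' ≠ i → 1 ≤ dist (e i) (e i'))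
    (hf : ∀ k, 1 ≤ dist (e i) (f k)) : wt K e f x = K * 4 ^ K := by
  have hx2 : dist x (e i) < 1 / 2 := by
    have := half_pow_le hK
    rw [pow_one] at this
    exact hx.trans_le this
  have hdist : ∀ p : E2, 1 ≤ dist (e i) p → 1 / 2 ≤ dist x p := by
    intro p hp
    have := dist_triangle (e i) x p
    rw [dist_comm (e i) x] at this
    linarith
  unfold wt
  rw [P_eq_one hK f x (fun k => hdist _ (hf k)), P_eq_W hK e x i (fun i' hi' => hdist _ (he i' hi')),
    div_one, W_core hx]

end Pool.Agent.helper36.R
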