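import Pool.Agent.helper36.RBmo
import Pool.Agent.helper36.ROmega
import Pool.Agent.helper36.RTotal

set_option autoImplicit false
open MeasureTheory Metric Set
open scoped ENNReal

namespace Pool.Agent.helper36.R

/-- Centres of the peaks. -/
noncomputable def ee (n : ℕ) (i : Fin (NN n) × Fin (NN n)) : E2 :=
  pt (4 * mm n * (i.1 : ℕ)) (4 * mm n * (i.2 : ℕ))

/-- Centres of the valleys. -/
noncomputable def fc (n : ℕ) (k : Fin (2 * NN n) × Fin (2 * NN n)) : E2 :=
  pt (4 * mm n * (k.1 : ℕ) + 2 * mm n) (4 * mm n * (k.2 : ℕ) + 2 * mm n)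

lemma mm_real_ge (n : ℕ) : (3 : ℝ) ≤ mm n := by exact_mod_cast mm_ge n

lemma nat_sep {a c : ℕ} (h : a ≠ c) : (1 : ℝ) ≤ |(a : ℝ) - c| := by
  have h2 : (a : ℝ) - c = (((a : ℤ) - c : ℤ) : ℝ) := by push_cast; ring
  have h3 : (1 : ℤ) ≤ |(a : ℤ) - c| := Int.one_le_abs (sub_ne_zero.2 (by exact_mod_cast h))
  rw [h2, ← Int.cast_abs]
  exact_mod_cast h3

lemma grid_coord (m : ℝ) (hm : 3 ≤ m) {a c : ℕ} (h : a ≠ c) (s : ℝ) :
    2 * m ≤ |(4 * m * a + s) - (4 * m * c + s)| := by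
  have h1 := nat_sep h
  have h2 : (4 * m * a + s) - (4 * m * c + s) = 4 * m * ((a : ℝ) - c) := by ring
  rw [h2, abs_mul, abs_of_pos (by positivity)]
  nlinarith

lemma ee_sep (n : ℕ) (i j : Fin (NN n) × Fin (NN n)) (h : i ≠ j) :
    2 * (mm n : ℝ) ≤ dist (ee n i) (ee n j) := by
  rw [dist_eq_norm]
  by_cases h1 : i.1 = j.1
  · have h2 : (i.2 : ℕ) ≠ j.2 := fun h2 => h (Prod.ext h1 (Fin.ext h2))
    refine le_trans ?_ (abs_coord_le (ee n i - ee n j) 1)
    simp only [ee, PiLp.sub_apply, pt_one]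
    simpa using grid_coord (mm n) (mm_real_ge n) h2 0
  · have h2 : (i.1 : ℕ) ≠ j.1 := fun h2 => h1 (Fin.ext h2)
    refine le_trans ?_ (abs_coord_le (ee n i - ee n j) 0)
    simp only [ee, PiLp.sub_apply, pt_zero]
    simpa using grid_coord (mm n) (mm_real_ge n) h2 0

lemma fc_sep (n : ℕ) (i j : Fin (2 * NN n) × Fin (2 * NN n)) (h : i ≠ j) :
    2 * (mm n : ℝ) ≤ dist (fc n i) (fc n j) := by
  rw [dist_eq_norm]
  by_cases h1 : i.1 = j.1
  · have h2 : (i.2 : ℕ) ≠ j.2 := fun h2 => h (Prod.ext h1 (Fin.ext h2))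
    refine le_trans ?_ (abs_coord_le (fc n i - fc n j) 1)
    simp only [fc, PiLp.sub_apply, pt_one]
    exact grid_coord (mm n) (mm_real_ge n) h2 _
  · have h2 : (i.1 : ℕ) ≠ j.1 := fun h2 => h1 (Fin.ext h2)
    refine le_trans ?_ (abs_coord_le (fc n i - fc n j) 0)
    simp only [fc, PiLp.sub_apply, pt_zero]
    exact grid_coord (mm n) (mm_real_ge n) h2 _

/-- Differences of the two grids are among the directions. -/
lemma ee_sub_fc (n : ℕ) (i : Fin (NN n) × Fin (NN n)) (k : Fin (2 * NN n) × Fin (2 * NN n)) :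
    ee n i - fc n k = zz n (((i.1 : ℕ) : ℤ) - ((k.1 : ℕ) : ℤ)) (((i.2 : ℕ) : ℤ) - ((k.2 : ℕ) : ℤ)) := by
  ext j
  fin_cases j
  · simp only [ee, fc, zz, PiLp.sub_apply]
    simp
    ring
  · simp only [ee, fc, zz, PiLp.sub_apply]
    simp
    ring

lemma ef_sep (n : ℕ) (i : Fin (NN n) × Fin (NN n)) (k : Fin (2 * NN n) × Fin (2 * NN n)) :
    2 * (mm n : ℝ) ≤ dist (ee n i) (fc n k) := by
  rw [dist_eq_norm, ee_sub_fc]
  refine le_trans ?_ (abs_coord_le _ 0)
  simp only [zz, pt_zero]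
  have h3 := mm_real_ge n
  set a : ℤ := ((i.1 : ℕ) : ℤ) - ((k.1 : ℕ) : ℤ)
  have h1 : (1 : ℝ) ≤ |2 * (a : ℝ) - 1| := by
    have h2 : (2 * (a : ℝ) - 1) = ((2 * a - 1 : ℤ) : ℝ) := by push_cast; ring
    rw [h2, ← Int.cast_abs]
    exact_mod_cast Int.one_le_abs (by omega)
  rw [abs_mul, abs_of_nonneg (by positivity)]
  nlinarith

lemma ee_lat (n : ℕ) (i : Fin (NN n) × Fin (NN n)) :
    ee n i = lat ((mm n : ℤ) * ((i.1 : ℕ) : ℤ), (mm n : ℤ) * ((i.2 : ℕ) : ℤ)) := by
  ext j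
  fin_cases j
  · simp only [ee, lat]
    simp
    ring
  · simp only [ee, lat]
    simp
    ring

lemma fc_lat (n : ℕ) (k : Fin (2 * NN n) × Fin (2 * NN n)) (a : ℤ × ℤ) :
    2 ≤ dist (fc n k) (lat a) := by
  rw [dist_eq_norm]
  refine le_trans ?_ (abs_coord_le _ 0)
  simp only [fc, lat, PiLp.sub_apply, pt_zero]
  have h1 : (4 * (mm n : ℝ) * ((k.1 : ℕ) : ℝ) + 2 * mm n - 4 * (a.1 : ℝ))
      = 2 * ((2 * (2 * (n : ℤ) + 3) * ((k.1 : ℕ) : ℤ) + (2 * (n : ℤ) + 3) - 2 * a.1 : ℤ) : ℝ) := by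
    unfold mm
    push_cast
    ring
  rw [h1, abs_mul, ← Int.cast_abs]
  have h2 : (1 : ℤ) ≤
      |2 * (2 * (n : ℤ) + 3) * ((k.1 : ℕ) : ℤ) + (2 * (n : ℤ) + 3) - 2 * a.1| := by
    apply Int.one_le_abs
    intro h
    have h3 : 2 * ((2 * (n : ℤ) + 3) * ((k.1 : ℕ) : ℤ)) + (2 * (n : ℤ) + 3) - 2 * a.1 = 0 := by
      linarith
    omega
  have h3 : (1 : ℝ) ≤
      ((|2 * (2 * (n : ℤ) + 3) * ((k.1 : ℕ) : ℤ) + (2 * (n : ℤ) + 3) - 2 * a.1| : ℤ) : ℝ) := by
    exact_mod_cast h2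
  norm_num at h3 ⊢
  linarith

lemma rr_le_half (n : ℕ) : rr n ≤ 1 / 2 := by linarith [rr_le n]

/-- The support of the test function. -/
def SS (n : ℕ) : Set E2 := ⋃ k : Fin (2 * NN n) × Fin (2 * NN n), ball (fc n k) (rr n)

lemma SS_meas (n : ℕ) : MeasurableSet (SS n) := MeasurableSet.iUnion fun _ => measurableSet_ball

/-- The test function. -/
noncomputable def ff (n : ℕ) (y : E2) : ℝ := (SS n).indicator (fun _ => (1 : ℝ)) y

lemma ff_meas (n : ℕ) : Measurable (ff n) := measurable_const.indicator (SS_meas n)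

lemma SS_dist_lat {n : ℕ} {y : E2} (hy : y ∈ SS n) (a : ℤ × ℤ) : 3 / 2 ≤ dist y (lat a) := by
  unfold SS at hy
  rw [mem_iUnion] at hy
  obtain ⟨k, hk⟩ := hy
  rw [mem_ball] at hk
  have h1 := fc_lat n k a
  have h2 := dist_triangle (fc n k) y (lat a)
  rw [dist_comm (fc n k) y] at h2
  have := rr_le_half n
  linarith

lemma b_SS {n : ℕ} {y : E2} (hy : y ∈ SS n) : b y = 0 :=
  b_far fun a => by have := SS_dist_lat hy a; linarith

lemma ff_compact (n : ℕ) : HasCompactSupport (ff n) := by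
  have hb : Bornology.IsBounded (SS n) := by
    unfold SS
    rw [Bornology.isBounded_iUnion]
    intro k
    exact isBounded_ball
  apply HasCompactSupport.of_support_subset_isCompact hb.isCompact_closure
  intro y hy
  by_contra h
  exact hy (indicator_of_notMem (fun h' => h (subset_closure h')) _)

/-- The kernel integrand. -/
noncomputable def ker (n : ℕ) (x y : E2) : ℝ :=
  (b x - b y) * (Om (‖x - y‖⁻¹ • (x - y)) / ‖x - y‖ ^ 2) * ff n y

/-- The commutator applied to the test function. -/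
noncomputable def gg (n : ℕ) (x : E2) : ℝ := ∫ y, ker n x y

lemma pv_tendsto (n : ℕ) (x : E2) :
    Filter.Tendsto (fun ε : ℝ => ∫ y in {y : E2 | ε < dist x y}, ker n x y)
      (nhdsWithin 0 (Set.Ioi 0)) (nhds (gg n x)) := by
  by_cases hb : b x = 0
  · have h0 : ∀ y, ker n x y = 0 := by
      intro y
      unfold ker
      by_cases hy : y ∈ SS n
      · rw [hb, b_SS hy]; ring
      · unfold ff
        rw [indicator_of_notMem hy]; ring
    have h1 : gg n x = 0 := by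
      unfold gg
      simp [h0]
    rw [h1]
    simp only [h0, integral_zero]
    exact tendsto_const_nhds
  · have hx : ∃ a, dist x (lat a) < 1 / 2 := by
      by_contra h
      push Not at h
      exact hb (b_far h)
    obtain ⟨a, ha⟩ := hx
    have hfar : ∀ y ∈ SS n, 1 ≤ dist x y := by
      intro y hy
      have h1 := SS_dist_lat hy a
      have h2 := dist_triangle y x (lat a)
      rw [dist_comm y x] at h2
      linarith
    apply Filter.Tendsto.congr' _ tendsto_const_nhds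
    have hev : ∀ᶠ ε : ℝ in nhdsWithin 0 (Set.Ioi 0), ε < 1 := by
      apply nhdsWithin_le_nhds
      exact Iio_mem_nhds (by norm_num)
    filter_upwards [hev] with ε hε
    unfold gg
    symm
    apply setIntegral_eq_integral_of_forall_compl_eq_zero
    intro y hy
    simp only [mem_ofPred_eq, not_lt] at hy
    have : y ∉ SS n := by
      intro h
      have := hfar y h
      linarith
    unfold ker ff
    rw [indicator_of_notMem this, mul_zero]

end Pool.Agent.helper36.R
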