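import Pool.Agent.helper36.RGrid

set_option autoImplicit false
open MeasureTheory Metric Set
open scoped ENNReal

namespace Pool.Agent.helper36.R

lemma rr_pos' (n : ℕ) : 0 ≤ rr n := (rr_pos n).le

lemma ker_eq {n : ℕ} {i : Fin (NN n) × Fin (NN n)} {x y : E2} (hx : dist x (ee n i) < rr n)
    (hy : y ∈ SS n) : ker n x y = b x / ‖x - y‖ ^ 2 := by
  have hbS := b_SS hy
  have hff : ff n y = 1 := indicator_of_mem (s := SS n) (f := fun _ => (1 : ℝ)) hy
  unfold SS at hy
  rw [mem_iUnion] at hy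
  obtain ⟨k, hk⟩ := hy
  rw [mem_ball] at hk
  have hnear : ‖(x - y) - (ee n i - fc n k)‖ < 2 * rr n := by
    have h1 : (x - y) - (ee n i - fc n k) = (x - ee n i) - (y - fc n k) := by abel
    rw [h1]
    rw [dist_eq_norm] at hx hk
    calc ‖(x - ee n i) - (y - fc n k)‖ ≤ ‖x - ee n i‖ + ‖y - fc n k‖ := norm_sub_le _ _
      _ < 2 * rr n := by linarith
  have hU : x - y ∈ UU := by
    unfold UU
    rw [mem_iUnion]
    refine ⟨n, ?_⟩
    rw [mem_iUnion₂]
    refine ⟨(((i.1 : ℕ) : ℤ) - ((k.1 : ℕ) : ℤ), ((i.2 : ℕ) : ℤ) - ((k.2 : ℕ) : ℤ)), ?_, ?_⟩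
    · have h1 := i.1.isLt
      have h2 := i.2.isLt
      have h3 := k.1.isLt
      have h4 := k.2.isLt
      rw [Finset.mem_product, Finset.mem_Icc, Finset.mem_Icc]
      refine ⟨⟨?_, ?_⟩, ?_, ?_⟩ <;> simp only <;> omega
    · apply mem_Cone_of_near
      rw [ee_sub_fc] at hnear
      exact hnear
  have hpos : 0 < ‖x - y‖ := by
    have h1 := ef_sep n i k
    have h2 := dist_triangle4 (ee n i) x y (fc n k)
    rw [dist_comm (ee n i) x] at h2
    have h3 := mm_real_ge n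
    have h4 := rr_le_half n
    rw [← dist_eq_norm]
    linarith
  unfold ker
  rw [Om_smul (inv_pos.2 hpos), Om_of_mem hU, hbS, hff]
  ring

lemma SS_disj (n : ℕ) : Pairwise (Function.onFun Disjoint
    fun k : Fin (2 * NN n) × Fin (2 * NN n) => ball (fc n k) (rr n)) := by
  intro k l hkl
  apply Metric.ball_disjoint_ball
  have h1 := fc_sep n k l hkl
  have h2 := mm_real_ge n
  have h3 := rr_le_half n
  linarith

/-- Lower bound for the commutator on the cores by a lattice sum. -/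
lemma gg_ge_sum {n : ℕ} {i : Fin (NN n) × Fin (NN n)} {x : E2} (hx : dist x (ee n i) < rr n)
    (hne : x ≠ ee n i) :
    KK n * (Real.pi * rr n ^ 2) * ∑ k, 1 / (dist (ee n i) (fc n k) + 1) ^ 2 ≤ gg n x := by
  have hb : (KK n : ℝ) ≤ b x := by
    rw [ee_lat] at hx hne
    exact b_ge hx hne
  have hb0 : 0 ≤ b x := b_nonneg x
  have h1 : gg n x = ∫ y in SS n, b x / ‖x - y‖ ^ 2 := by
    unfold gg
    rw [← integral_indicator (SS_meas n)]
    apply integral_congr_ae
    filter_upwards with y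
    by_cases hy : y ∈ SS n
    · rw [indicator_of_mem hy, ker_eq hx hy]
    · rw [indicator_of_notMem hy]
      unfold ker ff
      rw [indicator_of_notMem hy, mul_zero]
  have hdist : ∀ k, ∀ y ∈ ball (fc n k) (rr n),
      1 ≤ ‖x - y‖ ∧ ‖x - y‖ ≤ dist (ee n i) (fc n k) + 1 := by
    intro k y hy
    rw [mem_ball] at hy
    have h1 := ef_sep n i k
    have h2 := dist_triangle4 (ee n i) x y (fc n k)
    rw [dist_comm (ee n i) x] at h2
    have h3 := mm_real_ge n
    have h4 := rr_le_half n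
    have h5 := dist_triangle4 x (ee n i) (fc n k) y
    rw [dist_comm (fc n k) y] at h5
    rw [← dist_eq_norm]
    constructor <;> linarith
  have hmeas : Measurable (fun y : E2 => b x / ‖x - y‖ ^ 2) := by
    have : Measurable (fun y : E2 => ‖x - y‖ ^ 2) := by fun_prop
    exact measurable_const.div this
  have hint : ∀ k, IntegrableOn (fun y : E2 => b x / ‖x - y‖ ^ 2) (ball (fc n k) (rr n)) := by
    intro k
    apply Measure.integrableOn_of_bounded (M := b x) (vol_ball_ne_top _ _)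
      hmeas.aestronglyMeasurable
    filter_upwards [ae_restrict_mem measurableSet_ball] with y hy
    have h2 := (hdist k y hy).1
    rw [Real.norm_eq_abs, abs_of_nonneg (by positivity)]
    apply div_le_self hb0
    nlinarith
  rw [h1]
  unfold SS
  rw [integral_iUnion_fintype (fun _ => measurableSet_ball) (SS_disj n) hint, Finset.mul_sum]
  apply Finset.sum_le_sum
  intro k _
  have h2 : (∫ y in ball (fc n k) (rr n), (KK n : ℝ) * (1 / (dist (ee n i) (fc n k) + 1) ^ 2))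
      ≤ ∫ y in ball (fc n k) (rr n), b x / ‖x - y‖ ^ 2 := by
    apply setIntegral_mono_on (integrableOn_const (vol_ball_ne_top _ _)) (hint k)
      measurableSet_ball
    intro y hy
    obtain ⟨h3, h4⟩ := hdist k y hy
    rw [div_eq_mul_one_div (b x)]
    gcongr
  rw [setIntegral_const, vol_ball_real _ (rr_pos' n), smul_eq_mul] at h2
  linarith

lemma sum_double_fin (N : ℕ) (F : ℕ → ℕ → ℝ) :
    ∑ k : Fin N × Fin N, F k.1 k.2 = ∑ a ∈ Finset.range N, ∑ c ∈ Finset.range N, F a c := by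
  rw [Fintype.sum_prod_type]
  rw [Finset.sum_range (fun a => ∑ c ∈ Finset.range N, F a c)]
  apply Finset.sum_congr rfl
  intro a _
  rw [Finset.sum_range (fun c => F a c)]

lemma sum_shift_le (N s : ℕ) (hs : s ≤ N) (F : ℕ → ℝ) (hF : ∀ a, 0 ≤ F a) :
    ∑ a ∈ Finset.range N, F (s + a) ≤ ∑ a ∈ Finset.range (2 * N), F a := by
  have h1 : ∑ a ∈ Finset.range N, F (s + a) = ∑ a ∈ Finset.Ico s (s + N), F a := by
    rw [Finset.sum_Ico_eq_sum_range]
    simp
  rw [h1]
  apply Finset.sum_le_sum_of_subset_of_nonneg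
  · intro a ha
    rw [Finset.mem_Ico] at ha
    rw [Finset.mem_range]
    omega
  · intro a _ _
    exact hF a

lemma harm_ge (M : ℕ) : (M : ℝ) / 2 ≤ ∑ a ∈ Finset.range (2 ^ M), 1 / ((a : ℝ) + 1) := by
  have h1 := log_add_one_le_harmonic (2 ^ M)
  have h2 : ((harmonic (2 ^ M) : ℚ) : ℝ) = ∑ a ∈ Finset.range (2 ^ M), 1 / ((a : ℝ) + 1) := by
    unfold harmonic
    push_cast
    apply Finset.sum_congr rfl
    intro a _
    rw [one_div]
  rw [← h2]
  refine le_trans ?_ h1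
  have h3 : Real.log ((2 : ℝ) ^ M) ≤ Real.log (((2 ^ M + 1 : ℕ)) : ℝ) := by
    apply Real.log_le_log (by positivity)
    push_cast
    linarith
  refine le_trans ?_ h3
  rw [Real.log_pow]
  have h4 := Real.log_two_gt_d9
  have h5 : (0 : ℝ) ≤ M := Nat.cast_nonneg M
  nlinarith

lemma grid_dist_le (m : ℝ) (hm : 3 ≤ m) (p q a c : ℝ) (hc : 0 ≤ c) (hca : c ≤ a) :
    dist (pt (4 * m * p) (4 * m * q)) (pt (4 * m * (p + a) + 2 * m) (4 * m * (q + c) + 2 * m)) + 1
      ≤ 8 * m * (a + 1) := by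
  rw [dist_eq_norm]
  have h5 := norm_le_add (pt (4 * m * p) (4 * m * q)
    - pt (4 * m * (p + a) + 2 * m) (4 * m * (q + c) + 2 * m))
  simp only [PiLp.sub_apply, pt_zero, pt_one] at h5
  have h6 : 4 * m * p - (4 * m * (p + a) + 2 * m) = -(4 * m * a + 2 * m) := by ring
  have h7 : 4 * m * q - (4 * m * (q + c) + 2 * m) = -(4 * m * c + 2 * m) := by ring
  have ha : 0 ≤ m * a := mul_nonneg (by linarith) (hc.trans hca)
  have hc' : 0 ≤ m * c := mul_nonneg (by linarith) hc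
  have h10 : m * c ≤ m * a := mul_le_mul_of_nonneg_left hca (by linarith)
  rw [h6, h7, abs_neg, abs_neg, abs_of_nonneg (by linarith), abs_of_nonneg (by linarith)] at h5
  linarith

lemma grid_term_ge (m : ℝ) (hm : 3 ≤ m) (p q a c : ℝ) (hc : 0 ≤ c) (hca : c ≤ a) :
    1 / (64 * m ^ 2 * (a + 1) ^ 2) ≤
    1 / (dist (pt (4 * m * p) (4 * m * q))
      (pt (4 * m * (p + a) + 2 * m) (4 * m * (q + c) + 2 * m)) + 1) ^ 2 := by
  have h1 := grid_dist_le m hm p q a c hc hca
  set d := dist (pt (4 * m * p) (4 * m * q))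
      (pt (4 * m * (p + a) + 2 * m) (4 * m * (q + c) + 2 * m)) with hd
  have hd0 : 0 ≤ d := dist_nonneg
  have h2 : (d + 1) ^ 2 ≤ 64 * m ^ 2 * (a + 1) ^ 2 := by
    calc (d + 1) ^ 2 ≤ (8 * m * (a + 1)) ^ 2 := pow_le_pow_left₀ (by linarith) h1 2
      _ = _ := by ring
  exact one_div_le_one_div_of_le (by positivity) h2

lemma lattice_sum_ge (n : ℕ) (i : Fin (NN n) × Fin (NN n)) :
    (mm n : ℝ) ^ 2 / 128 ≤ ∑ k, 1 / (dist (ee n i) (fc n k) + 1) ^ 2 := by
  set m : ℝ := ((mm n : ℕ) : ℝ) with hm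
  have hm3 : 3 ≤ m := mm_real_ge n
  set F : ℕ → ℕ → ℝ := fun a c =>
    1 / (dist (ee n i) (pt (4 * m * a + 2 * m) (4 * m * c + 2 * m)) + 1) ^ 2 with hF
  have hF0 : ∀ a c, 0 ≤ F a c := fun a c => by simp only [hF]; positivity
  have h1 : ∑ k, 1 / (dist (ee n i) (fc n k) + 1) ^ 2
      = ∑ a ∈ Finset.range (2 * NN n), ∑ c ∈ Finset.range (2 * NN n), F a c := by
    rw [← sum_double_fin]
    rfl
  rw [h1]
  have h2 : ∑ a ∈ Finset.range (NN n), ∑ c ∈ Finset.range (NN n), F (i.1 + a) (i.2 + c)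
      ≤ ∑ a ∈ Finset.range (2 * NN n), ∑ c ∈ Finset.range (2 * NN n), F a c := by
    refine le_trans ?_ (sum_shift_le (NN n) i.1 i.1.isLt.le
      (fun a => ∑ c ∈ Finset.range (2 * NN n), F a c)
      (fun a => Finset.sum_nonneg fun c _ => hF0 a c))
    apply Finset.sum_le_sum
    intro a _
    exact sum_shift_le (NN n) i.2 i.2.isLt.le (fun c => F (i.1 + a) c) (fun c => hF0 _ c)
  refine le_trans ?_ h2
  have h3 : ∀ a c : ℕ, c ≤ a → 1 / (64 * m ^ 2 * ((a : ℝ) + 1) ^ 2) ≤ F (i.1 + a) (i.2 + c) := by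
    intro a c hca
    have h4 := grid_term_ge m hm3 ((i.1 : ℕ) : ℝ) ((i.2 : ℕ) : ℝ) a c (Nat.cast_nonneg c)
      (by exact_mod_cast hca)
    simp only [hF, ee, Nat.cast_add]
    exact h4
  have h4 : ∀ a ∈ Finset.range (NN n),
      1 / (64 * m ^ 2) * (1 / ((a : ℝ) + 1)) ≤ ∑ c ∈ Finset.range (NN n), F (i.1 + a) (i.2 + c) := by
    intro a ha
    rw [Finset.mem_range] at ha
    have h5 : ∑ c ∈ Finset.range (a + 1), 1 / (64 * m ^ 2 * ((a : ℝ) + 1) ^ 2)
        ≤ ∑ c ∈ Finset.range (a + 1), F (i.1 + a) (i.2 + c) := by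
      apply Finset.sum_le_sum
      intro c hc
      rw [Finset.mem_range] at hc
      exact h3 a c (by omega)
    have h6 : ∑ c ∈ Finset.range (a + 1), F (i.1 + a) (i.2 + c)
        ≤ ∑ c ∈ Finset.range (NN n), F (i.1 + a) (i.2 + c) := by
      apply Finset.sum_le_sum_of_subset_of_nonneg
      · intro c hc
        rw [Finset.mem_range] at hc ⊢
        omega
      · intro c _ _
        exact hF0 _ _
    refine le_trans (le_of_eq ?_) (h5.trans h6)
    rw [Finset.sum_const, Finset.card_range, nsmul_eq_mul]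
    push_cast
    field_simp
  refine le_trans ?_ (Finset.sum_le_sum h4)
  rw [← Finset.mul_sum]
  have h7 := harm_ge ((mm n) ^ 4)
  have h8 : NN n = 2 ^ ((mm n) ^ 4) := rfl
  rw [h8]
  calc m ^ 2 / 128 = 1 / (64 * m ^ 2) * ((((mm n) ^ 4 : ℕ) : ℝ) / 2) := by
        push_cast
        rw [← hm]
        field_simp
        ring
    _ ≤ _ := by gcongr

end Pool.Agent.helper36.R
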