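import Pool.Agent.helper36.RBasic

set_option autoImplicit false
open MeasureTheory Metric Set

namespace Pool.Agent.helper36.R

/-- The truncated peak of depth `K` centred at `p`. -/
noncomputable def W (K : ℕ) (p x : E2) : ℝ :=
  1 + ∑ j ∈ Finset.range K, 3 * 4 ^ j * (ball p ((1 / 2) ^ (j + 1))).indicator (fun _ => (1 : ℝ)) x
    + (K - 1) * 4 ^ K * (ball p ((1 / 2) ^ K)).indicator (fun _ => (1 : ℝ)) x

lemma ind_nonneg (s : Set E2) (x : E2) : 0 ≤ s.indicator (fun _ => (1 : ℝ)) x := by
  apply indicator_nonneg; intro _ _; norm_num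

lemma ind_le_one (s : Set E2) (x : E2) : s.indicator (fun _ => (1 : ℝ)) x ≤ 1 := by
  apply indicator_le_self' (s := s) (f := fun _ => (1 : ℝ)) _ x
  intro _ _; norm_num

lemma W_ge_one {K : ℕ} (hK : 1 ≤ K) (p x : E2) : 1 ≤ W K p x := by
  unfold W
  have h1 : 0 ≤ ∑ j ∈ Finset.range K,
      3 * (4 : ℝ) ^ j * (ball p ((1 / 2) ^ (j + 1))).indicator (fun _ => (1 : ℝ)) x :=
    Finset.sum_nonneg fun j _ => mul_nonneg (by positivity) (ind_nonneg _ _)
  have h2 : (0 : ℝ) ≤ (K - 1) * 4 ^ K * (ball p ((1 / 2) ^ K)).indicator (fun _ => (1 : ℝ)) x := by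
    apply mul_nonneg (mul_nonneg _ (by positivity)) (ind_nonneg _ _)
    have : (1 : ℝ) ≤ K := by exact_mod_cast hK
    linarith
  linarith

lemma W_meas (K : ℕ) (p : E2) : Measurable (W K p) := by
  unfold W
  refine ((measurable_const.add (Finset.measurable_sum _ fun j _ => ?_)).add ?_)
  · exact measurable_const.mul (measurable_const.indicator measurableSet_ball)
  · exact measurable_const.mul (measurable_const.indicator measurableSet_ball)

lemma geom4 (K : ℕ) : 1 + ∑ j ∈ Finset.range K, 3 * (4 : ℝ) ^ j = 4 ^ K := by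
  induction K with
  | zero => simp
  | succ n ih => rw [Finset.sum_range_succ, ← add_assoc, ih]; ring

lemma half_pow_le {i j : ℕ} (h : i ≤ j) : ((1 : ℝ) / 2) ^ j ≤ (1 / 2) ^ i :=
  pow_le_pow_of_le_one (by norm_num) (by norm_num) h

lemma W_far {K : ℕ} (hK : 1 ≤ K) {p x : E2} (h : 1 / 2 ≤ dist x p) : W K p x = 1 := by
  have h1 : ∀ j : ℕ, 1 ≤ j → (ball p ((1 / 2) ^ j)).indicator (fun _ => (1 : ℝ)) x = 0 := by
    intro j hj
    apply indicator_of_notMem
    rw [mem_ball, not_lt]
    have := half_pow_le hj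
    simp only [pow_one] at this
    exact this.trans h
  unfold W
  rw [h1 K hK, Finset.sum_eq_zero]
  · ring
  · intro j _
    rw [h1 (j + 1) (by omega), mul_zero]

lemma W_core {K : ℕ} {p x : E2} (h : dist x p < (1 / 2) ^ K) : W K p x = K * 4 ^ K := by
  have h1 : ∀ j : ℕ, j ≤ K → (ball p ((1 / 2) ^ j)).indicator (fun _ => (1 : ℝ)) x = 1 := by
    intro j hj
    apply indicator_of_mem (s := ball p ((1 / 2) ^ j)) (f := fun _ => (1 : ℝ))
    rw [mem_ball]
    exact h.trans_le (half_pow_le hj)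
  unfold W
  rw [h1 K le_rfl]
  have h2 : ∑ j ∈ Finset.range K,
      3 * (4 : ℝ) ^ j * (ball p ((1 / 2) ^ (j + 1))).indicator (fun _ => (1 : ℝ)) x
      = ∑ j ∈ Finset.range K, 3 * (4 : ℝ) ^ j := by
    apply Finset.sum_congr rfl
    intro j hj
    rw [h1 (j + 1) (by have := Finset.mem_range.1 hj; omega), mul_one]
  rw [h2, geom4]
  ring

lemma W_lower {K : ℕ} (hK : 1 ≤ K) {p x : E2} {j : ℕ} (hj : j ≤ K) (h : dist x p < (1 / 2) ^ j) :
    4 ^ j ≤ W K p x := by
  have h1 : ∀ i : ℕ, i ≤ j → (ball p ((1 / 2) ^ i)).indicator (fun _ => (1 : ℝ)) x = 1 := by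
    intro i hi
    apply indicator_of_mem (s := ball p ((1 / 2) ^ i)) (f := fun _ => (1 : ℝ))
    rw [mem_ball]
    exact h.trans_le (half_pow_le hi)
  have h2 : ∑ i ∈ Finset.range j, 3 * (4 : ℝ) ^ i ≤ ∑ i ∈ Finset.range K,
      3 * (4 : ℝ) ^ i * (ball p ((1 / 2) ^ (i + 1))).indicator (fun _ => (1 : ℝ)) x := by
    have h3 : ∑ i ∈ Finset.range j, 3 * (4 : ℝ) ^ i = ∑ i ∈ Finset.range j,
      3 * (4 : ℝ) ^ i * (ball p ((1 / 2) ^ (i + 1))).indicator (fun _ => (1 : ℝ)) x := by
      apply Finset.sum_congr rfl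
      intro i hi
      rw [h1 (i + 1) (by have := Finset.mem_range.1 hi; omega), mul_one]
    rw [h3]
    apply Finset.sum_le_sum_of_subset_of_nonneg
    · intro i hi
      rw [Finset.mem_range] at hi ⊢
      omega
    · intro i _ _
      exact mul_nonneg (by positivity) (ind_nonneg _ _)
  have h4 : (0 : ℝ) ≤ (K - 1) * 4 ^ K * (ball p ((1 / 2) ^ K)).indicator (fun _ => (1 : ℝ)) x := by
    apply mul_nonneg (mul_nonneg _ (by positivity)) (ind_nonneg _ _)
    have : (1 : ℝ) ≤ K := by exact_mod_cast hK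
    linarith
  have h5 := geom4 j
  unfold W
  linarith

lemma W_ring {K : ℕ} {p x : E2} {j : ℕ} (hj : j < K) (h : dist x p < (1 / 2) ^ j)
    (h' : (1 / 2) ^ (j + 1) ≤ dist x p) : W K p x = 4 ^ j := by
  have h1 : ∀ i : ℕ, i ≤ j → (ball p ((1 / 2) ^ i)).indicator (fun _ => (1 : ℝ)) x = 1 := by
    intro i hi
    apply indicator_of_mem (s := ball p ((1 / 2) ^ i)) (f := fun _ => (1 : ℝ))
    rw [mem_ball]
    exact h.trans_le (half_pow_le hi)
  have h2 : ∀ i : ℕ, j + 1 ≤ i → (ball p ((1 / 2) ^ i)).indicator (fun _ => (1 : ℝ)) x = 0 := by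
    intro i hi
    apply indicator_of_notMem
    rw [mem_ball, not_lt]
    exact (half_pow_le hi).trans h'
  unfold W
  rw [h2 K (by omega)]
  have h3 : ∑ i ∈ Finset.range j, 3 * (4 : ℝ) ^ i = ∑ i ∈ Finset.range K,
      3 * (4 : ℝ) ^ i * (ball p ((1 / 2) ^ (i + 1))).indicator (fun _ => (1 : ℝ)) x := by
    have h4 : ∑ i ∈ Finset.range j, 3 * (4 : ℝ) ^ i = ∑ i ∈ Finset.range j,
      3 * (4 : ℝ) ^ i * (ball p ((1 / 2) ^ (i + 1))).indicator (fun _ => (1 : ℝ)) x := by
      apply Finset.sum_congr rfl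
      intro i hi
      rw [h1 (i + 1) (by have := Finset.mem_range.1 hi; omega), mul_one]
    rw [h4]
    apply Finset.sum_subset
    · intro i hi
      rw [Finset.mem_range] at hi ⊢
      omega
    · intro i _ hi
      rw [Finset.mem_range, not_lt] at hi
      rw [h2 (i + 1) (by omega), mul_zero]
  rw [← h3, geom4]
  ring

/-- Upper bound for the peak by level. -/
lemma W_upper {K : ℕ} (hK : 1 ≤ K) (p x : E2) :
    ∃ j ≤ K, W K p x ≤ K * 4 ^ j ∧ (j = 0 ∨ dist x p < (1 / 2) ^ j) := by
  have hK1 : (1 : ℝ) ≤ K := by exact_mod_cast hK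
  by_cases h0 : dist x p < 1
  · by_cases hc : dist x p < (1 / 2) ^ K
    · exact ⟨K, le_rfl, (W_core hc).le, Or.inr hc⟩
    · -- find the least i with (1/2)^i ≤ dist x p
      have hex : ∃ i, (1 / 2 : ℝ) ^ i ≤ dist x p := ⟨K, not_lt.1 hc⟩
      classical
      set i := Nat.find hex with hi
      have hi1 : (1 / 2 : ℝ) ^ i ≤ dist x p := Nat.find_spec hex
      have hiK : i ≤ K := Nat.find_min' hex (not_lt.1 hc)
      have hi0 : i ≠ 0 := by
        intro h
        rw [h, pow_zero] at hi1
        linarith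
      obtain ⟨j, hj⟩ := Nat.exists_eq_succ_of_ne_zero hi0
      have hj1 : dist x p < (1 / 2) ^ j := by
        have := Nat.find_min hex (m := j) (by omega)
        exact not_le.1 this
      refine ⟨j, by omega, ?_, Or.inr hj1⟩
      rw [W_ring (by omega) hj1 (by rw [← Nat.succ_eq_add_one, ← hj]; exact hi1)]
      have : (0 : ℝ) < 4 ^ j := by positivity
      nlinarith
  · refine ⟨0, by omega, ?_, Or.inl rfl⟩
    rw [W_far hK (by linarith [not_lt.1 h0])]
    simpa using hK1

lemma ind_integrable (p x0 : E2) (r R : ℝ) :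
    IntegrableOn ((ball p r).indicator (fun _ => (1 : ℝ))) (ball x0 R) := by
  apply Integrable.indicator _ measurableSet_ball
  exact integrableOn_const (vol_ball_ne_top x0 R)

lemma ind_integral_le (p x0 : E2) {r : ℝ} (hr : 0 ≤ r) (R : ℝ) :
    (∫ x in ball x0 R, (ball p r).indicator (fun _ => (1 : ℝ)) x) ≤ Real.pi * r ^ 2 := by
  rw [← vol_ball_real p hr]
  rw [integral_indicator measurableSet_ball, Measure.restrict_restrict measurableSet_ball,
    integral_const, smul_eq_mul, mul_one, measureReal_restrict_apply_univ]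
  exact measureReal_mono inter_subset_left (vol_ball_ne_top p r)

lemma W_integrable (K : ℕ) (p x0 : E2) (R : ℝ) : IntegrableOn (W K p) (ball x0 R) := by
  unfold W
  refine ((Integrable.add ?_ ?_).add ?_)
  · exact integrableOn_const (vol_ball_ne_top x0 R)
  · exact integrable_finsetSum _ fun j _ => (ind_integrable _ _ _ _).const_mul _
  · exact (ind_integrable _ _ _ _).const_mul _

lemma W_integral_le {K : ℕ} (hK : 1 ≤ K) (p x0 : E2) (R : ℝ) :
    (∫ x in ball x0 R, (W K p x - 1)) ≤ 2 * Real.pi * K := by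
  have hK1 : (1 : ℝ) ≤ K := by exact_mod_cast hK
  have h1 : (∫ x in ball x0 R, (W K p x - 1)) =
      ∑ j ∈ Finset.range K,
        3 * 4 ^ j * (∫ x in ball x0 R, (ball p ((1 / 2) ^ (j + 1))).indicator (fun _ => (1 : ℝ)) x)
      + (K - 1) * 4 ^ K *
        (∫ x in ball x0 R, (ball p ((1 / 2) ^ K)).indicator (fun _ => (1 : ℝ)) x) := by
    have h2 : ∀ x, W K p x - 1 = (∑ j ∈ Finset.range K,
        3 * 4 ^ j * (ball p ((1 / 2) ^ (j + 1))).indicator (fun _ => (1 : ℝ)) x)
      + (K - 1) * 4 ^ K * (ball p ((1 / 2) ^ K)).indicator (fun _ => (1 : ℝ)) x := by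
      intro x; unfold W; ring
    simp_rw [h2]
    rw [integral_add]
    · rw [integral_finsetSum]
      · congr 1
        · apply Finset.sum_congr rfl
          intro j _
          rw [integral_const_mul]
        · rw [integral_const_mul]
      · intro j _
        exact (ind_integrable _ _ _ _).const_mul _
    · exact integrable_finsetSum _ fun j _ => (ind_integrable _ _ _ _).const_mul _
    · exact (ind_integrable _ _ _ _).const_mul _
  rw [h1]
  have hpi := Real.pi_pos
  have h3 : ∑ j ∈ Finset.range K,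
        3 * 4 ^ j * (∫ x in ball x0 R, (ball p ((1 / 2) ^ (j + 1))).indicator (fun _ => (1 : ℝ)) x)
      ≤ ∑ j ∈ Finset.range K, Real.pi := by
    apply Finset.sum_le_sum
    intro j _
    have h4 := ind_integral_le p x0 (r := (1 / 2) ^ (j + 1)) (by positivity) R
    calc 3 * 4 ^ j * (∫ x in ball x0 R,
          (ball p ((1 / 2) ^ (j + 1))).indicator (fun _ => (1 : ℝ)) x)
        ≤ 3 * 4 ^ j * (Real.pi * ((1 / 2) ^ (j + 1)) ^ 2) := by gcongr
      _ = 3 / 4 * Real.pi * ((4 : ℝ) ^ j * ((1 / 2) ^ j) ^ 2) := by ring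
      _ = 3 / 4 * Real.pi := by
          rw [← pow_mul, mul_comm j 2, pow_mul, ← mul_pow]; norm_num
      _ ≤ Real.pi := by linarith
  have h5 : (K - 1) * 4 ^ K *
        (∫ x in ball x0 R, (ball p ((1 / 2) ^ K)).indicator (fun _ => (1 : ℝ)) x)
        ≤ (K - 1) * Real.pi := by
    have h4 := ind_integral_le p x0 (r := (1 / 2) ^ K) (by positivity) R
    have h6 : (0 : ℝ) ≤ (K - 1) := by linarith
    calc (K - 1) * 4 ^ K *
        (∫ x in ball x0 R, (ball p ((1 / 2) ^ K)).indicator (fun _ => (1 : ℝ)) x)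
        ≤ (K - 1) * 4 ^ K * (Real.pi * ((1 / 2) ^ K) ^ 2) := by gcongr
      _ = (K - 1) * Real.pi * ((4 : ℝ) ^ K * ((1 / 2) ^ K) ^ 2) := by ring
      _ = (K - 1) * Real.pi := by
          rw [← pow_mul, mul_comm K 2, pow_mul, ← mul_pow]; norm_num
  rw [Finset.sum_const, Finset.card_range, nsmul_eq_mul] at h3
  nlinarith

lemma inv_integrable_of_ge_one {u : E2 → ℝ} (hu : Measurable u) (h : ∀ x, 1 ≤ u x) (x0 : E2)
    (R : ℝ) : IntegrableOn (fun x => (u x)⁻¹) (ball x0 R) := by
  apply Measure.integrableOn_of_bounded (M := 1) (vol_ball_ne_top x0 R)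
    hu.inv.aestronglyMeasurable
  filter_upwards with x
  rw [Real.norm_eq_abs, abs_of_nonneg (inv_nonneg.2 (by linarith [h x]))]
  exact inv_le_one_of_one_le₀ (h x)

/-- Average of `W` over a ball. -/
lemma W_average_le {K : ℕ} (hK : 1 ≤ K) (p x0 : E2) {R : ℝ} (hR : 0 < R) :
    (⨍ x in ball x0 R, W K p x) ≤ 1 + 2 * K / R ^ 2 := by
  have hpi := Real.pi_pos
  rw [average_ball x0 hR, div_le_iff₀ (by positivity)]
  have h1 : (∫ x in ball x0 R, W K p x) = (∫ x in ball x0 R, (W K p x - 1)) + Real.pi * R ^ 2 := by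
    rw [integral_sub (W_integrable K p x0 R) (integrableOn_const (vol_ball_ne_top x0 R)),
      setIntegral_const, vol_ball_real x0 hR.le]
    simp
  rw [h1]
  have h2 := W_integral_le hK p x0 R
  have h3 : (1 + 2 * K / R ^ 2) * (Real.pi * R ^ 2) = Real.pi * R ^ 2 + 2 * Real.pi * K := by
    field_simp
  rw [h3]
  linarith

lemma average_ge_one {u : E2 → ℝ} (x0 : E2) {R : ℝ} (hR : 0 < R) (h : ∀ x, 1 ≤ u x)
    (hi : IntegrableOn u (ball x0 R)) : 1 ≤ (⨍ x in ball x0 R, u x) := by
  rw [average_ball x0 hR, le_div_iff₀ (by positivity)]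
  have h1 : (∫ y in ball x0 R, (1 : ℝ)) ≤ ∫ y in ball x0 R, u y := by
    apply setIntegral_mono_on (integrableOn_const (vol_ball_ne_top x0 R)) hi measurableSet_ball
    intro x _; exact h x
  rw [setIntegral_const, vol_ball_real x0 hR.le, smul_eq_mul, mul_one] at h1
  linarith

/-- If `u ≤ c u'` for any two values in the ball then the `A₂` product is at most `c`. -/
lemma prod_le_of_ratio {u : E2 → ℝ} (x0 : E2) {R : ℝ} (hR : 0 < R) (h : ∀ x, 1 ≤ u x)
    (hi : IntegrableOn u (ball x0 R)) {c : ℝ} (hc : 0 ≤ c)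
    (hr : ∀ x ∈ ball x0 R, ∀ y ∈ ball x0 R, u x ≤ c * u y) :
    (⨍ x in ball x0 R, u x) * (⨍ x in ball x0 R, (u x)⁻¹) ≤ c := by
  have h1 := average_ge_one x0 hR h hi
  set a := ⨍ x in ball x0 R, u x with ha
  have h2 : ∀ y ∈ ball x0 R, a ≤ c * u y := by
    intro y hy
    rw [ha]
    apply average_le_of_le x0 hR u (c * u y)
    · have := h y; positivity
    · intro x hx; exact hr x hx y hy
  have h3 : (⨍ x in ball x0 R, (u x)⁻¹) ≤ c / a := by
    apply average_le_of_le x0 hR _ (c / a) (by positivity)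
    intro y hy
    have hy1 := h y
    rw [inv_eq_one_div, div_le_div_iff₀ (by linarith) (by linarith)]
    have := h2 y hy
    linarith
  calc a * (⨍ x in ball x0 R, (u x)⁻¹) ≤ a * (c / a) := by gcongr
    _ = c := by field_simp

lemma W_A2_single {K : ℕ} (hK : 1 ≤ K) (p x0 : E2) {R : ℝ} (hR : 0 < R) :
    (⨍ x in ball x0 R, W K p x) * (⨍ x in ball x0 R, (W K p x)⁻¹) ≤ 81 * K := by
  have hK1 : (1 : ℝ) ≤ K := by exact_mod_cast hK
  have hW1 := fun x => W_ge_one hK p x
  have hint := W_integrable K p x0 R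
  by_cases hfar : 2 * R ≤ dist x0 p
  · -- far case
    refine (prod_le_of_ratio x0 hR hW1 hint (c := 16 * K) (by positivity) ?_).trans (by linarith)
    intro x hx y hy
    rw [mem_ball] at hx hy
    have hx1 : dist x0 p ≤ dist x x0 + dist x p := by
      rw [dist_comm x x0]; exact dist_triangle x0 x p
    have hy1 : dist y p ≤ dist y x0 + dist x0 p := dist_triangle y x0 p
    have hyx : dist y p < 4 * dist x p := by linarith
    obtain ⟨j, hjK, hj1, hj2⟩ := W_upper hK p x
    have hy4 : (4 : ℝ) ^ j ≤ 16 * W K p y := by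
      by_cases hj3 : j ≤ 2
      · have := hW1 y
        have h4 : (4 : ℝ) ^ j ≤ 4 ^ 2 := pow_le_pow_right₀ (by norm_num) hj3
        linarith
      · obtain ⟨i, rfl⟩ : ∃ i, j = i + 2 := ⟨j - 2, by omega⟩
        have hj4 : dist x p < (1 / 2) ^ (i + 2) := by
          rcases hj2 with h | h
          · omega
          · exact h
        have : dist y p < (1 / 2) ^ i := by
          have : (1 / 2 : ℝ) ^ (i + 2) = (1 / 2) ^ i / 4 := by ring
          rw [this] at hj4
          linarith
        have := W_lower hK (show i ≤ K by omega) this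
        calc (4 : ℝ) ^ (i + 2) = 16 * 4 ^ i := by ring
          _ ≤ 16 * W K p y := by linarith
    calc W K p x ≤ K * 4 ^ j := hj1
      _ ≤ K * (16 * W K p y) := by gcongr
      _ = 16 * K * W K p y := by ring
  · rw [not_le] at hfar
    have hdist : ∀ x ∈ ball x0 R, dist x p < 3 * R := by
      intro x hx
      rw [mem_ball] at hx
      have := dist_triangle x x0 p
      linarith
    by_cases hcore : 3 * R ≤ (1 / 2) ^ K
    · refine (prod_le_of_ratio x0 hR hW1 hint (c := 81 * K) (by positivity) ?_)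
      intro x hx y hy
      rw [W_core ((hdist x hx).trans_le hcore), W_core ((hdist y hy).trans_le hcore)]
      have : (0 : ℝ) < K * 4 ^ K := by positivity
      nlinarith
    · rw [not_le] at hcore
      have havg := W_average_le hK p x0 hR
      have havg1 := average_ge_one x0 hR hW1 hint
      have hinv1 : (⨍ x in ball x0 R, (W K p x)⁻¹) ≤ 1 := by
        apply average_le_of_le x0 hR _ 1 (by norm_num)
        intro y _
        exact inv_le_one_of_one_le₀ (hW1 y)
      have hinv2 : (⨍ x in ball x0 R, (W K p x)⁻¹) ≤ 36 * R ^ 2 := by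
        apply average_le_of_le x0 hR _ _ (by positivity)
        intro y hy
        have hWy := hW1 y
        rw [inv_le_comm₀ (by linarith) (by positivity)]
        by_cases h3R : 1 < 3 * R
        · refine le_trans ?_ hWy
          apply inv_le_one_of_one_le₀
          nlinarith
        · rw [not_lt] at h3R
          have hex : ∃ i, (1 / 2 : ℝ) ^ i < 3 * R := ⟨K, hcore⟩
          classical
          set i := Nat.find hex with hi
          have hi1 : (1 / 2 : ℝ) ^ i < 3 * R := Nat.find_spec hex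
          have hiK : i ≤ K := Nat.find_min' hex hcore
          have hi0 : i ≠ 0 := by
            intro h
            rw [h, pow_zero] at hi1
            linarith
          obtain ⟨j, hj⟩ := Nat.exists_eq_succ_of_ne_zero hi0
          have hj1 : 3 * R ≤ (1 / 2) ^ j := by
            have := Nat.find_min hex (m := j) (by omega)
            exact not_lt.1 this
          have hj2 := W_lower hK (show j ≤ K by omega) ((hdist y hy).trans_le hj1)
          refine le_trans ?_ hj2
          rw [hj, Nat.succ_eq_add_one, pow_succ] at hi1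
          have hj3 : (1 / 2 : ℝ) ^ j < 6 * R := by linarith
          have hj4 : ((1 / 2 : ℝ) ^ j) ^ 2 ≤ (6 * R) ^ 2 := by
            apply pow_le_pow_left₀ (by positivity) hj3.le
          rw [inv_le_comm₀ (by positivity) (by positivity)]
          have hj5 : ((4 : ℝ) ^ j)⁻¹ = ((1 / 2 : ℝ) ^ j) ^ 2 := by
            rw [← pow_mul, mul_comm j 2, pow_mul, ← inv_pow]
            norm_num
          rw [hj5]
          linarith
      by_cases hR2 : R ≤ 1 / 2
      · calc (⨍ x in ball x0 R, W K p x) * (⨍ x in ball x0 R, (W K p x)⁻¹)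
            ≤ (1 + 2 * K / R ^ 2) * (36 * R ^ 2) := by
              apply mul_le_mul havg hinv2 _ (by positivity)
              rw [average_ball x0 hR]
              apply div_nonneg _ (by positivity)
              apply setIntegral_nonneg measurableSet_ball
              intro x _
              have := hW1 x
              positivity
          _ = 36 * R ^ 2 + 72 * K := by field_simp; ring
          _ ≤ 81 * K := by nlinarith
      · rw [not_le] at hR2
        calc (⨍ x in ball x0 R, W K p x) * (⨍ x in ball x0 R, (W K p x)⁻¹)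
            ≤ (⨍ x in ball x0 R, W K p x) * 1 := by gcongr
          _ ≤ 1 + 2 * K / R ^ 2 := by linarith
          _ ≤ 1 + 2 * K / (1 / 2) ^ 2 := by gcongr
          _ ≤ 81 * K := by norm_num; linarith

end Pool.Agent.helper36.R
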